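import Pool.Agent.H744R2.Falc.Defs

set_option autoImplicit false

/-! All angles above dimension `n - 1`: geometry of tubes and the small ball bound. -/

open MeasureTheory Set Metric
open scoped ENNReal

namespace Pool.Agent.H323Z.Ang

abbrev E (d : ℕ) : Type := EuclideanSpace ℝ (Fin (d + 1))

variable {d : ℕ}

/-- squared distance from `v` to the line spanned by the unit vector `θ` -/
noncomputable def perp (θ v : E d) : ℝ := ‖v‖ ^ 2 - (inner ℝ v θ) ^ 2

lemma perp_smul (θ v : E d) (t : ℝ) : perp θ (t • v) = t ^ 2 * perp θ v := by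
  simp only [perp, norm_smul, inner_smul_left, mul_pow, Real.norm_eq_abs, sq_abs, conj_trivial]
  ring

lemma perp_neg (θ v : E d) : perp θ (-v) = perp θ v := by
  simp [perp]

lemma perp_map (g : E d ≃ₗᵢ[ℝ] E d) (θ v : E d) : perp (g θ) (g v) = perp θ v := by
  simp [perp]

lemma perp_eq (θ v : E d) (hθ : ‖θ‖ = 1) : ‖v - (inner ℝ v θ) • θ‖ ^ 2 = perp θ v := by
  rw [norm_sub_sq_real, norm_smul, hθ, inner_smul_right, perp, Real.norm_eq_abs, mul_one, sq_abs]
  ring

lemma measurable_perp {α : Type} [MeasurableSpace α] {f g : α → E d} (hf : Measurable f)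
    (hg : Measurable g) : Measurable fun a => perp (f a) (g a) :=
  (hg.norm.pow_const 2).sub ((hg.inner hf).pow_const 2)

lemma continuous_perp (θ : E d) : Continuous fun v : E d => perp θ v := by
  unfold perp; fun_prop

lemma exists_iso (u v : E d) (h : ‖u‖ = ‖v‖) : ∃ g : E d ≃ₗᵢ[ℝ] E d, g u = v :=
  ⟨_, Submodule.reflection_sub h⟩

lemma exists_coord (θ : E d) (hθ : ‖θ‖ = 1) :
    ∃ g : E d ≃ₗᵢ[ℝ] E d, ∀ v, perp θ v = ∑ j : Fin d, (g v j.succ) ^ 2 := by
  obtain ⟨g, hg⟩ := exists_iso θ (EuclideanSpace.single 0 1) (by simp [hθ])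
  refine ⟨g, fun v => ?_⟩
  rw [← perp_map g, hg, perp, EuclideanSpace.real_norm_sq_eq, Fin.sum_univ_succ,
    EuclideanSpace.inner_single_right]
  simp

lemma cone_vol (θ : E d) (hθ : ‖θ‖ = 1) (δ : ℝ) (hδ : 0 ≤ δ) :
    volume {a : E d | ‖a‖ < 1 ∧ perp θ a ≤ δ ^ 2 * ‖a‖ ^ 2} ≤ ENNReal.ofReal (2 * (2 * δ) ^ d) := by
  obtain ⟨g, hg⟩ := exists_coord θ hθ
  let hi : Fin (d + 1) → ℝ := Fin.cons 1 fun _ => δ
  have hsub : {a : E d | ‖a‖ < 1 ∧ perp θ a ≤ δ ^ 2 * ‖a‖ ^ 2}
      ⊆ g ⁻¹' (WithLp.ofLp ⁻¹' Icc (-hi) hi) := by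
    rintro a ⟨h1, h2⟩
    have key : ∀ i, |g a i| ≤ hi i := by
      intro i
      refine Fin.cases ?_ (fun j => ?_) i
      · have := PiLp.norm_apply_le (g a) 0
        rw [g.norm_map, Real.norm_eq_abs] at this
        exact this.trans h1.le
      · have h3 : (g a j.succ) ^ 2 ≤ ∑ j : Fin d, (g a j.succ) ^ 2 :=
          Finset.single_le_sum (f := fun j : Fin d => (g a j.succ) ^ 2)
            (fun _ _ => sq_nonneg _) (Finset.mem_univ j)
        have h4 : ‖a‖ ^ 2 ≤ 1 := by nlinarith [norm_nonneg a]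
        have h5 : (g a j.succ) ^ 2 ≤ δ ^ 2 := by
          rw [← hg] at h3; nlinarith [sq_nonneg δ]
        exact abs_le_of_sq_le_sq' h5 hδ |> abs_le.2
    exact ⟨fun i => (abs_le.1 (key i)).1, fun i => (abs_le.1 (key i)).2⟩
  refine (measure_mono hsub).trans (le_of_eq ?_)
  have hm : MeasurableSet (WithLp.ofLp ⁻¹' Icc (-hi) hi : Set (E d)) :=
    (PiLp.volume_preserving_ofLp (Fin (d + 1))).measurable measurableSet_Icc
  rw [g.measurePreserving.measure_preimage hm.nullMeasurableSet,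
    (PiLp.volume_preserving_ofLp (Fin (d + 1))).measure_preimage
      measurableSet_Icc.nullMeasurableSet, Real.volume_Icc_pi, Fin.prod_univ_succ]
  simp only [hi, Pi.neg_apply, Fin.cons_zero, Fin.cons_succ, Finset.prod_const, Finset.card_univ,
    Fintype.card_fin, sub_neg_eq_add]
  rw [← ENNReal.ofReal_pow (by linarith), ← ENNReal.ofReal_mul (by norm_num)]
  congr 1; ring

/-- small ball bound for a random direction with isometry invariant law -/
lemma small_ball {Ω : Type} [MeasurableSpace Ω] (P : Measure Ω) [IsFiniteMeasure P]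
    (θ : Ω → E d) (hm : Measurable θ) (hu : ∀ᵐ ω ∂P, ‖θ ω‖ = 1)
    (hinv : ∀ (g : E d ≃ₗᵢ[ℝ] E d) (v : E d) (t : ℝ),
      P {ω | perp (θ ω) (g v) ≤ t} = P {ω | perp (θ ω) v ≤ t})
    (v : E d) (hv : v ≠ 0) (w : ℝ) (hw : 0 ≤ w) :
    P {ω | perp (θ ω) v ≤ w ^ 2} * volume (ball (0 : E d) 1)
      ≤ ENNReal.ofReal (2 * (2 * (w / ‖v‖)) ^ d) * P univ := by
  set δ := w / ‖v‖ with hδ
  have hv' : 0 < ‖v‖ := norm_pos_iff.2 hv
  have hδ0 : 0 ≤ δ := div_nonneg hw hv'.le
  let S : Set (Ω × E d) := {p | ‖p.2‖ < 1 ∧ perp (θ p.1) p.2 ≤ δ ^ 2 * ‖p.2‖ ^ 2}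
  have hS : MeasurableSet S := by
    have e1 : Measurable fun p : Ω × E d => ‖p.2‖ := by fun_prop
    have e2 : Measurable fun p : Ω × E d => perp (θ p.1) p.2 :=
      measurable_perp (hm.comp measurable_fst) measurable_snd
    have e3 : Measurable fun p : Ω × E d => δ ^ 2 * ‖p.2‖ ^ 2 := by fun_prop
    exact (measurableSet_lt e1 measurable_const).inter (measurableSet_le e2 e3)
  have h1 : (P.prod volume) S ≤ ENNReal.ofReal (2 * (2 * δ) ^ d) * P univ := by
    rw [Measure.prod_apply hS, ← lintegral_const]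
    exact lintegral_mono_ae (hu.mono fun ω hω => cone_vol (θ ω) hω δ hδ0)
  refine le_trans ?_ h1
  rw [Measure.prod_apply_symm hS, ← lintegral_indicator_const measurableSet_ball]
  refine lintegral_mono fun a => ?_
  by_cases ha : a ∈ ball (0 : E d) 1
  · rw [indicator_of_mem ha]
    have ha' : ‖a‖ < 1 := by simpa using ha
    have hset : (fun x => (x, a)) ⁻¹' S = {ω | perp (θ ω) a ≤ δ ^ 2 * ‖a‖ ^ 2} := by
      ext ω; simp [S, ha']
    rw [hset]
    rcases eq_or_ne a 0 with rfl | ha0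
    · exact measure_mono fun ω _ => by simp [perp]
    · have ha1 : 0 < ‖a‖ := norm_pos_iff.2 ha0
      obtain ⟨g, hg⟩ := exists_iso ((‖a‖ / ‖v‖) • v) a (by
        rw [norm_smul, Real.norm_eq_abs, abs_of_pos (by positivity)]; field_simp)
      have h2 := hinv g ((‖a‖ / ‖v‖) • v) (δ ^ 2 * ‖a‖ ^ 2)
      rw [hg] at h2
      rw [h2]
      refine measure_mono fun ω hω => ?_
      simp only [mem_ofPred_eq, perp_smul] at hω ⊢
      have : δ ^ 2 * ‖a‖ ^ 2 = (‖a‖ / ‖v‖) ^ 2 * w ^ 2 := by rw [hδ]; field_simp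
      rw [this]
      exact mul_le_mul_of_nonneg_left hω (sq_nonneg _)
  · rw [indicator_of_notMem ha]; exact zero_le

/-- pairs at small distance in a common tube -/
def Tube (θ : E d) (r w : ℝ) : Set (E d × E d) :=
  {p | ‖p.1 - p.2‖ < r ∧ perp θ (p.1 - p.2) ≤ w ^ 2}

lemma measurableSet_tube (θ : E d) (r w : ℝ) : MeasurableSet (Tube θ r w) := by
  have e1 : Measurable fun p : E d × E d => ‖p.1 - p.2‖ := by fun_prop
  have e2 : Measurable fun p : E d × E d => perp θ (p.1 - p.2) :=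
    measurable_perp measurable_const (measurable_fst.sub measurable_snd)
  exact (measurableSet_lt e1 measurable_const).inter (measurableSet_le e2 measurable_const)

/-- Cauchy-Schwarz over the cells of the projection along `θ` -/
lemma cells (μ : Measure (E d)) [IsFiniteMeasure μ] (θ : E d) (hθ : ‖θ‖ = 1) (L r w : ℝ)
    (hL : 0 ≤ L) (hw : 0 < w) (hw1 : w ≤ 1) (Y : Set (E d)) (hY : ∀ y ∈ Y, ‖y‖ ≤ L)
    (hT : ∀ x ∈ Y, ∀ y ∈ Y, perp θ (x - y) ≤ w ^ 2 → ‖x - y‖ < r) :
    μ.real Y ^ 2 ≤ ((2 * L * (d + 1) + 3) / w) ^ d * (μ.prod μ).real (Tube θ r w) := by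
  classical
  obtain ⟨g, hg⟩ := exists_coord θ hθ
  set h : ℝ := w / (d + 1) with hh
  have hd1 : (0 : ℝ) < d + 1 := by positivity
  have hh0 : 0 < h := by positivity
  let q : E d → (Fin d → ℤ) := fun x j => ⌊g x j.succ / h⌋
  have hq : Measurable q := by
    refine measurable_pi_lambda _ fun j => Int.measurable_floor.comp ?_
    fun_prop
  set M : ℕ := ⌈L / h⌉₊ with hM
  let I : Finset (Fin d → ℤ) := Fintype.piFinset fun _ => Finset.Icc (-(M : ℤ)) M
  have hMle : L / h ≤ M := Nat.le_ceil _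
  have hcov : Y ⊆ ⋃ k ∈ I, Y ∩ q ⁻¹' {k} := by
    intro y hy
    refine mem_biUnion (x := q y) ?_ ⟨hy, rfl⟩
    simp only [I, Finset.mem_coe, Fintype.mem_piFinset, Finset.mem_Icc]
    intro j
    have h1 := PiLp.norm_apply_le (g y) j.succ
    rw [g.norm_map, Real.norm_eq_abs] at h1
    have h2 := abs_le.1 (h1.trans (hY y hy))
    have h3 : g y j.succ / h ≤ M := (div_le_div_of_nonneg_right h2.2 hh0.le).trans hMle
    have h4 : -(M : ℝ) ≤ g y j.succ / h := by
      have := div_le_div_of_nonneg_right h2.1 hh0.le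
      rw [neg_div] at this; linarith
    exact ⟨Int.le_floor.2 (by exact_mod_cast h4), by
      have := (Int.floor_le (g y j.succ / h)).trans h3
      exact Int.cast_le.1 (this.trans_eq (Int.cast_natCast (R := ℝ) M).symm)⟩
  have hcard : (I.card : ℝ) ≤ ((2 * L * (d + 1) + 3) / w) ^ d := by
    have h1 : (I.card : ℝ) = (2 * M + 1) ^ d := by
      simp only [I, Fintype.card_piFinset, Int.card_Icc, Finset.prod_const, Finset.card_univ,
        Fintype.card_fin]
      rw [show ((M : ℤ) + 1 - -(M : ℤ)).toNat = 2 * M + 1 by omega]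
      push_cast; rfl
    rw [h1]
    refine pow_le_pow_left₀ (by positivity) ?_ d
    have h2 : (M : ℝ) < L / h + 1 := Nat.ceil_lt_add_one (by positivity)
    have h3 : L / h = L * (d + 1) / w := by rw [hh]; field_simp
    have h4 : (3 : ℝ) ≤ 3 / w := by rw [le_div_iff₀ hw]; linarith
    rw [add_div, show 2 * L * (d + 1) / w = 2 * (L * (d + 1) / w) by ring]
    linarith
  have h1 : μ.real Y ≤ ∑ k ∈ I, μ.real (Y ∩ q ⁻¹' {k}) :=
    (measureReal_mono hcov (measure_ne_top _ _)).trans (measureReal_biUnion_finset_le _ _)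
  have h2 : ∀ k, μ.real (Y ∩ q ⁻¹' {k}) ^ 2
      ≤ (μ.prod μ).real (Tube θ r w ∩ (fun p => q p.1) ⁻¹' {k}) := by
    intro k
    rw [sq, ← measureReal_prod_prod]
    refine measureReal_mono ?_
    rintro ⟨x, y⟩ ⟨⟨hx, hxk⟩, hy, hyk⟩
    have hxy : q x = q y := (mem_singleton_iff.1 hxk).trans (mem_singleton_iff.1 hyk).symm
    have hp : perp θ (x - y) ≤ w ^ 2 := by
      rw [hg]
      have : ∀ j : Fin d, (g (x - y) j.succ) ^ 2 ≤ h ^ 2 := by
        intro j
        have h5 := Int.abs_sub_lt_one_of_floor_eq_floor (congrFun hxy j)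
        rw [← sub_div, abs_div, abs_of_pos hh0, div_lt_one hh0] at h5
        rw [map_sub, PiLp.sub_apply, ← sq_abs]
        exact pow_le_pow_left₀ (abs_nonneg _) h5.le 2
      refine (Finset.sum_le_sum fun j _ => this j).trans ?_
      simp only [Finset.sum_const, Finset.card_univ, Fintype.card_fin, nsmul_eq_mul]
      have h6 : w = h * (d + 1) := by rw [hh]; field_simp
      rw [h6]
      have hd0 : (0 : ℝ) ≤ d := Nat.cast_nonneg d
      nlinarith [sq_nonneg h, mul_nonneg (sq_nonneg h) hd0, mul_nonneg (sq_nonneg h) (sq_nonneg (d : ℝ))]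
    exact ⟨⟨hT x hx y hy hp, hp⟩, hxk⟩
  have h3 : ∑ k ∈ I, (μ.prod μ).real (Tube θ r w ∩ (fun p => q p.1) ⁻¹' {k})
      ≤ (μ.prod μ).real (Tube θ r w) := by
    rw [← measureReal_biUnion_finset]
    · exact measureReal_mono (iUnion₂_subset fun k _ => inter_subset_left)
    · intro k _ k' _ hkk
      refine Set.disjoint_left.2 fun p hp hp' => hkk ?_
      exact (mem_singleton_iff.1 hp.2).symm.trans (mem_singleton_iff.1 hp'.2)
    · exact fun k _ => (measurableSet_tube θ r w).inter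
        ((hq.comp measurable_fst) (measurableSet_singleton k))
  calc μ.real Y ^ 2 ≤ (∑ k ∈ I, μ.real (Y ∩ q ⁻¹' {k})) ^ 2 :=
        pow_le_pow_left₀ measureReal_nonneg h1 2
    _ ≤ I.card * ∑ k ∈ I, μ.real (Y ∩ q ⁻¹' {k}) ^ 2 := sq_sum_le_card_mul_sum_sq
    _ ≤ _ := mul_le_mul hcard ((Finset.sum_le_sum fun k _ => h2 k).trans h3)
        (Finset.sum_nonneg fun _ _ => sq_nonneg _) (by positivity)

end Pool.Agent.H323Z.Ang
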