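import Pool.Agent.H323Z.AngA

set_option autoImplicit false

/-! All angles above dimension `n - 1`. -/

open MeasureTheory Set Metric
open scoped ENNReal

namespace Pool.Agent.H323Z.Ang

variable {d : ℕ}

lemma pair_ball (μ : Measure (E d)) [IsProbabilityMeasure μ] (ρ : ℝ) (b : ℝ≥0∞)
    (h : ∀ x, μ (closedBall x ρ) ≤ b) : (μ.prod μ) {p | ‖p.1 - p.2‖ ≤ ρ} ≤ b := by
  have e1 : Measurable fun p : E d × E d => ‖p.1 - p.2‖ := by fun_prop
  rw [Measure.prod_apply_symm (measurableSet_le e1 measurable_const)]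
  calc _ ≤ ∫⁻ _, b ∂μ := lintegral_mono fun y => le_trans (le_of_eq (by
        congr 1)) (h y)
    _ = b := by simp

/-- mean mass of the tubes -/
lemma mean_tube {Ω : Type} [MeasurableSpace Ω] (P : Measure Ω) [IsFiniteMeasure P]
    (θ : Ω → E d) (hm : Measurable θ) (hu : ∀ᵐ ω ∂P, ‖θ ω‖ = 1)
    (hinv : ∀ (g : E d ≃ₗᵢ[ℝ] E d) (v : E d) (t : ℝ),
      P {ω | perp (θ ω) (g v) ≤ t} = P {ω | perp (θ ω) v ≤ t})
    (hd : 1 ≤ d) (μ : Measure (E d)) [IsProbabilityMeasure μ] (s C : ℝ) (hC : 0 < C)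
    (hF : ∀ (x : E d) (r : ℝ), 0 < r → μ (closedBall x r) ≤ ENNReal.ofReal (C * r ^ s))
    (q : ℝ) (hq : q = 2 ^ d * (1 / 2 : ℝ) ^ s) (hq1 : q < 1) (m : ℕ) (w : ℝ) (hw : 0 < w) :
    Measurable (fun ω => (μ.prod μ) (Tube (θ ω) ((1 / 2) ^ m) w)) ∧
    (∫⁻ ω, (μ.prod μ) (Tube (θ ω) ((1 / 2) ^ m) w) ∂P) * volume (ball (0 : E d) 1)
      ≤ ENNReal.ofReal (w ^ d * (2 * C * 4 ^ d / (1 - q)) * q ^ m) * P univ := by
  let S : Set (Ω × (E d × E d)) := {p | p.2 ∈ Tube (θ p.1) ((1 / 2) ^ m) w}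
  have hS : MeasurableSet S := by
    have e1 : Measurable fun p : Ω × (E d × E d) => ‖p.2.1 - p.2.2‖ := by fun_prop
    have e2 : Measurable fun p : Ω × (E d × E d) => perp (θ p.1) (p.2.1 - p.2.2) :=
      measurable_perp (hm.comp measurable_fst) (measurable_snd.fst.sub measurable_snd.snd)
    exact (measurableSet_lt e1 measurable_const).inter (measurableSet_le e2 measurable_const)
  refine ⟨measurable_measure_prodMk_left hS, ?_⟩
  have h1 : ∫⁻ ω, (μ.prod μ) (Tube (θ ω) ((1 / 2) ^ m) w) ∂P = (P.prod (μ.prod μ)) S :=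
    (Measure.prod_apply hS).symm
  set β := volume (ball (0 : E d) 1) with hβ
  have hβt : β ≠ ∞ := measure_ball_lt_top.ne
  let a : ℕ → ℝ := fun k => 2 * (4 * w * 2 ^ k) ^ d
  let B : ℕ → Set (E d × E d) := fun k => {p | ‖p.1 - p.2‖ ≤ (1 / 2) ^ k}
  have hB : ∀ k, MeasurableSet (B k) := fun k =>
    measurableSet_le (by fun_prop : Measurable fun p : E d × E d => ‖p.1 - p.2‖) measurable_const
  have hpt : ∀ p : E d × E d, P ((fun ω => (ω, p)) ⁻¹' S) * β
      ≤ (∑' i, (B (m + i)).indicator (fun _ => ENNReal.ofReal (a (m + i))) p) * P univ := by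
    intro p
    by_cases hp : ‖p.1 - p.2‖ < (1 / 2) ^ m
    · rcases eq_or_ne (p.1 - p.2) 0 with h0 | h0
      · obtain ⟨k, hk⟩ := pow_unbounded_of_one_lt (max 1 β.toReal / (4 * w)) (one_lt_two (α := ℝ))
        rw [div_lt_iff₀ (by positivity)] at hk
        have h2 : (2 : ℝ) ^ k ≤ 2 ^ (m + k) := pow_le_pow_right₀ one_le_two (by omega)
        have h3 : max 1 β.toReal ≤ 4 * w * 2 ^ (m + k) := by nlinarith
        have h4 : 4 * w * 2 ^ (m + k) ≤ (4 * w * 2 ^ (m + k)) ^ d :=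
          le_self_pow₀ ((le_max_left _ _).trans h3) (by omega)
        have h5 : β ≤ ENNReal.ofReal (a (m + k)) := by
          rw [← ENNReal.ofReal_toReal hβt]
          refine ENNReal.ofReal_le_ofReal ?_
          have := le_max_right 1 β.toReal
          have := le_max_left 1 β.toReal
          simp only [a]; linarith
        rw [mul_comm]
        refine mul_le_mul' (h5.trans (le_trans (le_of_eq ?_) (ENNReal.le_tsum k)))
          (measure_mono (subset_univ _))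
        rw [indicator_of_mem]
        simp only [B, mem_ofPred_eq, h0, norm_zero]; positivity
      · have hv : 0 < ‖p.1 - p.2‖ := norm_pos_iff.2 h0
        have hm1 : ((1 : ℝ) / 2) ^ m ≤ 1 := pow_le_one₀ (by norm_num) (by norm_num)
        obtain ⟨k, hk1, hk2⟩ := exists_nat_pow_near_of_lt_one hv (hp.le.trans hm1)
          (show (0 : ℝ) < 1 / 2 by norm_num) (by norm_num)
        have hmk : m ≤ k := by
          have := (pow_lt_pow_iff_right_of_lt_one₀ (show (0 : ℝ) < 1 / 2 by norm_num)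
            (by norm_num)).1 (hk1.trans hp)
          omega
        obtain ⟨i, rfl⟩ := Nat.exists_eq_add_of_le hmk
        have h2 := small_ball P θ hm hu hinv _ h0 w hw.le
        have h3 : P ((fun ω => (ω, p)) ⁻¹' S) ≤ P {ω | perp (θ ω) (p.1 - p.2) ≤ w ^ 2} :=
          measure_mono fun ω hω => hω.2
        refine (mul_le_mul_left h3 _).trans (h2.trans (mul_le_mul_left ?_ _))
        refine le_trans ?_ (ENNReal.le_tsum i)
        rw [indicator_of_mem (show p ∈ B (m + i) from hk2)]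
        refine ENNReal.ofReal_le_ofReal (mul_le_mul_of_nonneg_left
          (pow_le_pow_left₀ (by positivity) ?_ d) (by norm_num))
        have h4 : (1 / 2 : ℝ) ^ (m + i + 1) * 2 ^ (m + i) = 1 / 2 := by
          rw [pow_succ, mul_right_comm, ← mul_pow]; norm_num
        have h5 : 1 / 2 ≤ ‖p.1 - p.2‖ * 2 ^ (m + i) := by
          rw [← h4]; exact mul_le_mul_of_nonneg_right hk1.le (by positivity)
        rw [← mul_div_assoc, div_le_iff₀ hv]
        nlinarith
    · have : (fun ω => (ω, p)) ⁻¹' S = ∅ := eq_empty_of_forall_notMem fun ω hω => hp hω.1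
      rw [this]; simp
  have hq0 : 0 ≤ q := by rw [hq]; positivity
  rw [h1, Measure.prod_apply_symm hS, ← lintegral_mul_const _ (measurable_measure_prodMk_right hS)]
  refine (lintegral_mono hpt).trans ?_
  rw [lintegral_mul_const' _ _ (measure_ne_top _ _), lintegral_tsum fun i =>
    (measurable_const.indicator (hB _)).aemeasurable]
  refine mul_le_mul_left ?_ _
  have h6 : ∀ i, ∫⁻ p, (B (m + i)).indicator (fun _ => ENNReal.ofReal (a (m + i))) p ∂(μ.prod μ)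
      ≤ ENNReal.ofReal ((w ^ d * (2 * C * 4 ^ d) * q ^ m) * q ^ i) := by
    intro i
    rw [lintegral_indicator_const (hB _)]
    refine (mul_le_mul_right (pair_ball μ _ _ fun x => hF x _ (by positivity)) _).trans ?_
    rw [← ENNReal.ofReal_mul (by positivity)]
    refine ENNReal.ofReal_le_ofReal (le_of_eq ?_)
    have h7 : (((1 : ℝ) / 2) ^ (m + i)) ^ s = ((1 / 2 : ℝ) ^ s) ^ (m + i) := by
      rw [← Real.rpow_natCast, ← Real.rpow_mul (by norm_num), mul_comm,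
        Real.rpow_mul (by norm_num), Real.rpow_natCast]
    rw [h7, mul_assoc _ (q ^ m), ← pow_add, hq, mul_pow, ← pow_mul, mul_comm d, pow_mul]
    simp only [a, mul_pow]
    ring
  refine (ENNReal.tsum_le_tsum h6).trans (le_of_eq ?_)
  rw [← ENNReal.ofReal_tsum_of_nonneg (fun i => by positivity)
    ((summable_geometric_of_lt_one hq0 hq1).mul_left _), tsum_mul_left,
    tsum_geometric_of_lt_one hq0 hq1]
  congr 1; ring

/-- first random direction -/
noncomputable def th1 (p : E d × E d) : E d := ‖p.1‖⁻¹ • p.1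

/-- component of the second vector orthogonal to the first -/
noncomputable def orth (p : E d × E d) : E d := p.2 - (inner ℝ p.2 (th1 p)) • th1 p

/-- second random direction -/
noncomputable def th2 (c : ℝ) (p : E d × E d) : E d :=
  c • th1 p + √(1 - c ^ 2) • (‖orth p‖⁻¹ • orth p)

/-- the parameter set -/
def Om (d : ℕ) : Set (E d × E d) := {p | ‖p.1‖ < 2 ∧ ‖p.2‖ < 2 ∧ (inner ℝ p.1 p.2) ^ 2 < ‖p.1‖ ^ 2 * ‖p.2‖ ^ 2}

lemma isOpen_Om : IsOpen (Om d) := by
  have e1 : Continuous fun p : E d × E d => ‖p.1‖ := by fun_prop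
  have e2 : Continuous fun p : E d × E d => ‖p.2‖ := by fun_prop
  have e3 : Continuous fun p : E d × E d => (inner ℝ p.1 p.2) ^ 2 := by fun_prop
  have e4 : Continuous fun p : E d × E d => ‖p.1‖ ^ 2 * ‖p.2‖ ^ 2 := by fun_prop
  exact (isOpen_lt e1 continuous_const).inter ((isOpen_lt e2 continuous_const).inter
    (isOpen_lt e3 e4))

lemma measurable_th1 : Measurable (th1 (d := d)) := by unfold th1; fun_prop

lemma measurable_orth : Measurable (orth (d := d)) := by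
  have h := measurable_th1 (d := d)
  have e : Measurable fun p : E d × E d => inner ℝ p.2 (th1 p) := measurable_snd.inner h
  unfold orth; fun_prop

lemma measurable_th2 (c : ℝ) : Measurable (th2 (d := d) c) := by
  have h := measurable_th1 (d := d)
  have e := measurable_orth (d := d)
  unfold th2; fun_prop

lemma th_spec (c : ℝ) (hc : |c| < 1) (p : E d × E d) (hp : p ∈ Om d) :
    ‖th1 p‖ = 1 ∧ ‖th2 c p‖ = 1 ∧ inner ℝ (th1 p) (th2 c p) = c := by
  obtain ⟨-, -, h⟩ := hp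
  have ha : p.1 ≠ 0 := by intro h0; simp [h0] at h
  have ha' : 0 < ‖p.1‖ := norm_pos_iff.2 ha
  have h1 : ‖th1 p‖ = 1 := norm_smul_inv_norm (𝕜 := ℝ) ha
  have h2 : orth p ≠ 0 := by
    intro h0
    have h3 := perp_eq (th1 p) p.2 h1
    rw [show p.2 - inner ℝ p.2 (th1 p) • th1 p = 0 from h0, perp, th1, inner_smul_right,
      real_inner_comm] at h3
    have h4 : ‖p.2‖ ^ 2 = (‖p.1‖⁻¹ * inner ℝ p.1 p.2) ^ 2 := by simp at h3 ⊢; linarith
    rw [h4, ← mul_pow, ← mul_assoc, mul_inv_cancel₀ ha'.ne', one_mul] at h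
    exact lt_irrefl _ h
  have h3 : ‖‖orth p‖⁻¹ • orth p‖ = 1 := norm_smul_inv_norm (𝕜 := ℝ) h2
  have h4 : inner ℝ (th1 p) (orth p) = 0 := by
    rw [orth, inner_sub_right, inner_smul_right, real_inner_self_eq_norm_sq, h1, real_inner_comm]
    ring
  have h5 : inner ℝ (th1 p) (‖orth p‖⁻¹ • orth p) = 0 := by rw [inner_smul_right, h4, mul_zero]
  have hc2 : 0 ≤ 1 - c ^ 2 := by have := abs_lt.1 hc; nlinarith
  refine ⟨h1, ?_, ?_⟩
  · have : ‖th2 c p‖ ^ 2 = 1 := by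
      rw [th2, norm_add_sq_real, inner_smul_left, inner_smul_right, h5, norm_smul, norm_smul, h1, h3]
      simp only [Real.norm_eq_abs, mul_one, sq_abs, Real.sq_sqrt hc2]
      ring
    exact (pow_eq_one_iff_of_nonneg (norm_nonneg _) two_ne_zero).1 this
  · rw [th2, inner_add_right, inner_smul_right, inner_smul_right, h5, real_inner_self_eq_norm_sq, h1]
    ring

lemma th1_map (g : E d ≃ₗᵢ[ℝ] E d) (p : E d × E d) : th1 (Prod.map g g p) = g (th1 p) := by
  simp [th1]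

lemma th2_map (c : ℝ) (g : E d ≃ₗᵢ[ℝ] E d) (p : E d × E d) :
    th2 c (Prod.map g g p) = g (th2 c p) := by
  have : orth (Prod.map g g p) = g (orth p) := by
    rw [orth, th1_map]; simp [orth]
  rw [th2, this, th1_map]; simp [th2]

lemma inv_law (θ : E d × E d → E d) (hm : Measurable θ)
    (hθ : ∀ (g : E d ≃ₗᵢ[ℝ] E d) p, θ (Prod.map g g p) = g (θ p))
    (g : E d ≃ₗᵢ[ℝ] E d) (v : E d) (t : ℝ) :
    ((volume.prod volume).restrict (Om d)) {ω | perp (θ ω) (g v) ≤ t}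
      = ((volume.prod volume).restrict (Om d)) {ω | perp (θ ω) v ≤ t} := by
  have hms : ∀ v : E d, MeasurableSet {ω | perp (θ ω) v ≤ t} := fun v =>
    measurableSet_le (measurable_perp hm measurable_const) measurable_const
  rw [Measure.restrict_apply (hms _), Measure.restrict_apply (hms _),
    ← (g.measurePreserving.prod g.measurePreserving).measure_preimage
      ((hms _).inter isOpen_Om.measurableSet).nullMeasurableSet]
  congr 1
  ext p
  simp [hθ, perp_map, Om]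

lemma Om_pos (hd : 1 ≤ d) : (volume.prod volume) (Om d) ≠ 0 := by
  refine isOpen_Om.measure_ne_zero _ ⟨(EuclideanSpace.single 0 1,
    EuclideanSpace.single (⟨1, by omega⟩ : Fin (d + 1)) 1), ?_⟩
  simp [Om, EuclideanSpace.inner_single_left, Fin.ext_iff]

lemma Om_fin : (volume.prod volume) (Om d) ≠ ∞ := by
  have : Om d ⊆ ball (0 : E d) 2 ×ˢ ball (0 : E d) 2 := fun p hp =>
    ⟨by simpa using hp.1, by simpa using hp.2.1⟩
  refine ne_top_of_le_ne_top ?_ (measure_mono this)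
  rw [Measure.prod_prod]
  exact ENNReal.mul_ne_top measure_ball_lt_top.ne measure_ball_lt_top.ne

lemma approx (θ₁ θ₂ X Z : E d) (c L w : ℝ) (hc : |c| ≤ 1) (h1 : ‖θ₁‖ = 1) (h2 : ‖θ₂‖ = 1)
    (h12 : inner ℝ θ₁ θ₂ = c) (hw : 0 ≤ w) (hX : ‖X‖ ≤ L) (hZ : ‖Z‖ ≤ L)
    (hX1 : perp θ₁ X ≤ w ^ 2) (hX2 : 0 ≤ inner ℝ X θ₁)
    (hZ1 : perp θ₂ Z ≤ w ^ 2) (hZ2 : 0 ≤ inner ℝ Z θ₂) :
    |inner ℝ X Z - c * (‖X‖ * ‖Z‖)| ≤ 4 * L * w := by
  set α := inner ℝ X θ₁ with hα
  set β := inner ℝ Z θ₂ with hβ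
  have e1 : ‖X - α • θ₁‖ ≤ w := by
    rw [← perp_eq _ _ h1] at hX1; exact (abs_le_of_sq_le_sq' hX1 hw).2
  have e2 : ‖Z - β • θ₂‖ ≤ w := by
    rw [← perp_eq _ _ h2] at hZ1; exact (abs_le_of_sq_le_sq' hZ1 hw).2
  have hL : 0 ≤ L := (norm_nonneg _).trans hX
  have n1 : ‖α • θ₁‖ = α := by rw [norm_smul, h1, mul_one, Real.norm_eq_abs, abs_of_nonneg hX2]
  have n2 : ‖β • θ₂‖ = β := by rw [norm_smul, h2, mul_one, Real.norm_eq_abs, abs_of_nonneg hZ2]
  have a1 : α ≤ L := by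
    have := real_inner_le_norm X θ₁; rw [h1, mul_one] at this; exact this.trans hX
  have d1 : |‖X‖ - α| ≤ w := by have := abs_norm_sub_norm_le X (α • θ₁); rw [n1] at this; linarith
  have d2 : |‖Z‖ - β| ≤ w := by have := abs_norm_sub_norm_le Z (β • θ₂); rw [n2] at this; linarith
  have i1 : |inner ℝ (X - α • θ₁) Z| ≤ w * L :=
    (abs_real_inner_le_norm _ _).trans (mul_le_mul e1 hZ (norm_nonneg _) hw)
  have i2 : |inner ℝ (α • θ₁) (Z - β • θ₂)| ≤ L * w :=
    (abs_real_inner_le_norm _ _).trans (mul_le_mul (n1.le.trans a1) e2 (norm_nonneg _) hL)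
  have i3 : |c * ((‖X‖ - α) * ‖Z‖)| ≤ 1 * (w * L) := by
    rw [abs_mul, abs_mul, abs_norm]
    exact mul_le_mul hc (mul_le_mul d1 hZ (norm_nonneg _) hw) (by positivity) zero_le_one
  have i4 : |c * (α * (‖Z‖ - β))| ≤ 1 * (L * w) := by
    rw [abs_mul, abs_mul, abs_of_nonneg hX2]
    exact mul_le_mul hc (mul_le_mul a1 d2 (abs_nonneg _) hL) (by positivity) zero_le_one
  have key : inner ℝ X Z - c * (‖X‖ * ‖Z‖) = inner ℝ (X - α • θ₁) Z
      + inner ℝ (α • θ₁) (Z - β • θ₂) - c * ((‖X‖ - α) * ‖Z‖) - c * (α * (‖Z‖ - β)) := by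
    simp only [inner_sub_left, inner_sub_right, inner_smul_left, inner_smul_right, h12,
      conj_trivial]
    ring
  rw [key, abs_le]
  have := abs_le.1 i1; have := abs_le.1 i2; have := abs_le.1 i3; have := abs_le.1 i4
  constructor <;> linarith

/-- points from which the half tube in direction `θ` contains no far point of `K` -/
def Bad (K : Set (E d)) (θ : E d) (r w : ℝ) : Set (E d) :=
  {y | y ∈ K ∧ ¬ ∃ x ∈ K, r ≤ ‖x - y‖ ∧ perp θ (x - y) ≤ w ^ 2 ∧ 0 ≤ inner ℝ (x - y) θ}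

lemma bad_pair (K : Set (E d)) (θ : E d) (r w : ℝ) : ∀ x ∈ Bad K θ r w, ∀ y ∈ Bad K θ r w,
    perp θ (x - y) ≤ w ^ 2 → ‖x - y‖ < r := by
  intro x hx y hy hp
  by_contra hr
  push Not at hr
  rcases le_total 0 (inner ℝ (x - y) θ) with h | h
  · exact hy.2 ⟨x, hx.1, hr, hp, h⟩
  · refine hx.2 ⟨y, hy.1, by rwa [norm_sub_rev], by rwa [← neg_sub, perp_neg], ?_⟩
    rw [← neg_sub, inner_neg_left]; linarith

lemma approx_triples (hd : 1 ≤ d) (K : Set (E d)) (L : ℝ) (hL : 0 ≤ L) (hK : ∀ y ∈ K, ‖y‖ ≤ L)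
    (s : ℝ) (hs : (d : ℝ) < s) (hF : Pool.Agent.H744R2.Falc.Fro K s) (c : ℝ) (hc : |c| < 1) :
    ∃ r : ℝ, 0 < r ∧ ∀ w : ℝ, 0 < w → w ≤ 1 → ∃ x ∈ K, ∃ y ∈ K, ∃ z ∈ K,
      r ≤ ‖x - y‖ ∧ r ≤ ‖z - y‖ ∧
      |inner ℝ (x - y) (z - y) - c * (‖x - y‖ * ‖z - y‖)| ≤ 8 * L * w := by
  obtain ⟨μ, hμ, hμK, C, hC, hF⟩ := hF
  set P : Measure (E d × E d) := (volume.prod volume).restrict (Om d) with hP
  have hPu : P univ = (volume.prod volume) (Om d) := by rw [hP, Measure.restrict_apply_univ]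
  have hP0 : P univ ≠ 0 := hPu ▸ Om_pos hd
  have hPt : P univ ≠ ∞ := hPu ▸ Om_fin
  have : IsFiniteMeasure P := ⟨hPt.lt_top⟩
  have hae : ∀ᵐ ω ∂P, ω ∈ Om d := ae_restrict_mem isOpen_Om.measurableSet
  set β := volume (ball (0 : E d) 1) with hβ
  have hβt : β ≠ ∞ := measure_ball_lt_top.ne
  have hβ0 : β ≠ 0 := (measure_ball_pos _ _ one_pos).ne'
  have hβr : 0 < β.toReal := ENNReal.toReal_pos hβ0 hβt
  set q : ℝ := 2 ^ d * (1 / 2 : ℝ) ^ s with hq
  have hq0 : 0 < q := by positivity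
  have hq1 : q < 1 := by
    have h1 : (1 / 2 : ℝ) ^ s < (1 / 2 : ℝ) ^ (d : ℝ) :=
      Real.rpow_lt_rpow_of_exponent_gt (by norm_num) (by norm_num) hs
    rw [Real.rpow_natCast] at h1
    have h2 : (2 : ℝ) ^ d * (1 / 2) ^ d = 1 := by rw [← mul_pow]; norm_num
    exact (mul_lt_mul_of_pos_left h1 (by positivity)).trans_eq h2
  set A : ℝ := 2 * C * 4 ^ d / (1 - q) with hA
  have hA0 : 0 < A := div_pos (by positivity) (by linarith)
  set B : ℝ := 2 * L * (d + 1) + 3 with hB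
  have hB0 : 0 < B := by positivity
  obtain ⟨m, hm⟩ := exists_pow_lt_of_lt_one
    (show 0 < β.toReal / (12 * B ^ d * A) by positivity) hq1
  rw [lt_div_iff₀ (by positivity)] at hm
  refine ⟨(1 / 2) ^ m, by positivity, fun w hw hw1 => ?_⟩
  set r : ℝ := (1 / 2) ^ m with hr
  obtain ⟨hm1, hi1⟩ := mean_tube P th1 measurable_th1 (hae.mono fun ω hω => (th_spec c hc ω hω).1)
    (inv_law th1 measurable_th1 th1_map) hd μ s C hC hF q hq hq1 m w hw
  obtain ⟨hm2, hi2⟩ := mean_tube P (th2 c) (measurable_th2 c)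
    (hae.mono fun ω hω => (th_spec c hc ω hω).2.1)
    (inv_law (th2 c) (measurable_th2 c) (th2_map c)) hd μ s C hC hF q hq hq1 m w hw
  rw [← hr, ← hA, ← hβ] at hi1 hi2
  set κ : ℝ := w ^ d * A * q ^ m with hκ
  have hκ0 : 0 < κ := by positivity
  obtain ⟨ω, hω, hsmall⟩ : ∃ ω ∈ Om d, ((μ.prod μ) (Tube (th1 ω) r w)
      + (μ.prod μ) (Tube (th2 c ω) r w)) * β < ENNReal.ofReal (3 * κ) := by
    by_contra hcon
    push Not at hcon
    have h1 : ENNReal.ofReal (3 * κ) * P univ ≤ ∫⁻ ω, ((μ.prod μ) (Tube (th1 ω) r w)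
        + (μ.prod μ) (Tube (th2 c ω) r w)) * β ∂P := by
      rw [← lintegral_const]
      exact lintegral_mono_ae (hae.mono hcon)
    rw [lintegral_mul_const' _ _ hβt, lintegral_add_left hm1, add_mul] at h1
    have h2 := h1.trans (add_le_add hi1 hi2)
    rw [← add_mul, ← ENNReal.ofReal_add hκ0.le hκ0.le, ENNReal.mul_le_mul_iff_left hP0 hPt,
      ENNReal.ofReal_le_ofReal_iff (by linarith)] at h2
    linarith
  obtain ⟨u1, u2, u12⟩ := th_spec c hc ω hω
  have hbad : ∀ θ : E d, ‖θ‖ = 1 → (μ.prod μ) (Tube θ r w) * β < ENNReal.ofReal (3 * κ) →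
      μ.real (Bad K θ r w) < 1 / 2 := by
    intro θ hθ hT
    have h1 := cells μ θ hθ L r w hL hw hw1 (Bad K θ r w) (fun y hy => hK y hy.1)
      (bad_pair K θ r w)
    have h2 : (μ.prod μ).real (Tube θ r w) * β.toReal ≤ 3 * κ := by
      rw [measureReal_def, ← ENNReal.toReal_mul]
      exact ENNReal.toReal_le_of_le_ofReal (by linarith) hT.le
    rw [← hB] at h1
    have h3 : (B / w) ^ d * (3 * κ) = 3 * B ^ d * A * q ^ m := by
      rw [hκ, div_pow]; field_simp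
    have h4 : μ.real (Bad K θ r w) ^ 2 * β.toReal ≤ 3 * B ^ d * A * q ^ m := by
      rw [← h3]
      refine (mul_le_mul_of_nonneg_right h1 hβr.le).trans ?_
      rw [mul_assoc]
      exact mul_le_mul_of_nonneg_left h2 (by positivity)
    have h5 : μ.real (Bad K θ r w) ^ 2 * β.toReal < (1 / 2) ^ 2 * β.toReal := by linarith
    exact lt_of_pow_lt_pow_left₀ 2 (by norm_num) (lt_of_mul_lt_mul_right h5 hβr.le)
  have b1 := hbad _ u1 (lt_of_le_of_lt (mul_le_mul_left le_self_add _) hsmall)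
  have b2 := hbad _ u2 (lt_of_le_of_lt (mul_le_mul_left le_add_self _) hsmall)
  obtain ⟨y, hyK, hy1, hy2⟩ : ∃ y ∈ K, y ∉ Bad K (th1 ω) r w ∧ y ∉ Bad K (th2 c ω) r w := by
    by_contra hcon
    push Not at hcon
    have h1 : (univ : Set (E d)) ⊆ Kᶜ ∪ (Bad K (th1 ω) r w ∪ Bad K (th2 c ω) r w) := by
      intro y _
      by_cases hy : y ∈ K
      · by_cases h : y ∈ Bad K (th1 ω) r w
        · exact Or.inr (Or.inl h)
        · exact Or.inr (Or.inr (hcon y hy h))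
      · exact Or.inl hy
    have h2 := (measureReal_mono h1 (measure_ne_top μ _)).trans ((measureReal_union_le _ _).trans
      (add_le_add le_rfl (measureReal_union_le _ _)))
    rw [probReal_univ, measureReal_def μ Kᶜ, hμK] at h2
    simp only [ENNReal.toReal_zero] at h2
    linarith
  obtain ⟨x, hx, hx1, hx2, hx3⟩ := not_not.1 fun h => hy1 ⟨hyK, h⟩
  obtain ⟨z, hz, hz1, hz2, hz3⟩ := not_not.1 fun h => hy2 ⟨hyK, h⟩
  refine ⟨x, hx, y, hyK, z, hz, hx1, hz1, ?_⟩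
  have := approx _ _ (x - y) (z - y) c (2 * L) w hc.le u1 u2 u12 hw.le
    ((norm_sub_le _ _).trans (by linarith [hK x hx, hK y hyK]))
    ((norm_sub_le _ _).trans (by linarith [hK z hz, hK y hyK])) hx2 hx3 hz2 hz3
  linarith

theorem all_angles (n : ℕ) (hn : 2 ≤ n) (K : Set (EuclideanSpace ℝ (Fin n))) (hK : IsCompact K)
    (s : ℝ) (hs : (n : ℝ) - 1 < s) (hF : Pool.Agent.H744R2.Falc.Fro K s) (c : ℝ) (hc : |c| < 1) :
    ∃ x ∈ K, ∃ y ∈ K, ∃ z ∈ K, x ≠ y ∧ z ≠ y ∧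
      inner ℝ (x - y) (z - y) = c * (‖x - y‖ * ‖z - y‖) := by
  obtain ⟨d, rfl⟩ : ∃ d, n = d + 1 := ⟨n - 1, by omega⟩
  obtain ⟨L, hL0, hL⟩ := hK.isBounded.exists_pos_norm_le
  obtain ⟨r, hr, h⟩ := approx_triples (by omega) K L hL0.le hL s (by push_cast at hs; linarith)
    hF c hc
  let T : Set (E d × E d × E d) :=
    (K ×ˢ K ×ˢ K) ∩ ({p | r ≤ ‖p.1 - p.2.1‖} ∩ {p | r ≤ ‖p.2.2 - p.2.1‖})
  have e1 : Continuous fun p : E d × E d × E d => ‖p.1 - p.2.1‖ := by fun_prop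
  have e2 : Continuous fun p : E d × E d × E d => ‖p.2.2 - p.2.1‖ := by fun_prop
  have hT : IsCompact T := (hK.prod (hK.prod hK)).inter_right
    ((isClosed_le continuous_const e1).inter (isClosed_le continuous_const e2))
  let F : E d × E d × E d → ℝ := fun p =>
    |inner ℝ (p.1 - p.2.1) (p.2.2 - p.2.1) - c * (‖p.1 - p.2.1‖ * ‖p.2.2 - p.2.1‖)|
  have hFc : Continuous F := by fun_prop
  have hmem : ∀ w : ℝ, 0 < w → w ≤ 1 → ∃ p ∈ T, F p ≤ 8 * L * w := by
    intro w hw hw1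
    obtain ⟨x, hx, y, hy, z, hz, h1, h2, h3⟩ := h w hw hw1
    exact ⟨(x, y, z), ⟨⟨hx, hy, hz⟩, h1, h2⟩, h3⟩
  obtain ⟨p₀, hp₀, -⟩ := hmem 1 one_pos le_rfl
  obtain ⟨⟨x, y, z⟩, ⟨⟨hx, hy, hz⟩, h1, h2⟩, hmin⟩ := hT.exists_isMinOn ⟨p₀, hp₀⟩ hFc.continuousOn
  have h0 : F (x, y, z) ≤ 0 := by
    by_contra hcon
    push Not at hcon
    obtain ⟨p, hp, hpw⟩ := hmem (min 1 (F (x, y, z) / (16 * L))) (lt_min one_pos (by positivity))
      (min_le_left _ _)
    have h3 : F (x, y, z) ≤ F p := hmin hp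
    have h4 : 8 * L * min 1 (F (x, y, z) / (16 * L)) ≤ 8 * L * (F (x, y, z) / (16 * L)) :=
      mul_le_mul_of_nonneg_left (min_le_right _ _) (by positivity)
    have h5 : 8 * L * (F (x, y, z) / (16 * L)) = F (x, y, z) / 2 := by field_simp; ring
    linarith
  refine ⟨x, hx, y, hy, z, hz, fun h => ?_, fun h => ?_, ?_⟩
  · have : r ≤ ‖x - y‖ := h1
    rw [h, sub_self, norm_zero] at this; linarith
  · have : r ≤ ‖z - y‖ := h2
    rw [h, sub_self, norm_zero] at this; linarith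
  · exact sub_eq_zero.1 (abs_nonpos_iff.1 h0)

end Pool.Agent.H323Z.Ang
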