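import Mathlib

set_option autoImplicit false

namespace Pool.Agent.H323Z.CF

/-- A substitution `τ : S → S^*`, extended to words by concatenation. -/
def subst {S : Type} (τ : S → List S) (w : List S) : List S := w.flatMap τ

/-- The finite word `x_i x_(i+1) ... x_(i+n-1)` of a point `x` of `S^ℤ`. -/
def window {S : Type} (x : ℤ → S) (i : ℤ) (n : ℕ) : List S :=
  (List.range n).map (fun j : ℕ => x (i + j))

/-- The subshift `X_τ`: all points each finite subword of which is a subword of some `τ^m(a)`. -/
def subshift {S : Type} (τ : S → List S) : Set (ℤ → S) :=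
  {x | ∀ (i : ℤ) (n : ℕ), ∃ (m : ℕ) (a : S), window x i n <:+: (subst τ)^[m] [a]}

/-- The language `B(X)`: the finite words that occur in some point of `X`. -/
def lang {S : Type} (X : Set (ℤ → S)) : Language S :=
  {w | ∃ x ∈ X, ∃ i : ℤ, w = window x i w.length}

/-- A letter or the number of a nonterminal, read as a grammar symbol. -/
def toSymbol {S : Type} : S ⊕ ℕ → Symbol S ℕ
  | Sum.inl a => Symbol.terminal a
  | Sum.inr n => Symbol.nonterminal n

/-- The context-free grammar described by an initial nonterminal and a finite list of rules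
(left-hand side, right-hand side); the nonterminals are natural numbers. -/
def toGrammar {S : Type} [DecidableEq S] (c : ℕ × List (ℕ × List (S ⊕ ℕ))) :
    ContextFreeGrammar S :=
  ⟨ℕ, c.1, (c.2.map fun r => (⟨r.1, r.2.map toSymbol⟩ : ContextFreeRule S ℕ)).toFinset⟩

end Pool.Agent.H323Z.CF
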