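import Mathlib
import Pool.Agent.H323Z.CFDefs

set_option autoImplicit false

/-! The subshift of the substitution `0 ↦ 010`, `1 ↦ 13`, `2 ↦ 2`, `3 ↦ 23`. -/

namespace Pool.Agent.H323Z.CF

open List

section window
variable {S : Type}

theorem window_add (x : ℤ → S) (i : ℤ) (n m : ℕ) :
    window x i (n + m) = window x i n ++ window x (i + n) m := by
  unfold window
  rw [List.range_add, List.map_append, List.map_map]
  congr 1
  apply List.map_congr_left
  intro j _
  simp only [Function.comp]
  congr 1
  push_cast
  ring

theorem window_one (x : ℤ → S) (i : ℤ) : window x i 1 = [x i] := by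
  simp [window]

theorem window_length (x : ℤ → S) (i : ℤ) (n : ℕ) : (window x i n).length = n := by
  simp [window]

theorem window_sub (x : ℤ → S) (i i' : ℤ) (n n' : ℕ) (h1 : i' ≤ i) (h2 : i + n ≤ i' + n') :
    window x i n <:+: window x i' n' := by
  obtain ⟨p, hp⟩ : ∃ p : ℕ, i = i' + p := ⟨(i - i').toNat, by omega⟩
  obtain ⟨q, hq⟩ : ∃ q : ℕ, n' = p + n + q := ⟨n' - p - n, by omega⟩
  subst hp hq
  rw [window_add, window_add]
  exact ⟨_, _, rfl⟩

theorem lang_sub (X : Set (ℤ → S)) {u w : List S} (h : u <:+: w) (hw : w ∈ lang X) :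
    u ∈ lang X := by
  obtain ⟨x, hx, i, hi⟩ := hw
  obtain ⟨p, q, rfl⟩ := h
  refine ⟨x, hx, i + p.length, ?_⟩
  rw [List.length_append, List.length_append, window_add, window_add] at hi
  have h1 := List.append_inj hi (by simp [window_length])
  have h2 := List.append_inj h1.1 (by simp [window_length])
  exact h2.2

/-- a word all of whose extensions can be extended on both sides occurs in a point -/
theorem exists_point (E : List S → Prop) (hE : ∀ u, E u → ∃ c d, E (c :: u ++ [d]))
    (w : List S) (hw : E w) :
    ∃ x : ℤ → S, w = window x 0 w.length ∧ ∀ i n, ∃ u, E u ∧ window x i n <:+: u := by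
  classical
  choose c d hcd using hE
  let u : ℕ → {u // E u} := fun k => Nat.rec ⟨w, hw⟩
    (fun _ v => ⟨c v.1 v.2 :: v.1 ++ [d v.1 v.2], hcd v.1 v.2⟩) k
  have u0 : (u 0).1 = w := rfl
  have us : ∀ k, (u (k + 1)).1 = c (u k).1 (u k).2 :: (u k).1 ++ [d (u k).1 (u k).2] :=
    fun k => rfl
  let x : ℤ → S := fun i =>
    if i < 0 then c (u (-i - 1).toNat).1 (u (-i - 1).toNat).2
    else if h : i.toNat < w.length then w[i.toNat]
    else d (u (i.toNat - w.length)).1 (u (i.toNat - w.length)).2
  have h0 : window x 0 w.length = w := by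
    apply List.ext_getElem
    · simp [window]
    · intro j h1 h2
      simp only [window, List.getElem_map, List.getElem_range, x]
      rw [if_neg (by omega), dif_pos (by simpa using h2)]
      simp
  have hk : ∀ k : ℕ, window x (-k) (w.length + 2 * k) = (u k).1 := by
    intro k
    induction k with
    | zero => simpa [u0] using h0
    | succ k ih =>
      rw [show w.length + 2 * (k + 1) = 1 + (w.length + 2 * k) + 1 by ring, window_add,
        window_add, window_one, window_one, us]
      have e1 : (-((k + 1 : ℕ) : ℤ) + ((1 : ℕ) : ℤ)) = -k := by push_cast; ring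
      rw [e1, ih]
      have e2 : x (-((k + 1 : ℕ) : ℤ)) = c (u k).1 (u k).2 := by
        have e : (-(-((k + 1 : ℕ) : ℤ)) - 1).toNat = k := by omega
        simp only [x]
        rw [if_pos (by omega), e]
      have e3 : x (-((k + 1 : ℕ) : ℤ) + ((1 + (w.length + 2 * k) : ℕ) : ℤ)) =
          d (u k).1 (u k).2 := by
        have e : (-((k + 1 : ℕ) : ℤ) + ((1 + (w.length + 2 * k) : ℕ) : ℤ)).toNat - w.length = k := by
          omega
        simp only [x]
        rw [if_neg (by omega), dif_neg (by omega), e]
      rw [e2, e3]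
      rfl
  refine ⟨x, h0.symm, fun i n => ⟨(u (i.natAbs + n)).1, (u _).2, ?_⟩⟩
  rw [← hk]
  apply window_sub
  · omega
  · omega

theorem sub_of_not_mem {c : S} {w u v : List S} (hc : c ∉ w) (h : w <:+: u ++ c :: v) :
    w <:+: u ∨ w <:+: v := by
  obtain ⟨p, q, h⟩ := h
  rw [List.append_assoc, List.append_eq_append_iff] at h
  rcases h with ⟨e, h1, h2⟩ | ⟨e, h1, h2⟩
  · rw [List.append_eq_append_iff] at h2
    rcases h2 with ⟨f, h3, h4⟩ | ⟨f, h3, h4⟩
    · left
      exact ⟨p, f, by rw [h1, h3, List.append_assoc]⟩
    · rcases f with _ | ⟨z, f⟩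
      · left
        exact ⟨p, [], by rw [h1, h3]; simp⟩
      · exfalso
        simp only [List.cons_append, List.cons.injEq] at h4
        apply hc
        rw [h3, h4.1]
        simp
  · rcases e with _ | ⟨z, e⟩
    · rcases w with _ | ⟨y, w⟩
      · left
        exact List.nil_infix
      · exfalso
        simp only [List.nil_append, List.cons_append, List.cons.injEq] at h2
        apply hc
        rw [h2.1]
        simp
    · right
      simp only [List.cons_append, List.cons.injEq] at h2
      exact ⟨e, q, by rw [h2.2, List.append_assoc]⟩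

end window

/-- the substitution -/
def tau : Fin 4 → List (Fin 4) := ![[0, 1, 0], [1, 3], [2], [2, 3]]

/-- a block -/
def blk (i : ℕ) : List (Fin 4) := List.replicate i 2 ++ [3]

/-- a sequence of blocks -/
def blks (l : List ℕ) : List (Fin 4) := l.flatMap blk

theorem blks_nil : blks [] = [] := rfl

theorem blks_cons (i : ℕ) (l : List ℕ) : blks (i :: l) = blk i ++ blks l := by simp [blks]

theorem blks_append (l m : List ℕ) : blks (l ++ m) = blks l ++ blks m := by simp [blks]

theorem subst_append (u v : List (Fin 4)) : subst tau (u ++ v) = subst tau u ++ subst tau v := by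
  simp [subst]

theorem iter_append (n : ℕ) (u v : List (Fin 4)) :
    (subst tau)^[n] (u ++ v) = (subst tau)^[n] u ++ (subst tau)^[n] v := by
  induction n generalizing u v with
  | zero => rfl
  | succ n ih => rw [Function.iterate_succ_apply, subst_append, ih]; rfl

theorem iter_two (n : ℕ) : (subst tau)^[n] [2] = [2] := by
  induction n with
  | zero => rfl
  | succ n ih => rw [Function.iterate_succ_apply]; exact ih

theorem iter_three (n : ℕ) : (subst tau)^[n] [3] = blk n := by
  induction n with
  | zero => rfl
  | succ n ih =>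
    rw [Function.iterate_succ_apply, show subst tau [3] = [2] ++ [3] from rfl, iter_append,
      iter_two, ih]
    simp [blk, List.replicate_succ]

theorem iter_one (n : ℕ) : (subst tau)^[n] [1] = 1 :: blks (List.range n) := by
  induction n with
  | zero => rfl
  | succ n ih =>
    rw [Function.iterate_succ_apply, show subst tau [1] = [1] ++ [3] from rfl, iter_append,
      iter_three, ih, List.range_succ, blks_append]
    simp [blks]

theorem iter_zero (n : ℕ) : (subst tau)^[n + 1] [0] =
    (subst tau)^[n] [0] ++ 1 :: blks (List.range n) ++ (subst tau)^[n] [0] := by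
  rw [Function.iterate_succ_apply, show subst tau [0] = [0] ++ [1] ++ [0] from rfl, iter_append,
    iter_append, iter_one]

theorem iter_zero_head (n : ℕ) : ∃ t, (subst tau)^[n] [0] = 0 :: t := by
  induction n with
  | zero => exact ⟨[], rfl⟩
  | succ n ih =>
    obtain ⟨t, ht⟩ := ih
    rw [iter_zero, ht]
    exact ⟨_, rfl⟩

theorem sub_zero (n : ℕ) (w : List (Fin 4)) (h0 : (0 : Fin 4) ∉ w) (h1 : (1 : Fin 4) ∉ w)
    (h : w <:+: (subst tau)^[n] [0]) : ∃ m, w <:+: blks (List.range m) := by
  induction n with
  | zero =>
    have : w <:+: [] ++ 0 :: [] := h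
    rcases sub_of_not_mem h0 this with h | h <;> exact ⟨0, h⟩
  | succ n ih =>
    rw [iter_zero, List.append_assoc, List.cons_append] at h
    rcases sub_of_not_mem h1 h with h | h
    · exact ih h
    · obtain ⟨t, ht⟩ := iter_zero_head n
      rw [ht] at h
      rcases sub_of_not_mem h0 h with h | h
      · exact ⟨n, h⟩
      · apply ih
        rw [ht]
        exact h.trans (List.infix_cons (List.infix_refl t))

theorem sub_any (n : ℕ) (c : Fin 4) (w : List (Fin 4)) (h0 : (0 : Fin 4) ∉ w)
    (h1 : (1 : Fin 4) ∉ w) (h : w <:+: (subst tau)^[n] [c]) :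
    ∃ m, w <:+: blks (List.range m) := by
  fin_cases c
  · exact sub_zero n w h0 h1 h
  · have h' : w <:+: [] ++ 1 :: blks (List.range n) := by
      have := iter_one n
      simp only [Fin.mk_one] at h
      rwa [this] at h
    rcases sub_of_not_mem h1 h' with h | h
    · exact ⟨0, h⟩
    · exact ⟨n, h⟩
  · have h' : w <:+: [2] := by
      have := iter_two n
      simp only [Fin.reduceFinMk] at h
      rwa [this] at h
    exact ⟨2, h'.trans ⟨[3], [3], rfl⟩⟩
  · have h' : w <:+: blk n := by
      have := iter_three n
      simp only [Fin.reduceFinMk] at h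
      rwa [this] at h
    refine ⟨n + 1, h'.trans ?_⟩
    rw [List.range_succ, blks_append]
    exact ⟨blks (List.range n), [], by simp [blks]⟩

theorem blk_inj {i j : ℕ} {u v : List (Fin 4)} (h : blk i ++ u = blk j ++ v) :
    i = j ∧ u = v := by
  induction i generalizing j with
  | zero =>
    rcases j with _ | j
    · simpa [blk] using h
    · simp [blk, List.replicate_succ] at h
  | succ i ih =>
    rcases j with _ | j
    · simp [blk, List.replicate_succ] at h
    · have : blk i ++ u = blk j ++ v := by simpa [blk, List.replicate_succ] using h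
      obtain ⟨h1, h2⟩ := ih this
      exact ⟨by rw [h1], h2⟩

theorem blks_start {m l : List ℕ} {v : List (Fin 4)} (h : blks m ++ v = blks l) :
    ∃ t, m ++ t = l := by
  induction m generalizing l with
  | nil => exact ⟨l, rfl⟩
  | cons i m ih =>
    rcases l with _ | ⟨j, l⟩
    · simp [blks, blk] at h
    · rw [blks_cons, blks_cons, List.append_assoc] at h
      obtain ⟨h1, h2⟩ := blk_inj h
      obtain ⟨t, ht⟩ := ih h2
      exact ⟨t, by rw [h1, ← ht]; rfl⟩

theorem blks_sub {m l : List ℕ} (h : 3 :: blks m <:+: blks l) : m <:+: l := by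
  induction l with
  | nil => simp [blks] at h
  | cons k l ih =>
    obtain ⟨p, q, h⟩ := h
    rw [blks_cons, blk, List.append_assoc, List.append_assoc, List.append_eq_append_iff] at h
    have key : blks m ++ q = blks l → m <:+: k :: l := by
      intro h
      obtain ⟨t, ht⟩ := blks_start h
      exact ⟨[k], t, by rw [← ht]; simp⟩
    rcases h with ⟨e, h1, h2⟩ | ⟨e, h1, h2⟩
    · rcases e with _ | ⟨z, e⟩
      · apply key
        simpa using h2
      · exfalso
        have hz : z = 2 := by
          apply List.eq_of_mem_replicate (n := k)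
          rw [h1]
          simp
        simp only [List.cons_append, List.cons.injEq] at h2
        rw [hz] at h2
        exact absurd h2.1 (by decide)
    · rcases e with _ | ⟨z, e⟩
      · apply key
        simpa using h2.symm
      · simp only [List.cons_append, List.nil_append, List.cons.injEq] at h2
        exact (ih ⟨e, q, by rw [h2.2]; simp⟩).trans (List.infix_cons (List.infix_refl l))

/-- consecutive numbers -/
def Consec (x : ℕ) : List ℕ → Prop
  | [] => True
  | y :: l => y = x + 1 ∧ Consec y l

theorem consec_of_chain {x : ℕ} {l : List ℕ}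
    (h : List.IsChain (fun a b => b = a + 1) (x :: l)) : Consec x l := by
  induction l generalizing x with
  | nil => trivial
  | cons y l ih =>
    rw [List.isChain_cons_cons] at h
    exact ⟨h.1, ih h.2⟩

theorem consec_of_sub {x n : ℕ} {l : List ℕ} (h : x :: l <:+: List.range n) : Consec x l := by
  apply consec_of_chain
  obtain ⟨p, q, h⟩ := h
  have hc : List.IsChain (fun a b => b = a + 1) (List.range n) := by
    rw [List.isChain_range]
    intro m _
    rfl
  rw [← h] at hc
  exact hc.left_of_append.right_of_append

theorem consec_eq {x : ℕ} {l : List ℕ} (h : Consec x l) : l = List.range' (x + 1) l.length := by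
  induction l generalizing x with
  | nil => rfl
  | cons y l ih =>
    obtain ⟨rfl, h2⟩ := h
    rw [List.length_cons, List.range'_succ, ← ih h2]

theorem consec_range' (x n : ℕ) : Consec x (List.range' (x + 1) n) := by
  induction n generalizing x with
  | zero => trivial
  | succ n ih => exact ⟨rfl, ih (x + 1)⟩

theorem consec_append {x y : ℕ} {l m : List ℕ} :
    Consec x (l ++ y :: m) ↔ Consec x l ∧ y = x + l.length + 1 ∧ Consec y m := by
  induction l generalizing x with
  | nil => simp [Consec]
  | cons z l ih =>
    simp only [List.cons_append, Consec, ih, List.length_cons]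
    constructor
    · rintro ⟨h1, h2, h3, h4⟩
      exact ⟨⟨h1, h2⟩, by omega, h4⟩
    · rintro ⟨⟨h1, h2⟩, h3, h4⟩
      exact ⟨h1, h2, by omega, h4⟩

theorem not_mem_blks (c : Fin 4) (h2 : c ≠ 2) (h3 : c ≠ 3) (l : List ℕ) : c ∉ blks l := by
  simp only [blks, blk, List.mem_flatMap, List.mem_append, List.mem_replicate, List.mem_singleton]
  rintro ⟨i, _, h | h⟩
  · exact h2 h.2
  · exact h3 h

/-- words of the subshift made of blocks have consecutive blocks -/
theorem consec_of_lang {x : ℕ} {l : List ℕ} (h : 3 :: blks (x :: l) ∈ lang (subshift tau)) :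
    Consec x l := by
  obtain ⟨y, hy, i, hi⟩ := h
  obtain ⟨m, c, hm⟩ := hy i (3 :: blks (x :: l)).length
  rw [← hi] at hm
  obtain ⟨n, hn⟩ := sub_any m c _ (by
    rw [List.mem_cons]
    rintro (h | h)
    · exact absurd h (by decide)
    · exact not_mem_blks 0 (by decide) (by decide) _ h) (by
    rw [List.mem_cons]
    rintro (h | h)
    · exact absurd h (by decide)
    · exact not_mem_blks 1 (by decide) (by decide) _ h) hm
  exact consec_of_sub (blks_sub hn)

theorem range_mem_lang (n : ℕ) : blks (List.range n) ∈ lang (subshift tau) := by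
  obtain ⟨x, hx, hx2⟩ := exists_point (fun u => ∃ m, u <:+: (subst tau)^[m] [0]) (by
    rintro u ⟨m, p, q, h⟩
    obtain ⟨t, ht⟩ := iter_zero_head m
    have h2 : (subst tau)^[m + 2] [0] =
        ((subst tau)^[m] [0] ++ 1 :: blks (List.range m) ++ p) ++ u ++
          (q ++ 1 :: (blks (List.range (m + 1)) ++ (subst tau)^[m + 1] [0])) := by
      rw [iter_zero (m + 1)]
      nth_rewrite 1 [iter_zero m]
      nth_rewrite 2 [← h]
      simp
    obtain ⟨p', c, hp⟩ : ∃ p' c, (subst tau)^[m] [0] ++ 1 :: blks (List.range m) ++ p =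
        p' ++ [c] := by
      refine ⟨List.dropLast _, List.getLast _ (by simp), (List.dropLast_append_getLast _).symm⟩
    obtain ⟨q', d, hq⟩ : ∃ q' d, q ++ 1 :: (blks (List.range (m + 1)) ++
        (subst tau)^[m + 1] [0]) = d :: q' := by
      rcases q with _ | ⟨d, q⟩
      · exact ⟨_, _, rfl⟩
      · exact ⟨_, _, rfl⟩
    refine ⟨c, d, m + 2, p', q', ?_⟩
    rw [h2, hp, hq]
    simp) (blks (List.range n)) ⟨n + 1, by
      rw [iter_zero]
      exact ⟨(subst tau)^[n] [0] ++ [1], (subst tau)^[n] [0], by simp⟩⟩
  refine ⟨x, ?_, 0, hx⟩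
  intro i k
  obtain ⟨u, ⟨m, hm⟩, hu⟩ := hx2 i k
  exact ⟨m, 0, hu.trans hm⟩

theorem lang_of_consec {x : ℕ} {l : List ℕ} (hx : 1 ≤ x) (h : Consec x l) :
    3 :: blks (x :: l) ∈ lang (subshift tau) := by
  obtain ⟨z, rfl⟩ : ∃ z, x = z + 1 := ⟨x - 1, by omega⟩
  apply lang_sub _ _ (range_mem_lang (z + 1 + (l.length + 1)))
  rw [List.range_add, List.range_succ, blks_append, blks_append]
  have e : List.map (fun x => z + 1 + x) (List.range (l.length + 1)) = (z + 1) :: l := by
    rw [consec_eq h, List.length_range', ← List.range'_succ, List.range'_eq_map_range]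
  rw [e]
  exact ⟨blks (List.range z) ++ List.replicate z 2, [], by simp [blks, blk]⟩

end Pool.Agent.H323Z.CF
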