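import Mathlib
import Pool.Agent.H323Z.CFShift

set_option autoImplicit false

/-! A context-free grammar that follows an increasing arithmetic machine along the blocks. -/

namespace Pool.Agent.H323Z.CF

open List

section general
variable {S N : Type}

/-- meaning of a sentential form under an interpretation of the nonterminals -/
def Sem (I : N → List S → Prop) : List (Symbol S N) → List S → Prop
  | [], w => w = []
  | Symbol.terminal a :: u, w => ∃ w', w = a :: w' ∧ Sem I u w'
  | Symbol.nonterminal n :: u, w => ∃ w1 w2, w = w1 ++ w2 ∧ I n w1 ∧ Sem I u w2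

theorem sem_append (I : N → List S → Prop) (u v : List (Symbol S N)) (w : List S) :
    Sem I (u ++ v) w ↔ ∃ w1 w2, w = w1 ++ w2 ∧ Sem I u w1 ∧ Sem I v w2 := by
  induction u generalizing w with
  | nil => simp [Sem]
  | cons x u ih =>
    rcases x with a | n
    · simp only [List.cons_append, Sem, ih]
      constructor
      · rintro ⟨w', rfl, w1, w2, rfl, h1, h2⟩
        exact ⟨a :: w1, w2, rfl, ⟨w1, rfl, h1⟩, h2⟩
      · rintro ⟨_, w2, rfl, ⟨w1, rfl, h1⟩, h2⟩
        exact ⟨w1 ++ w2, rfl, w1, w2, rfl, h1, h2⟩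
    · simp only [List.cons_append, Sem, ih]
      constructor
      · rintro ⟨w0, _, rfl, h0, w1, w2, rfl, h1, h2⟩
        exact ⟨w0 ++ w1, w2, by simp, ⟨w0, w1, rfl, h0, h1⟩, h2⟩
      · rintro ⟨_, w2, rfl, ⟨w0, w1, rfl, h0, h1⟩, h2⟩
        exact ⟨w0, w1 ++ w2, by simp, h0, w1, w2, rfl, h1, h2⟩

theorem sem_term (I : N → List S → Prop) (u w : List S) :
    Sem I (u.map Symbol.terminal) w ↔ w = u := by
  induction u generalizing w with
  | nil => simp [Sem]
  | cons a u ih => simp [Sem, ih]

theorem sem_sound (g : ContextFreeGrammar S) (I : g.NT → List S → Prop)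
    (hI : ∀ r ∈ g.rules, ∀ w, Sem I r.output w → I r.input w) (w : List S)
    (hw : w ∈ g.language) : I g.initial w := by
  have key : ∀ u v : List (Symbol S g.NT), g.Derives u v → ∀ w, Sem I v w → Sem I u w := by
    intro u v h
    induction h with
    | refl => exact fun w h => h
    | tail _ h2 ih =>
      intro w hw
      apply ih
      obtain ⟨r, hr, h2⟩ := h2
      obtain ⟨p, q, rfl, rfl⟩ := h2.exists_parts
      rw [sem_append] at hw ⊢
      obtain ⟨w1, w2, rfl, h1, h2⟩ := hw
      refine ⟨w1, w2, rfl, ?_, h2⟩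
      rw [sem_append] at h1 ⊢
      obtain ⟨w3, w4, rfl, h3, h4⟩ := h1
      exact ⟨w3, w4, rfl, h3, w4, [], by simp, hI r hr w4 h4, rfl⟩
  obtain ⟨w1, w2, rfl, h1, h2⟩ := key _ _ hw w ((sem_term I w w).2 rfl)
  have : w2 = [] := h2
  rw [this, List.append_nil]
  exact h1

theorem derives_append {g : ContextFreeGrammar S} {u u' v v' : List (Symbol S g.NT)}
    (h1 : g.Derives u u') (h2 : g.Derives v v') : g.Derives (u ++ v) (u' ++ v') :=
  (h1.append_right v).trans (h2.append_left u')

end general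

/-- an instruction: from state `src` and value `x` with `x + 1 = q t + r`, go to the state `tgt`
with the value `m t + e` -/
structure Ins (P : Type) where
  src : P
  q : ℕ
  r : ℕ
  m : ℕ
  e : ℕ
  tgt : Option P

/-- acceptance for the arithmetic machine; values increase by at least two -/
inductive Acc {P : Type} (R : List (Ins P)) : Option P → ℕ → Prop
  | stop (x : ℕ) : Acc R none x
  | step (ρ : Ins P) (hρ : ρ ∈ R) (x t : ℕ) (h1 : x + 1 = ρ.q * t + ρ.r)
      (h2 : x + 2 ≤ ρ.m * t + ρ.e) (h3 : Acc R ρ.tgt (ρ.m * t + ρ.e)) : Acc R (some ρ.src) x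

/-- nonterminals -/
inductive NT (P : Type) : Type
  | Z : NT P
  | J : NT P
  | B : NT P
  | Q (o : Option P) : NT P
  | M (q m : ℕ) : NT P

instance {P : Type} [Countable P] : Countable (NT P) := by
  refine Function.Injective.countable (f := fun x : NT P => match x with
    | .Z => (Sum.inl 0 : ℕ ⊕ Option P ⊕ ℕ × ℕ)
    | .J => Sum.inl 1
    | .B => Sum.inl 2
    | .Q o => Sum.inr (Sum.inl o)
    | .M q m => Sum.inr (Sum.inr (q, m))) ?_
  intro x y h
  cases x <;> cases y <;> simp_all

section gram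
variable {P : Type} (enc : NT P → ℕ) (R : List (Ins P))

/-- a power of the letter `2` -/
def pw (n : ℕ) : List (Fin 4 ⊕ ℕ) := List.replicate n (Sum.inl 2)

/-- rules of one instruction -/
def insRules (ρ : Ins P) : List (ℕ × List (Fin 4 ⊕ ℕ)) :=
  [(enc (.Q (some ρ.src)), pw ρ.r ++ [Sum.inr (enc (.M ρ.q ρ.m))] ++ pw ρ.e ++
      [Sum.inl 3, Sum.inr (enc (.Q ρ.tgt))]),
   (enc (.M ρ.q ρ.m), pw ρ.q ++ [Sum.inr (enc (.M ρ.q ρ.m))] ++ pw ρ.m),
   (enc (.M ρ.q ρ.m), [Sum.inl 3, Sum.inr (enc .J)])]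

/-- the rules that do not depend on the input -/
def fixedRules : List (ℕ × List (Fin 4 ⊕ ℕ)) :=
  [(enc (.Q none), []), (enc .J, []), (enc .J, [Sum.inr (enc .B), Sum.inr (enc .J)]),
   (enc .B, [Sum.inl 3]), (enc .B, [Sum.inl 2, Sum.inr (enc .B)])] ++ R.flatMap (insRules enc)

/-- the grammar for the initial state `p` and the initial value `x` -/
def code (p : P) (x : ℕ) : ℕ × List (ℕ × List (Fin 4 ⊕ ℕ)) :=
  (enc .Z, (enc .Z, [Sum.inl 3] ++ pw x ++ [Sum.inl 3, Sum.inr (enc (.Q (some p)))]) ::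
    fixedRules enc R)

/-- the meaning of the nonterminals -/
def mean (p : P) (x : ℕ) : NT P → List (Fin 4) → Prop
  | .Z, w => ∃ l, w = 3 :: blks (x :: l) ∧ (Consec x l → Acc R (some p) x)
  | .J, w => ∃ l, w = blks l
  | .B, w => ∃ i, w = blk i
  | .Q o, w => ∃ l, w = blks l ∧ ∀ y, Consec y l → Acc R o y
  | .M q m, w => ∃ t l, w = List.replicate (q * t) 2 ++ 3 :: blks l ++ List.replicate (m * t) 2

theorem pw_map (n : ℕ) : (pw n).map toSymbol =
    (List.replicate n (2 : Fin 4)).map (Symbol.terminal : Fin 4 → Symbol (Fin 4) ℕ) := by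
  simp [pw, toSymbol]

theorem mem_rules (c : ℕ × List (ℕ × List (Fin 4 ⊕ ℕ))) (r : ContextFreeRule (Fin 4) ℕ) :
    r ∈ (toGrammar c).rules ↔ ∃ s ∈ c.2, r = ⟨s.1, s.2.map toSymbol⟩ := by
  have : r ∈ (toGrammar c).rules ↔ r ∈ (c.2.map fun r =>
      (⟨r.1, r.2.map toSymbol⟩ : ContextFreeRule (Fin 4) ℕ)) := List.mem_toFinset
  rw [this, List.mem_map]
  constructor
  · rintro ⟨s, hs, rfl⟩
    exact ⟨s, hs, rfl⟩
  · rintro ⟨s, hs, rfl⟩
    exact ⟨s, hs, rfl⟩

theorem code_sound (c : ℕ × List (ℕ × List (Fin 4 ⊕ ℕ))) (I : ℕ → List (Fin 4) → Prop)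
    (hI : ∀ s ∈ c.2, ∀ w, Sem I (s.2.map toSymbol) w → I s.1 w) (w : List (Fin 4))
    (hw : w ∈ (toGrammar c).language) : I c.1 w := by
  apply sem_sound (toGrammar c) I _ w hw
  intro r hr w hw
  obtain ⟨s, hs, rfl⟩ := (mem_rules _ r).1 hr
  exact hI s hs w hw

/-- derivations, with the type of nonterminals made explicit -/
def Der (c : ℕ × List (ℕ × List (Fin 4 ⊕ ℕ))) (u v : List (Symbol (Fin 4) ℕ)) : Prop :=
  (toGrammar c).Derives u v

theorem Der.trans {c : ℕ × List (ℕ × List (Fin 4 ⊕ ℕ))} {u v w : List (Symbol (Fin 4) ℕ)}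
    (h1 : Der c u v) (h2 : Der c v w) : Der c u w :=
  ContextFreeGrammar.Derives.trans h1 h2

theorem Der.append_left {c : ℕ × List (ℕ × List (Fin 4 ⊕ ℕ))} {u v : List (Symbol (Fin 4) ℕ)}
    (h1 : Der c u v) (w : List (Symbol (Fin 4) ℕ)) : Der c (w ++ u) (w ++ v) :=
  ContextFreeGrammar.Derives.append_left h1 w

theorem Der.append_right {c : ℕ × List (ℕ × List (Fin 4 ⊕ ℕ))} {u v : List (Symbol (Fin 4) ℕ)}
    (h1 : Der c u v) (w : List (Symbol (Fin 4) ℕ)) : Der c (u ++ w) (v ++ w) :=
  ContextFreeGrammar.Derives.append_right h1 w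

theorem Der.append {c : ℕ × List (ℕ × List (Fin 4 ⊕ ℕ))} {u u' v v' : List (Symbol (Fin 4) ℕ)}
    (h1 : Der c u u') (h2 : Der c v v') : Der c (u ++ v) (u' ++ v') :=
  (h1.append_right v).trans (h2.append_left u')

theorem sound (hinj : Function.Injective enc) (p : P) (x : ℕ) (w : List (Fin 4))
    (hw : w ∈ (toGrammar (code enc R p x)).language) :
    ∃ l, w = 3 :: blks (x :: l) ∧ (Consec x l → Acc R (some p) x) := by
  let I : ℕ → List (Fin 4) → Prop := fun n w => ∃ A, enc A = n ∧ mean R p x A w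
  have hI : ∀ A w, I (enc A) w ↔ mean R p x A w := by
    intro A w
    constructor
    · rintro ⟨A', h1, h2⟩
      rw [← hinj h1]
      exact h2
    · intro h
      exact ⟨A, rfl, h⟩
  have h := code_sound (code enc R p x) I ?_ w hw
  · exact (hI .Z w).1 h
  intro s hs w hw
  simp only [code, fixedRules, List.mem_cons, List.mem_append, List.mem_flatMap, insRules,
    List.not_mem_nil, or_false] at hs
  rcases hs with rfl | (rfl | rfl | rfl | rfl | rfl) | ⟨ρ, hρ, rfl | rfl | rfl⟩
  · apply (hI .Z w).2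
    simp only [List.map_append, pw_map, sem_append, sem_term, List.map_cons, List.map_nil,
      toSymbol, Sem] at hw
    obtain ⟨_, _, rfl, ⟨_, _, rfl, ⟨_, rfl, rfl⟩, rfl⟩, _, rfl, w1, _, rfl, h1, rfl⟩ := hw
    obtain ⟨l, rfl, hl⟩ := (hI _ _).1 h1
    exact ⟨l, by simp [blks_cons, blk], hl x⟩
  · apply (hI (.Q none) w).2
    have : w = [] := hw
    exact ⟨[], this, fun y _ => Acc.stop y⟩
  · apply (hI .J w).2
    have : w = [] := hw
    exact ⟨[], this⟩
  · apply (hI .J w).2
    simp only [List.map_cons, List.map_nil, toSymbol, Sem] at hw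
    obtain ⟨w1, _, rfl, h1, w2, _, rfl, h2, rfl⟩ := hw
    obtain ⟨i, rfl⟩ := (hI _ _).1 h1
    obtain ⟨l, rfl⟩ := (hI _ _).1 h2
    exact ⟨i :: l, by simp [blks_cons]⟩
  · apply (hI .B w).2
    simp only [List.map_cons, List.map_nil, toSymbol, Sem] at hw
    obtain ⟨_, rfl, rfl⟩ := hw
    exact ⟨0, rfl⟩
  · apply (hI .B w).2
    simp only [List.map_cons, List.map_nil, toSymbol, Sem] at hw
    obtain ⟨_, rfl, w1, _, rfl, h1, rfl⟩ := hw
    obtain ⟨i, rfl⟩ := (hI _ _).1 h1
    exact ⟨i + 1, by simp [blk, List.replicate_succ]⟩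
  · apply (hI (.Q (some ρ.src)) w).2
    simp only [List.map_append, pw_map, sem_append, sem_term, List.map_cons, List.map_nil,
      toSymbol, Sem] at hw
    obtain ⟨_, _, rfl, ⟨_, _, rfl, ⟨_, _, rfl, rfl, w1, _, rfl, h1, rfl⟩, rfl⟩, _, rfl, w2, _,
      rfl, h2, rfl⟩ := hw
    obtain ⟨t, l1, rfl⟩ := (hI _ _).1 h1
    obtain ⟨l2, rfl, hl⟩ := (hI _ _).1 h2
    refine ⟨(ρ.r + ρ.q * t) :: (l1 ++ (ρ.m * t + ρ.e) :: l2), ?_, ?_⟩
    · simp only [blks_cons, blks_append, blk, List.replicate_add, List.append_assoc,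
        List.cons_append, List.nil_append, List.append_nil]
    · rintro y ⟨h3, h4⟩
      rw [consec_append] at h4
      exact Acc.step ρ hρ y t (by omega) (by omega) (hl _ h4.2.2)
  · apply (hI (.M ρ.q ρ.m) w).2
    simp only [List.map_append, pw_map, sem_append, sem_term, List.map_cons, List.map_nil,
      toSymbol, Sem] at hw
    obtain ⟨_, _, rfl, ⟨_, _, rfl, rfl, w1, _, rfl, h1, rfl⟩, rfl⟩ := hw
    obtain ⟨t, l1, rfl⟩ := (hI _ _).1 h1
    refine ⟨t + 1, l1, ?_⟩
    rw [mul_add, mul_add, mul_one, mul_one, add_comm (ρ.q * t), List.replicate_add,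
      List.replicate_add]
    simp only [List.append_assoc, List.cons_append, List.append_nil]
  · apply (hI (.M ρ.q ρ.m) w).2
    simp only [List.map_cons, List.map_nil, toSymbol, Sem] at hw
    obtain ⟨_, rfl, w1, _, rfl, h1, rfl⟩ := hw
    obtain ⟨l, rfl⟩ := (hI _ _).1 h1
    exact ⟨0, l, by simp⟩

theorem rule_derives (c : ℕ × List (ℕ × List (Fin 4 ⊕ ℕ))) (s : ℕ × List (Fin 4 ⊕ ℕ))
    (hs : s ∈ c.2) :
    Der c [Symbol.nonterminal s.1] (s.2.map toSymbol) := by
  apply ContextFreeGrammar.Produces.single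
  exact ⟨⟨s.1, s.2.map toSymbol⟩, (mem_rules c _).2 ⟨s, hs, rfl⟩,
    ContextFreeRule.Rewrites.input_output⟩

theorem der_B (p : P) (x i : ℕ) : Der (code enc R p x)
    [Symbol.nonterminal (enc .B)] ((blk i).map Symbol.terminal) := by
  induction i with
  | zero => exact rule_derives (code enc R p x) (enc .B, [Sum.inl 3]) (by simp [code, fixedRules])
  | succ i ih =>
    have h1 := rule_derives (code enc R p x) (enc .B, [Sum.inl 2, Sum.inr (enc .B)])
      (by simp [code, fixedRules])
    refine h1.trans ?_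
    have := ih.append_left [Symbol.terminal 2]
    simpa [blk, List.replicate_succ, toSymbol] using this

theorem der_J (p : P) (x : ℕ) (l : List ℕ) : Der (code enc R p x)
    [Symbol.nonterminal (enc .J)] ((blks l).map Symbol.terminal) := by
  induction l with
  | nil => exact rule_derives (code enc R p x) (enc .J, []) (by simp [code, fixedRules])
  | cons i l ih =>
    have h1 := rule_derives (code enc R p x) (enc .J, [Sum.inr (enc .B), Sum.inr (enc .J)])
      (by simp [code, fixedRules])
    refine h1.trans ?_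
    rw [blks_cons, List.map_append]
    exact Der.append (der_B enc R p x i) ih

theorem der_M (p : P) (x : ℕ) (ρ : Ins P) (hρ : ρ ∈ R) (l : List ℕ) (t : ℕ) :
    Der (code enc R p x) [Symbol.nonterminal (enc (.M ρ.q ρ.m))]
      ((List.replicate (ρ.q * t) 2 ++ 3 :: blks l ++ List.replicate (ρ.m * t) 2).map
        Symbol.terminal) := by
  induction t with
  | zero =>
    have h1 := rule_derives (code enc R p x) (enc (.M ρ.q ρ.m), [Sum.inl 3, Sum.inr (enc .J)])
      (by
        simp only [code, fixedRules, List.mem_cons, List.mem_append, List.mem_flatMap]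
        exact Or.inr (Or.inr ⟨ρ, hρ, by simp [insRules]⟩))
    refine h1.trans ?_
    have := (der_J enc R p x l).append_left [Symbol.terminal 3]
    simpa [toSymbol] using this
  | succ t ih =>
    have h1 := rule_derives (code enc R p x)
      (enc (.M ρ.q ρ.m), pw ρ.q ++ [Sum.inr (enc (.M ρ.q ρ.m))] ++ pw ρ.m)
      (by
        simp only [code, fixedRules, List.mem_cons, List.mem_append, List.mem_flatMap]
        exact Or.inr (Or.inr ⟨ρ, hρ, by simp [insRules]⟩))
    refine h1.trans ?_
    have := (ih.append_left ((List.replicate ρ.q 2).map Symbol.terminal)).append_right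
      ((List.replicate ρ.m 2).map Symbol.terminal)
    rw [mul_add, mul_add, mul_one, mul_one, add_comm (ρ.q * t), List.replicate_add,
      List.replicate_add]
    simp only [List.map_append, pw_map, List.map_cons, List.map_nil, toSymbol,
      List.append_assoc] at this ⊢
    exact this

theorem der_Q (p : P) (x : ℕ) (o : Option P) (y : ℕ) (h : Acc R o y) :
    ∃ l, Consec y l ∧ Der (code enc R p x) [Symbol.nonterminal (enc (.Q o))]
      ((blks l).map Symbol.terminal) := by
  induction h with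
  | stop y =>
    exact ⟨[], trivial,
      rule_derives (code enc R p x) (enc (.Q none), []) (by simp [code, fixedRules])⟩
  | step ρ hρ y t h1 h2 _ ih =>
    obtain ⟨l, hl, hd⟩ := ih
    obtain ⟨k, hk⟩ : ∃ k, ρ.m * t + ρ.e = y + 2 + k := ⟨ρ.m * t + ρ.e - (y + 2), by omega⟩
    refine ⟨(ρ.r + ρ.q * t) :: (List.range' (y + 2) k ++ (ρ.m * t + ρ.e) :: l), ?_, ?_⟩
    · refine ⟨by omega, ?_⟩
      rw [consec_append, show ρ.r + ρ.q * t = y + 1 by omega]
      exact ⟨consec_range' (y + 1) k, by simp; omega, hl⟩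
    · have h3 := rule_derives (code enc R p x)
        (enc (.Q (some ρ.src)), pw ρ.r ++ [Sum.inr (enc (.M ρ.q ρ.m))] ++ pw ρ.e ++
          [Sum.inl 3, Sum.inr (enc (.Q ρ.tgt))])
        (by
          simp only [code, fixedRules, List.mem_cons, List.mem_append, List.mem_flatMap]
          exact Or.inr (Or.inr ⟨ρ, hρ, by simp [insRules]⟩))
      refine h3.trans ?_
      have h4 := Der.append (((der_M enc R p x ρ hρ (List.range' (y + 2) k) t).append_left
        ((List.replicate ρ.r 2).map Symbol.terminal)).append_right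
        ((List.replicate ρ.e 2).map Symbol.terminal)) (hd.append_left [Symbol.terminal 3])
      simp only [blks_cons, blks_append, blk, List.replicate_add, List.map_append, pw_map,
        List.map_cons, List.map_nil, toSymbol, List.append_assoc, List.cons_append,
        List.nil_append] at h4 ⊢
      exact h4

theorem complete (p : P) (x : ℕ) (h : Acc R (some p) x) :
    ∃ l, Consec x l ∧ 3 :: blks (x :: l) ∈ (toGrammar (code enc R p x)).language := by
  obtain ⟨l, hl, hd⟩ := der_Q enc R p x _ _ h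
  refine ⟨l, hl, ?_⟩
  change Der (code enc R p x) [Symbol.nonterminal (enc .Z)]
    ((3 :: blks (x :: l)).map Symbol.terminal)
  have h3 := rule_derives (code enc R p x)
    (enc .Z, [Sum.inl 3] ++ pw x ++ [Sum.inl 3, Sum.inr (enc (.Q (some p)))]) (by simp [code])
  refine h3.trans ?_
  have h4 := hd.append_left
    ([Symbol.terminal 3] ++ (List.replicate x 2).map Symbol.terminal ++ [Symbol.terminal 3])
  simp only [blks_cons, blk, List.map_append, pw_map,
    List.map_cons, List.map_nil, toSymbol, List.append_assoc, List.cons_append,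
    List.nil_append] at h4 ⊢
  exact h4

theorem meets_iff (hinj : Function.Injective enc) (p : P) (x : ℕ) (hx : 1 ≤ x) :
    (∃ w, w ∈ (toGrammar (code enc R p x)).language ∧ w ∈ lang (subshift tau)) ↔
      Acc R (some p) x := by
  constructor
  · rintro ⟨w, h1, h2⟩
    obtain ⟨l, rfl, hl⟩ := sound enc R hinj p x w h1
    exact hl (consec_of_lang h2)
  · intro h
    obtain ⟨l, hl, hd⟩ := complete enc R p x h
    exact ⟨_, hd, lang_of_consec hx hl⟩

theorem pw_primrec : Primrec pw := by
  have : Primrec (fun n : ℕ => (List.range n).map (fun _ => (Sum.inl 2 : Fin 4 ⊕ ℕ))) :=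
    Primrec.list_map Primrec.list_range (Primrec.const _).to₂
  refine this.of_eq ?_
  intro n
  simp [pw]

theorem code_primrec (p : P) : Primrec (code enc R p) := by
  unfold code
  refine Primrec.pair (Primrec.const _) ?_
  refine Primrec.list_cons.comp (Primrec.pair (Primrec.const _) ?_) (Primrec.const _)
  exact Primrec.list_append.comp (Primrec.list_append.comp (Primrec.const _) pw_primrec)
    (Primrec.const _)

end gram

end Pool.Agent.H323Z.CF
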