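import Mathlib
import Pool.Agent.H323Z.CFGram
import Pool.Agent.Helper948.Erode.Reg

set_option autoImplicit false

/-! Simulation of a register machine by the increasing arithmetic machine. -/

namespace Pool.Agent.H323Z.CF

open Pool.Agent.Helper948.Erode

/-- the primes of the four registers -/
def pr : Bool × Bool → ℕ
  | (false, true) => 3
  | (false, false) => 5
  | (true, true) => 7
  | (true, false) => 11

/-- the number of a register file -/
def gn (c : Bool × Bool → ℤ) : ℕ :=
  3 ^ (c (false, true)).toNat * 5 ^ (c (false, false)).toNat * 7 ^ (c (true, true)).toNat *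
    11 ^ (c (true, false)).toNat

theorem gn_pos (c : Bool × Bool → ℤ) : 0 < gn c := by
  unfold gn
  positivity

theorem gn_add (c v : Bool × Bool → ℤ) (hc : ∀ j, 0 ≤ c j) (hv : ∀ j, 0 ≤ v j) :
    gn (c + v) = gn c * gn v := by
  unfold gn
  simp only [Pi.add_apply]
  rw [Int.toNat_add (hc _) (hv _), Int.toNat_add (hc _) (hv _), Int.toNat_add (hc _) (hv _),
    Int.toNat_add (hc _) (hv _)]
  ring

theorem pr_le (j : Bool × Bool) : 3 ≤ pr j ∧ pr j ≤ 11 := by
  obtain ⟨a, b⟩ := j
  cases a <;> cases b <;> simp [pr]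

theorem gn_single (j : Bool × Bool) : gn (Pi.single j 1) = pr j := by
  obtain ⟨a, b⟩ := j
  cases a <;> cases b <;> simp [gn, pr]

theorem gn_neg (v : Bool × Bool → ℤ) (j : Bool × Bool) (h : v j = -1) :
    gn (v + Pi.single j 1) = gn v := by
  obtain ⟨a, b⟩ := j
  cases a <;> cases b <;> simp [gn, h]

theorem gn_dec (c : Bool × Bool → ℤ) (hc : ∀ j, 0 ≤ c j) (j : Bool × Bool) (h : 0 < c j) :
    (∀ i, 0 ≤ (c - Pi.single j 1 : Bool × Bool → ℤ) i) ∧
      gn c = pr j * gn (c - Pi.single j 1) := by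
  have h1 : ∀ i, 0 ≤ (c - Pi.single j 1 : Bool × Bool → ℤ) i := by
    intro i
    by_cases hi : i = j
    · subst hi
      simp
      omega
    · simp [Pi.single_eq_of_ne hi, hc i]
  refine ⟨h1, ?_⟩
  have h2 : ∀ i, 0 ≤ (Pi.single j 1 : Bool × Bool → ℤ) i := by
    intro i
    by_cases hi : i = j
    · subst hi
      simp
    · simp [Pi.single_eq_of_ne hi]
  rw [← gn_single, mul_comm, ← gn_add _ _ h1 h2, sub_add_cancel]

theorem not_dvd (c : Bool × Bool → ℤ) (j : Bool × Bool) (h : ¬ 0 < c j) (k : ℕ) :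
    ¬ pr j ∣ 2 ^ k * gn c := by
  have h0 : (c j).toNat = 0 := by omega
  obtain ⟨a, b⟩ := j
  have aux : ∀ p q n : ℕ, p.Prime → ¬ p ∣ q → ¬ p ∣ q ^ n :=
    fun p q n hp hq h => hq (hp.dvd_of_dvd_pow h)
  cases a <;> cases b
  · have hp : Nat.Prime 5 := by norm_num
    simp only [pr, gn, h0, hp.dvd_mul, not_or]
    refine ⟨aux _ _ _ hp (by norm_num), ⟨⟨aux _ _ _ hp (by norm_num), by norm_num⟩,
      aux _ _ _ hp (by norm_num)⟩, aux _ _ _ hp (by norm_num)⟩
  · have hp : Nat.Prime 3 := by norm_num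
    simp only [pr, gn, h0, hp.dvd_mul, not_or]
    refine ⟨aux _ _ _ hp (by norm_num), ⟨⟨by norm_num, aux _ _ _ hp (by norm_num)⟩,
      aux _ _ _ hp (by norm_num)⟩, aux _ _ _ hp (by norm_num)⟩
  · have hp : Nat.Prime 11 := by norm_num
    simp only [pr, gn, h0, hp.dvd_mul, not_or]
    refine ⟨aux _ _ _ hp (by norm_num), ⟨⟨aux _ _ _ hp (by norm_num),
      aux _ _ _ hp (by norm_num)⟩, aux _ _ _ hp (by norm_num)⟩, by norm_num⟩
  · have hp : Nat.Prime 7 := by norm_num
    simp only [pr, gn, h0, hp.dvd_mul, not_or]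
    refine ⟨aux _ _ _ hp (by norm_num), ⟨⟨aux _ _ _ hp (by norm_num),
      aux _ _ _ hp (by norm_num)⟩, by norm_num⟩, aux _ _ _ hp (by norm_num)⟩

section sim
variable {P : Type} (M : DM P (Bool × Bool))

/-- the instruction for a positive register -/
def insT (p : P) : Ins P := ⟨p, pr (M.reg p), 1, 32 * gn (M.vec p true), 0, M.nxt p true⟩

/-- the instructions for an empty register -/
def insF (p : P) (s : ℕ) : Ins P :=
  ⟨p, pr (M.reg p), s + 2, 4 * gn (M.vec p false) * pr (M.reg p),
    4 * gn (M.vec p false) * (s + 1), M.nxt p false⟩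

/-- the program -/
def prog (L : List P) : List (Ins P) :=
  L.flatMap fun p => insT M p :: (List.range (pr (M.reg p) - 1)).map (insF M p)

/-- the value encodes the registers -/
def Enc (x : ℕ) (c : Bool × Bool → ℤ) : Prop := (∀ j, 0 ≤ c j) ∧ ∃ k, x = 2 ^ k * gn c

theorem enc_true (p : P) (c : Bool × Bool → ℤ) (t : ℕ) (h : Enc (pr (M.reg p) * t) c) :
    0 < c (M.reg p) ∧ 1 ≤ t ∧ Enc (32 * gn (M.vec p true) * t) (c + M.vec p true) := by
  obtain ⟨hc, k, hk⟩ := h
  have hpos : 0 < c (M.reg p) := by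
    by_contra h
    exact not_dvd c _ h k ⟨t, hk.symm⟩
  obtain ⟨h1, h2⟩ := gn_dec c hc _ hpos
  have hp := (pr_le (M.reg p)).1
  have ht : t = 2 ^ k * gn (c - Pi.single (M.reg p) 1) := by
    apply Nat.eq_of_mul_eq_mul_left (show 0 < pr (M.reg p) by omega)
    rw [hk, h2]
    ring
  have h3 : ∀ i, 0 ≤ (M.vec p true + Pi.single (M.reg p) 1 : Bool × Bool → ℤ) i := by
    intro i
    by_cases hi : i = M.reg p
    · subst hi
      simp [M.hp']
    · simp [Pi.single_eq_of_ne hi, M.hp p i hi]
  have e : c + M.vec p true =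
      (c - Pi.single (M.reg p) 1) + (M.vec p true + Pi.single (M.reg p) 1) := by abel
  refine ⟨hpos, ?_, ?_, k + 5, ?_⟩
  · rw [ht]
    exact Nat.mul_pos (by positivity) (gn_pos _)
  · intro j
    rw [e]
    exact add_nonneg (h1 j) (h3 j)
  · rw [e, gn_add _ _ h1 h3, gn_neg _ _ (M.hp' p), ht]
    ring

theorem enc_false (p : P) (c : Bool × Bool → ℤ) (x : ℕ) (h : Enc x c) :
    Enc (4 * gn (M.vec p false) * x) (c + M.vec p false) := by
  obtain ⟨hc, k, hk⟩ := h
  refine ⟨fun j => add_nonneg (hc j) (M.hz p j), k + 2, ?_⟩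
  rw [gn_add _ _ hc (M.hz p), hk]
  ring

theorem enc_dvd (x : ℕ) (c : Bool × Bool → ℤ) (h : Enc x c) (j : Bool × Bool) (hj : 0 < c j) :
    pr j ∣ x := by
  obtain ⟨hc, k, hk⟩ := h
  rw [hk, (gn_dec c hc j hj).2]
  exact Dvd.intro (2 ^ k * gn (c - Pi.single j 1)) (by ring)

theorem halts_of_acc (L : List P) (o : Option P) (x : ℕ) (h : Acc (prog M L) o x) :
    ∀ c, Enc x c → M.Halts (o, c) := by
  induction h with
  | stop x => exact fun c _ => ⟨0, rfl⟩
  | step ρ hρ x t h1 h2 _ ih =>
    intro c hc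
    rw [← DM.halts_st]
    simp only [prog, List.mem_flatMap, List.mem_cons, List.mem_map, List.mem_range] at hρ
    obtain ⟨p, _, rfl | ⟨s, hs, rfl⟩⟩ := hρ
    · simp only [insT] at h1 h2 ih ⊢
      have hx : x = pr (M.reg p) * t := by omega
      subst hx
      obtain ⟨h3, _, h5⟩ := enc_true M p c t hc
      have e : M.br p c = true := by simp [DM.br, h3]
      simp only [DM.st, e]
      exact ih _ (by simpa using h5)
    · simp only [insF] at h1 h2 ih ⊢
      have hx : x = pr (M.reg p) * t + (s + 1) := by omega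
      have h3 : ¬ 0 < c (M.reg p) := by
        intro h
        have h4 := enc_dvd x c hc _ h
        rw [hx] at h4
        have h5 := (Nat.dvd_add_right (Dvd.intro t rfl)).1 h4
        have := Nat.le_of_dvd (by omega) h5
        omega
      have e : M.br p c = false := by simp [DM.br, h3]
      simp only [DM.st, e]
      apply ih
      have := enc_false M p c x hc
      rw [hx] at this
      convert this using 1
      ring

theorem acc_of_halts (L : List P) (hL : ∀ p, p ∈ L) (k : ℕ) :
    ∀ (o : Option P) (c : Bool × Bool → ℤ) (x : ℕ), Enc x c → (M.st^[k] (o, c)).1 = none →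
      Acc (prog M L) o x := by
  induction k with
  | zero =>
    intro o c x _ h
    obtain rfl : o = none := h
    exact Acc.stop x
  | succ k ih =>
    intro o c x hc h
    rcases o with _ | p
    · exact Acc.stop x
    rw [Function.iterate_succ_apply] at h
    have hp := pr_le (M.reg p)
    by_cases h3 : 0 < c (M.reg p)
    · have e : M.br p c = true := by simp [DM.br, h3]
      simp only [DM.st, e] at h
      obtain ⟨t, rfl⟩ := enc_dvd x c hc _ h3
      obtain ⟨_, h4, h5⟩ := enc_true M p c t hc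
      have hm : insT M p ∈ prog M L := by
        simp only [prog, List.mem_flatMap, List.mem_cons]
        exact ⟨p, hL p, Or.inl rfl⟩
      have hg := gn_pos (M.vec p true)
      refine Acc.step (insT M p) hm _ t rfl ?_ ?_
      · simp only [insT]
        nlinarith [Nat.mul_le_mul_right t hp.2, Nat.mul_le_mul_right t hg]
      · exact ih _ _ _ (by simpa [insT] using h5) h
    · have e : M.br p c = false := by simp [DM.br, h3]
      simp only [DM.st, e] at h
      have hnd : ¬ pr (M.reg p) ∣ x := by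
        obtain ⟨_, k, hk⟩ := hc
        rw [hk]
        exact not_dvd c _ h3 k
      have hr : x % pr (M.reg p) ≠ 0 := fun h => hnd (Nat.dvd_of_mod_eq_zero h)
      have hr2 : x % pr (M.reg p) < pr (M.reg p) := Nat.mod_lt _ (by omega)
      obtain ⟨s, hs⟩ : ∃ s, x % pr (M.reg p) = s + 1 := ⟨x % pr (M.reg p) - 1, by omega⟩
      have hx : x = pr (M.reg p) * (x / pr (M.reg p)) + (s + 1) := by
        rw [← hs, Nat.div_add_mod]
      have hm : insF M p s ∈ prog M L := by
        simp only [prog, List.mem_flatMap, List.mem_cons, List.mem_map, List.mem_range]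
        exact ⟨p, hL p, Or.inr ⟨s, by omega, rfl⟩⟩
      have hg := gn_pos (M.vec p false)
      have hv : (insF M p s).m * (x / pr (M.reg p)) + (insF M p s).e =
          4 * gn (M.vec p false) * x := by
        simp only [insF]
        nth_rewrite 2 [hx]
        ring
      refine Acc.step (insF M p s) hm _ (x / pr (M.reg p)) ?_ ?_ ?_
      · simp only [insF]
        omega
      · rw [hv]
        have : 1 ≤ x := by omega
        nlinarith [Nat.mul_le_mul_right x hg]
      · rw [hv]
        exact ih _ _ _ (enc_false M p c x hc) h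

end sim

theorem main : ¬ ComputablePred (fun c : ℕ × List (ℕ × List (Fin 4 ⊕ ℕ)) =>
    ∃ w, w ∈ (toGrammar c).language ∧ w ∈ lang (subshift tau)) := by
  intro hc
  obtain ⟨Q, hQ, M, q0, N, _, hN, h⟩ := exists_sys
  apply h
  obtain ⟨enc, henc⟩ := exists_injective_nat (NT (RS M))
  have : Fintype (RS M) := Fintype.ofFinite _
  let L : List (RS M) := (Finset.univ : Finset (RS M)).toList
  have hL : ∀ p, p ∈ L := fun p => by simp [L]
  have hpow : Computable (fun n : ℕ => 3 ^ N n) := by
    have h1 : Primrec₂ ((· ^ ·) : ℕ → ℕ → ℕ) := Primrec₂.unpaired'.1 Nat.Primrec.pow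
    exact (h1.comp (Primrec.const 3) Primrec.id).to_comp.comp hN
  have hf : Computable (fun n : ℕ =>
      code enc (prog (dm M q0 0) L) (RS.d1 q0 (z0 M)) (3 ^ N n)) :=
    (code_primrec enc _ _).to_comp.comp hpow
  obtain ⟨inst, hc⟩ := hc
  have h2 := hc.comp hf
  have key : ∀ n, (∃ w, w ∈ (toGrammar
      (code enc (prog (dm M q0 0) L) (RS.d1 q0 (z0 M)) (3 ^ N n))).language ∧
        w ∈ lang (subshift tau)) ↔ M.Halts (some q0) (ini (N n)) := by
    intro n
    rw [meets_iff enc _ henc _ _ (Nat.one_le_pow _ _ (by norm_num)), ← dm_halts_iff M q0 0]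
    have he : Enc (3 ^ N n) (v4 (ini (N n) true) (ini (N n) false) 0 0) := by
      refine ⟨?_, 0, ?_⟩
      · rintro ⟨a, b⟩
        cases a <;> cases b <;> simp [v4]
      · simp [gn, v4, ini]
    constructor
    · intro h
      exact halts_of_acc _ L _ _ h _ he
    · rintro ⟨k, hk⟩
      exact acc_of_halts _ L hL k _ _ _ he hk
  classical
  refine ⟨inferInstance, h2.of_eq ?_⟩
  intro n
  simp only [key n]

end Pool.Agent.H323Z.CF
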