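import Mathlib

set_option autoImplicit false

/-! Orientation determinants, halving lines and sorted blocks. -/

namespace Pool.Agent.H323Z.Cross

open Finset

variable {ι : Type} (x y : ι → ℝ)

/-- orientation determinant -/
def D (p q r : ι) : ℝ := (x q - x p) * (y r - y p) - (y q - y p) * (x r - x p)

theorem D_rot (p q r : ι) : D x y p q r = D x y q r p := by unfold D; ring

theorem D_swap (p q r : ι) : D x y p r q = - D x y p q r := by unfold D; ring

theorem D_neg (p q r : ι) : D x (fun i => - y i) p q r = - D x y p q r := by unfold D; ring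

/-- sign condition for crossing segments -/
def CrossD (a b c d : ι) : Prop :=
  D x y a b c * D x y a b d < 0 ∧ D x y c d a * D x y c d b < 0

/-- sign condition for a point inside a triangle -/
def InD (a b c p : ι) : Prop :=
  0 < D x y a b p * D x y b c p ∧ 0 < D x y b c p * D x y c a p

theorem CrossD.symm {a b c d : ι} (h : CrossD x y a b c d) : CrossD x y c d a b := ⟨h.2, h.1⟩

theorem exists_median (X : Finset ι) (hX : X.Nonempty) :
    ∃ lo : ℝ → ℝ, Continuous lo ∧ ∀ s, (∃ a ∈ X, lo s = y a - s * x a) ∧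
      (∃ X1 ⊆ X, X.card ≤ 2 * X1.card ∧ ∀ a ∈ X1, y a - s * x a ≤ lo s) ∧
      (∃ X2 ⊆ X, X.card ≤ 2 * X2.card ∧ ∀ a ∈ X2, lo s ≤ y a - s * x a) := by
  classical
  let T : Finset {S : Finset ι // S.Nonempty} :=
    (X.powerset.filter (fun S => X.card ≤ 2 * S.card)).subtype _
  have hT : ∀ S : {S : Finset ι // S.Nonempty}, S ∈ T ↔ S.1 ⊆ X ∧ X.card ≤ 2 * S.1.card := by
    intro S
    simp [T]
  have hTne : T.Nonempty := ⟨⟨X, hX⟩, (hT _).2 ⟨Finset.Subset.refl _, by simp only; omega⟩⟩
  let g : {S : Finset ι // S.Nonempty} → ℝ → ℝ :=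
    fun S s => S.1.sup' S.2 (fun a => y a - s * x a)
  have hg : ∀ S, Continuous (g S) := by
    intro S
    have : Continuous (S.1.sup' S.2 (fun a => fun s : ℝ => y a - s * x a)) :=
      Continuous.finset_sup' S.2 (fun a _ => by fun_prop)
    refine this.congr ?_
    intro s
    simp [g, Finset.sup'_apply]
  refine ⟨fun s => T.inf' hTne (fun S => g S s), ?_, ?_⟩
  · have : Continuous (T.inf' hTne g) := Continuous.finset_inf' hTne (fun S _ => hg S)
    refine this.congr ?_
    intro s
    simp [Finset.inf'_apply]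
  · intro s
    obtain ⟨S, hS, hS2⟩ := Finset.exists_mem_eq_inf' hTne (fun S => g S s)
    obtain ⟨h1, h2⟩ := (hT S).1 hS
    refine ⟨?_, ⟨S.1, h1, h2, ?_⟩, ?_⟩
    · obtain ⟨a, ha, ha2⟩ := Finset.exists_mem_eq_sup' S.2 (fun a => y a - s * x a)
      exact ⟨a, h1 ha, hS2.trans ha2⟩
    · intro a ha
      exact (Finset.le_sup' (fun a => y a - s * x a) ha).trans hS2.ge
    · refine ⟨X.filter (fun a => T.inf' hTne (fun S => g S s) ≤ y a - s * x a),
        Finset.filter_subset _ _, ?_, fun a ha => (Finset.mem_filter.1 ha).2⟩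
      by_contra hlt
      have hc := Finset.card_filter_add_card_filter_not (s := X)
        (fun a => T.inf' hTne (fun S => g S s) ≤ y a - s * x a)
      set W := X.filter (fun a => ¬ T.inf' hTne (fun S => g S s) ≤ y a - s * x a) with hW
      have hWne : W.Nonempty := by
        rw [← Finset.card_pos]
        omega
      have hmem : (⟨W, hWne⟩ : {S : Finset ι // S.Nonempty}) ∈ T :=
        (hT _).2 ⟨Finset.filter_subset _ _, by simp only; omega⟩
      have h3 := Finset.inf'_le (fun S => g S s) hmem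
      obtain ⟨a, ha, ha2⟩ := Finset.exists_mem_eq_sup' hWne (fun a => y a - s * x a)
      have h4 := (Finset.mem_filter.1 ha).2
      apply h4
      refine h3.trans ?_
      exact le_of_eq ha2

/-- halving lemma for three sets separated by vertical lines -/
theorem halving (X Y Z : Finset ι) (hX : X.Nonempty) (hY : Y.Nonempty) (hZ : Z.Nonempty)
    (h1 : ∀ a ∈ X, ∀ b ∈ Y, x a < x b) (h2 : ∀ b ∈ Y, ∀ c ∈ Z, x b < x c) :
    ∃ X' ⊆ X, ∃ Y' ⊆ Y, ∃ Z' ⊆ Z, X.card ≤ 2 * X'.card ∧ Y.card ≤ 2 * Y'.card ∧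
      Z.card ≤ 2 * Z'.card ∧ ((∀ a ∈ X', ∀ b ∈ Y', ∀ c ∈ Z', D x y a b c ≤ 0) ∨
        (∀ a ∈ X', ∀ b ∈ Y', ∀ c ∈ Z', 0 ≤ D x y a b c)) := by
  classical
  obtain ⟨b0, hb0⟩ := hY
  have h3 : ∀ a ∈ X, ∀ c ∈ Z, x a < x c := fun a ha c hc => (h1 a ha b0 hb0).trans (h2 b0 hb0 c hc)
  obtain ⟨f, hf, hf2⟩ := exists_median x y X hX
  obtain ⟨g, hg, hg2⟩ := exists_median x y Z hZ
  obtain ⟨M, hM⟩ := ((X ×ˢ Z).image (fun p => (y p.2 - y p.1) / (x p.2 - x p.1))).bddAbove
  obtain ⟨m, hm⟩ := ((X ×ˢ Z).image (fun p => (y p.2 - y p.1) / (x p.2 - x p.1))).bddBelow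
  have hM' : 0 ≤ f M - g M := by
    obtain ⟨a, ha, e1⟩ := (hf2 M).1
    obtain ⟨c, hc, e2⟩ := (hg2 M).1
    have h4 : (y c - y a) / (x c - x a) ≤ M := by
      apply hM
      simp only [Finset.coe_image, Set.mem_image, Finset.mem_coe, Finset.mem_product]
      exact ⟨(a, c), ⟨ha, hc⟩, rfl⟩
    rw [div_le_iff₀ (sub_pos.2 (h3 a ha c hc))] at h4
    rw [e1, e2]
    linarith
  have hm' : f m - g m ≤ 0 := by
    obtain ⟨a, ha, e1⟩ := (hf2 m).1
    obtain ⟨c, hc, e2⟩ := (hg2 m).1
    have h4 : m ≤ (y c - y a) / (x c - x a) := by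
      apply hm
      simp only [Finset.coe_image, Set.mem_image, Finset.mem_coe, Finset.mem_product]
      exact ⟨(a, c), ⟨ha, hc⟩, rfl⟩
    rw [le_div_iff₀ (sub_pos.2 (h3 a ha c hc))] at h4
    rw [e1, e2]
    linarith
  obtain ⟨s, hs⟩ : ∃ s, f s - g s = 0 :=
    intermediate_value_univ m M (hf.sub hg) ⟨hm', hM'⟩
  obtain ⟨_, ⟨X1, a1, a2, a3⟩, ⟨X2, a4, a5, a6⟩⟩ := hf2 s
  obtain ⟨_, ⟨Z1, c1, c2, c3⟩, ⟨Z2, c4, c5, c6⟩⟩ := hg2 s
  have hid : ∀ a b c : ι, D x y a b c =
      (x b - x a) * ((y c - s * x c) - (y b - s * x b)) -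
        (x c - x b) * ((y b - s * x b) - (y a - s * x a)) := by
    intro a b c
    unfold D
    ring
  have hc := Finset.card_filter_add_card_filter_not (s := Y) (fun b => f s ≤ y b - s * x b)
  by_cases hcase : Y.card ≤ 2 * (Y.filter (fun b => f s ≤ y b - s * x b)).card
  · refine ⟨X1, a1, _, Finset.filter_subset _ _, Z1, c1, a2, hcase, c2, Or.inl ?_⟩
    intro a ha b hb c hc
    obtain ⟨hb1, hb2⟩ := Finset.mem_filter.1 hb
    have e1 := a3 a ha
    have e2 := c3 c hc
    have e3 := sub_pos.2 (h1 a (a1 ha) b hb1)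
    have e4 := sub_pos.2 (h2 b hb1 c (c1 hc))
    rw [hid]
    nlinarith [mul_nonneg e3.le (sub_nonneg.2 (show y c - s * x c ≤ y b - s * x b by linarith)),
      mul_nonneg e4.le (sub_nonneg.2 (show y a - s * x a ≤ y b - s * x b by linarith))]
  · refine ⟨X2, a4, Y.filter (fun b => ¬ f s ≤ y b - s * x b), Finset.filter_subset _ _, Z2, c4,
      a5, by omega, c5, Or.inr ?_⟩
    intro a ha b hb c hc
    obtain ⟨hb1, hb2⟩ := Finset.mem_filter.1 hb
    have e1 := a6 a ha
    have e2 := c6 c hc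
    have e3 := sub_pos.2 (h1 a (a4 ha) b hb1)
    have e4 := sub_pos.2 (h2 b hb1 c (c4 hc))
    rw [hid]
    rw [not_le] at hb2
    nlinarith [mul_nonneg e3.le (sub_nonneg.2 (show y b - s * x b ≤ y c - s * x c by linarith)),
      mul_nonneg e4.le (sub_nonneg.2 (show y b - s * x b ≤ y a - s * x a by linarith))]

/-- enumeration of a finite set in the order of an injective key -/
theorem exists_enum (Q : Finset ι) (hQ : Q.Nonempty) (k : ι → ℝ) (hk : Set.InjOn k Q) :
    ∃ e : ℕ → ι, (∀ i, i < Q.card → e i ∈ Q) ∧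
      ∀ i j, i < j → j < Q.card → k (e i) < k (e j) := by
  classical
  have : Nonempty ι := ⟨hQ.choose⟩
  have hc : (Q.image k).card = Q.card := Finset.card_image_of_injOn hk
  let o := (Q.image k).orderEmbOfFin hc
  have ho : ∀ i, ∃ a ∈ Q, k a = o i := by
    intro i
    have := Finset.orderEmbOfFin_mem (Q.image k) hc i
    exact Finset.mem_image.1 this
  choose e he1 he2 using ho
  refine ⟨fun i => if h : i < Q.card then e ⟨i, h⟩ else hQ.choose, ?_, ?_⟩
  · intro i hi
    simp only [dif_pos hi]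
    exact he1 _
  · intro i j hij hj
    simp only [dif_pos hj, dif_pos (hij.trans hj), he2]
    exact o.strictMono (by exact hij)

theorem block_card [DecidableEq ι] (e : ℕ → ι) (k : ι → ℝ) (n : ℕ)
    (he : ∀ i j, i < j → j < n → k (e i) < k (e j)) (a b : ℕ) (hb : b ≤ n) :
    ((Finset.Ico a b).image e).card = b - a := by
  rw [Finset.card_image_of_injOn, Nat.card_Ico]
  intro i hi j hj hij
  simp only [Finset.coe_Ico, Set.mem_Ico] at hi hj
  rcases lt_trichotomy i j with h | h | h
  · have := he i j h (by omega)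
    rw [hij] at this
    exact absurd this (lt_irrefl _)
  · exact h
  · have := he j i h (by omega)
    rw [hij] at this
    exact absurd this (lt_irrefl _)

theorem four_left {p q r s : ι} (h1 : x p < x q) (h2 : x q < x r) (h3 : x r < x s)
    (h4 : D x y p q r < 0) (h5 : D x y q r s < 0) : D x y p q s < 0 := by
  have e : (x r - x q) * D x y p q s =
      (x s - x q) * D x y p q r + (x q - x p) * D x y q r s := by
    unfold D
    ring
  have e2 : (x r - x q) * D x y p q s < 0 := by
    rw [e]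
    nlinarith [mul_pos (sub_pos.2 (h2.trans h3)) (neg_pos.2 h4),
      mul_pos (sub_pos.2 h1) (neg_pos.2 h5)]
  by_contra h
  rw [not_lt] at h
  exact absurd (mul_nonneg (sub_pos.2 h2).le h) (not_le.2 e2)

theorem four_right {p q r s : ι} (h1 : x p < x q) (h2 : x q < x r) (h3 : x r < x s)
    (h4 : D x y p q r < 0) (h5 : D x y q r s < 0) : D x y p r s < 0 := by
  have e : (x r - x q) * D x y p r s =
      (x r - x p) * D x y q r s + (x s - x r) * D x y p q r := by
    unfold D
    ring
  have e2 : (x r - x q) * D x y p r s < 0 := by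
    rw [e]
    nlinarith [mul_pos (sub_pos.2 (h1.trans h2)) (neg_pos.2 h5),
      mul_pos (sub_pos.2 h3) (neg_pos.2 h4)]
  by_contra h
  rw [not_lt] at h
  exact absurd (mul_nonneg (sub_pos.2 h2).le h) (not_le.2 e2)

theorem pos_of_mul {u v w : ℝ} (hu : 0 < u) (h : u * v = w) (hw : 0 < w) : 0 < v := by
  by_contra h2
  rw [not_lt] at h2
  have := mul_nonneg hu.le (neg_nonneg.2 h2)
  nlinarith

/-- `q` is below `p r` and above `a r` -/
theorem inside_one {a p q r : ι} (h1 : x a < x p) (h2 : x p < x q) (h3 : x q < x r)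
    (h4 : 0 < D x y p q r) (h5 : D x y a q r < 0) : InD x y a p r q := by
  have e : (x r - x q) * (- D x y a p q) =
      (x q - x a) * D x y p q r + (x q - x p) * (- D x y a q r) := by
    unfold D
    ring
  have h6 : 0 < - D x y a p q := pos_of_mul (sub_pos.2 h3) e (by
    have := mul_pos (sub_pos.2 (h1.trans h2)) h4
    have := mul_pos (sub_pos.2 h2) (neg_pos.2 h5)
    linarith)
  have h7 : D x y p r q = - D x y p q r := D_swap x y p q r
  have h8 : D x y r a q = D x y a q r := D_rot x y r a q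
  unfold InD
  rw [h7, h8]
  constructor <;> nlinarith

/-- `q` is below `a r` and above `a b` -/
theorem inside_two {a q r b : ι} (h1 : x a < x q) (h2 : x q < x r) (h3 : x r < x b)
    (h4 : 0 < D x y a q r) (h5 : D x y a q b < 0) : InD x y a r b q := by
  have e : (x q - x a) * (- D x y q r b) =
      (x b - x q) * D x y a q r + (x r - x q) * (- D x y a q b) := by
    unfold D
    ring
  have h6 : 0 < - D x y q r b := pos_of_mul (sub_pos.2 h1) e (by
    have := mul_pos (sub_pos.2 (h2.trans h3)) h4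
    have := mul_pos (sub_pos.2 h2) (neg_pos.2 h5)
    linarith)
  have h7 : D x y a r q = - D x y a q r := D_swap x y a q r
  have h8 : D x y r b q = D x y q r b := by rw [D_rot x y q r b]
  have h9 : D x y b a q = D x y a q b := D_rot x y b a q
  unfold InD
  rw [h7, h8, h9]
  constructor <;> nlinarith

end Pool.Agent.H323Z.Cross
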