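import Mathlib
import Pool.Agent.H323Z.CrossA

set_option autoImplicit false

/-! Cap bundles and crossing families. -/

namespace Pool.Agent.H323Z.Cross

open Finset

variable {ι : Type} (x y : ι → ℝ)

/-- no three points on a line -/
def GP (P : Finset ι) : Prop :=
  ∀ p ∈ P, ∀ q ∈ P, ∀ r ∈ P, p ≠ q → p ≠ r → q ≠ r → D x y p q r ≠ 0

/-- a non-crossing family of size at least `m` -/
def NC (P : Finset ι) (m : ℕ) : Prop :=
  ∃ P1 ⊆ P, ∃ P2 ⊆ P, ∃ P3 ⊆ P, ∃ P4 ⊆ P, Disjoint P1 P2 ∧ Disjoint P1 P3 ∧ Disjoint P1 P4 ∧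
    Disjoint P2 P3 ∧ Disjoint P2 P4 ∧ Disjoint P3 P4 ∧ m ≤ P1.card ∧ m ≤ P2.card ∧
    m ≤ P3.card ∧ m ≤ P4.card ∧
    ∀ a ∈ P1, ∀ b ∈ P2, ∀ c ∈ P3, ∀ p ∈ P4, InD x y a b c p

/-- a crossing family of size at least `k` -/
def CF (P : Finset ι) (k : ℕ) : Prop :=
  ∃ F : Finset (ι × ι), k ≤ F.card ∧ (∀ s ∈ F, s.1 ∈ P ∧ s.2 ∈ P ∧ s.1 ≠ s.2) ∧
    ∀ s ∈ F, ∀ t ∈ F, s ≠ t → CrossD x y s.1 s.2 t.1 t.2

theorem GP.sorted {P : Finset ι} (h : GP x y P) {p q r : ι} (hp : p ∈ P) (hq : q ∈ P)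
    (hr : r ∈ P) (h1 : x p < x q) (h2 : x q < x r) : D x y p q r ≠ 0 := by
  apply h p hp q hq r hr
  · rintro rfl
    exact lt_irrefl _ h1
  · rintro rfl
    exact lt_irrefl _ (h1.trans h2)
  · rintro rfl
    exact lt_irrefl _ h2

theorem disj_of_lt {X Y : Finset ι} (h : ∀ a ∈ X, ∀ b ∈ Y, x a < x b) : Disjoint X Y :=
  Finset.disjoint_left.2 fun a ha hb => lt_irrefl _ (h a ha a hb)

theorem no_cup {P A B Q : Finset ι} {m : ℕ} (hm : 0 < m) (hP : GP x y P) (hN : ¬ NC x y P m)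
    (hA : A ⊆ P) (hB : B ⊆ P) (hQ : Q ⊆ P) (cA : 2 * m ≤ A.card) (cB : m ≤ B.card)
    (hAQ : ∀ a ∈ A, ∀ q ∈ Q, x a < x q) (hQB : ∀ q ∈ Q, ∀ b ∈ B, x q < x b)
    (hcap : ∀ a ∈ A, ∀ q ∈ Q, ∀ b ∈ B, D x y a q b ≤ 0)
    {X Y Z : Finset ι} (hX : X ⊆ Q) (hY : Y ⊆ Q) (hZ : Z ⊆ Q) (cX : 2 * m ≤ X.card)
    (cY : 2 * m ≤ Y.card) (cZ : 2 * m ≤ Z.card)
    (hXY : ∀ a ∈ X, ∀ b ∈ Y, x a < x b) (hYZ : ∀ b ∈ Y, ∀ c ∈ Z, x b < x c)
    (hcup : ∀ a ∈ X, ∀ b ∈ Y, ∀ c ∈ Z, 0 ≤ D x y a b c) : False := by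
  obtain ⟨A', hA', Y', hY', Z', hZ', c1, c2, c3, h⟩ := halving x y A Y Z
    (Finset.card_pos.1 (by omega)) (Finset.card_pos.1 (by omega)) (Finset.card_pos.1 (by omega))
    (fun a ha b hb => hAQ a ha b (hY hb)) hYZ
  obtain ⟨y0, hy0⟩ : Y.Nonempty := Finset.card_pos.1 (by omega)
  apply hN
  rcases h with h | h
  · refine ⟨A', hA'.trans hA, X, hX.trans hQ, Z', hZ'.trans (hZ.trans hQ), Y',
      hY'.trans (hY.trans hQ), ?_, ?_, ?_, ?_, ?_, ?_, by omega, by omega, by omega, by omega, ?_⟩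
    · exact disj_of_lt x fun a ha b hb => hAQ a (hA' ha) b (hX hb)
    · exact disj_of_lt x fun a ha b hb => hAQ a (hA' ha) b (hZ (hZ' hb))
    · exact disj_of_lt x fun a ha b hb => hAQ a (hA' ha) b (hY (hY' hb))
    · exact disj_of_lt x fun a ha b hb => (hXY a ha y0 hy0).trans (hYZ y0 hy0 b (hZ' hb))
    · exact disj_of_lt x fun a ha b hb => hXY a ha b (hY' hb)
    · exact (disj_of_lt x fun a ha b hb => hYZ a (hY' ha) b (hZ' hb)).symm
    · intro a ha p hp r hr q hq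
      have l1 := hAQ a (hA' ha) p (hX hp)
      have l2 := hXY p hp q (hY' hq)
      have l3 := hYZ q (hY' hq) r (hZ' hr)
      apply inside_one x y l1 l2 l3
      · exact lt_of_le_of_ne (hcup p hp q (hY' hq) r (hZ' hr))
          (hP.sorted x y (hQ (hX hp)) (hQ (hY (hY' hq))) (hQ (hZ (hZ' hr))) l2 l3).symm
      · exact lt_of_le_of_ne (h a ha q hq r hr)
          (hP.sorted x y (hA (hA' ha)) (hQ (hY (hY' hq))) (hQ (hZ (hZ' hr))) (l1.trans l2) l3)
  · refine ⟨A', hA'.trans hA, Z', hZ'.trans (hZ.trans hQ), B, hB, Y',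
      hY'.trans (hY.trans hQ), ?_, ?_, ?_, ?_, ?_, ?_, by omega, by omega, by omega, by omega, ?_⟩
    · exact disj_of_lt x fun a ha b hb => hAQ a (hA' ha) b (hZ (hZ' hb))
    · exact disj_of_lt x fun a ha b hb =>
        (hAQ a (hA' ha) y0 (hY hy0)).trans (hQB y0 (hY hy0) b hb)
    · exact disj_of_lt x fun a ha b hb => hAQ a (hA' ha) b (hY (hY' hb))
    · exact disj_of_lt x fun a ha b hb => hQB a (hZ (hZ' ha)) b hb
    · exact (disj_of_lt x fun a ha b hb => hYZ a (hY' ha) b (hZ' hb)).symm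
    · exact (disj_of_lt x fun a ha b hb => hQB a (hY (hY' ha)) b hb).symm
    · intro a ha r hr b hb q hq
      have l1 := hAQ a (hA' ha) q (hY (hY' hq))
      have l2 := hYZ q (hY' hq) r (hZ' hr)
      have l3 := hQB r (hZ (hZ' hr)) b hb
      apply inside_two x y l1 l2 l3
      · exact lt_of_le_of_ne (h a ha q hq r hr)
          (hP.sorted x y (hA (hA' ha)) (hQ (hY (hY' hq))) (hQ (hZ (hZ' hr))) l1 l2).symm
      · exact lt_of_le_of_ne (hcap a (hA' ha) q (hY (hY' hq)) b hb)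
          (hP.sorted x y (hA (hA' ha)) (hQ (hY (hY' hq))) (hB hb) l1 (l2.trans l3))

theorem bundle {Q : Finset ι} {m : ℕ} (hm : 0 < m)
    (hno : ∀ X Y Z : Finset ι, X ⊆ Q → Y ⊆ Q → Z ⊆ Q → 2 * m ≤ X.card → 2 * m ≤ Y.card →
      2 * m ≤ Z.card → (∀ a ∈ X, ∀ b ∈ Y, x a < x b) → (∀ b ∈ Y, ∀ c ∈ Z, x b < x c) →
      (∀ a ∈ X, ∀ b ∈ Y, ∀ c ∈ Z, 0 ≤ D x y a b c) → False)
    (T : ℕ) (S : ℕ → Finset ι) (hS : ∀ t, t < T → S t ⊆ Q ∧ 16 * m ≤ (S t).card)
    (hsep : ∀ t u, t < u → u < T → ∀ a ∈ S t, ∀ b ∈ S u, x a < x b) (k : ℕ) (hk : k + 2 ≤ T) :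
    ∃ C : ℕ → Finset ι, (∀ t, C t ⊆ S t) ∧
      (∀ t, t < T → 2 * m ≤ (C t).card ∧ (k ≤ t → 4 * m ≤ (C t).card) ∧
        (k + 1 ≤ t → 8 * m ≤ (C t).card) ∧ (k + 2 ≤ t → 16 * m ≤ (C t).card)) ∧
      ∀ t, t < k → ∀ a ∈ C t, ∀ b ∈ C (t + 1), ∀ c ∈ C (t + 2), D x y a b c ≤ 0 := by
  induction k with
  | zero =>
    refine ⟨S, fun t => Finset.Subset.refl _, ?_, fun t ht => absurd ht (by omega)⟩
    intro t ht
    have := (hS t ht).2
    omega
  | succ k ih =>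
    obtain ⟨C, h1, h2, h3⟩ := ih (by omega)
    have a0 := h2 k (by omega)
    have a1 := h2 (k + 1) (by omega)
    have a2 := h2 (k + 2) (by omega)
    have s01 : ∀ a ∈ C k, ∀ b ∈ C (k + 1), x a < x b :=
      fun a ha b hb => hsep k (k + 1) (by omega) (by omega) a (h1 _ ha) b (h1 _ hb)
    have s12 : ∀ a ∈ C (k + 1), ∀ b ∈ C (k + 2), x a < x b :=
      fun a ha b hb => hsep (k + 1) (k + 2) (by omega) (by omega) a (h1 _ ha) b (h1 _ hb)
    obtain ⟨X, hX, Y, hY, Z, hZ, c1, c2, c3, h⟩ := halving x y (C k) (C (k + 1)) (C (k + 2))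
      (Finset.card_pos.1 (by omega)) (Finset.card_pos.1 (by omega)) (Finset.card_pos.1 (by omega))
      s01 s12
    rcases h with h | h
    swap
    · exact (hno X Y Z (hX.trans ((h1 _).trans (hS _ (by omega)).1))
        (hY.trans ((h1 _).trans (hS _ (by omega)).1))
        (hZ.trans ((h1 _).trans (hS _ (by omega)).1)) (by omega) (by omega) (by omega)
        (fun a ha b hb => s01 a (hX ha) b (hY hb)) (fun a ha b hb => s12 a (hY ha) b (hZ hb))
        h).elim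
    let C' : ℕ → Finset ι := fun t =>
      if t = k then X else if t = k + 1 then Y else if t = k + 2 then Z else C t
    have hsub : ∀ t, C' t ⊆ C t := by
      intro t
      simp only [C']
      split_ifs with e1 e2 e3
      · rw [e1]; exact hX
      · rw [e2]; exact hY
      · rw [e3]; exact hZ
      · exact Finset.Subset.refl _
    refine ⟨C', fun t => (hsub t).trans (h1 t), ?_, ?_⟩
    · intro t ht
      have := h2 t ht
      simp only [C']
      split_ifs with e1 e2 e3 <;> omega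
    · intro t ht a ha b hb c hc
      by_cases e : t = k
      · subst e
        have e0 : C' t = X := by simp [C']
        have e1 : C' (t + 1) = Y := by simp [C']
        have e2 : C' (t + 2) = Z := by simp [C']
        rw [e0] at ha
        rw [e1] at hb
        rw [e2] at hc
        exact h a ha b hb c hc
      · exact h3 t (by omega) a (hsub _ ha) b (hsub _ hb) c (hsub _ hc)

theorem all_caps (T : ℕ) (C : ℕ → Finset ι) (hne : ∀ t, t < T → (C t).Nonempty)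
    (hsep : ∀ t u, t < u → u < T → ∀ a ∈ C t, ∀ b ∈ C u, x a < x b)
    (h : ∀ t, t + 2 < T → ∀ a ∈ C t, ∀ b ∈ C (t + 1), ∀ c ∈ C (t + 2), D x y a b c < 0) (g : ℕ) :
    ∀ i j k, i < j → j < k → k < T → k - i ≤ g →
      ∀ a ∈ C i, ∀ b ∈ C j, ∀ c ∈ C k, D x y a b c < 0 := by
  induction g with
  | zero => intro i j k h1 h2 _ h4; omega
  | succ g ih =>
    intro i j k h1 h2 h3 h4 a ha b hb c hc
    by_cases e1 : j + 1 < k
    · obtain ⟨z, hz⟩ := hne (j + 1) (by omega)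
      exact four_left x y (hsep i j h1 (by omega) a ha b hb)
        (hsep j (j + 1) (by omega) (by omega) b hb z hz) (hsep (j + 1) k e1 h3 z hz c hc)
        (ih i j (j + 1) h1 (by omega) (by omega) (by omega) a ha b hb z hz)
        (ih j (j + 1) k (by omega) e1 h3 (by omega) b hb z hz c hc)
    · by_cases e2 : i + 1 < j
      · obtain ⟨z, hz⟩ := hne (i + 1) (by omega)
        exact four_right x y (hsep i (i + 1) (by omega) (by omega) a ha z hz)
          (hsep (i + 1) j e2 (by omega) z hz b hb) (hsep j k h2 h3 b hb c hc)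
          (ih i (i + 1) j (by omega) e2 (by omega) (by omega) a ha z hz b hb)
          (ih (i + 1) j k e2 h2 h3 (by omega) z hz b hb c hc)
      · obtain rfl : j = i + 1 := by omega
        obtain rfl : k = i + 2 := by omega
        exact h i h3 a ha b hb c hc

/-- some line through two points of `A` separates two points of `B` -/
def Spl (A B : Finset ι) : Prop :=
  ∃ a ∈ A, ∃ a' ∈ A, ∃ b ∈ B, ∃ b' ∈ B, D x y a a' b < 0 ∧ 0 < D x y a a' b'

theorem avoid {P A B : Finset ι} (hP : GP x y P) (hA : A ⊆ P) (hB : B ⊆ P) {s : ℕ}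
    (cA : A.card = s) (cB : B.card = s) (hs : 0 < s) (hAB : ∀ a ∈ A, ∀ b ∈ B, x a < x b)
    (h1 : ¬ Spl x y A B) (h2 : ¬ Spl x y B A) :
    ∃ eA eB : ℕ → ι, (∀ j, j < s → eA j ∈ A ∧ eB j ∈ B) ∧
      ∀ i j, i < j → j < s → eA i ≠ eA j ∧ CrossD x y (eA i) (eB i) (eA j) (eB j) := by
  obtain ⟨a0, ha0⟩ : A.Nonempty := Finset.card_pos.1 (by omega)
  obtain ⟨b0, hb0⟩ : B.Nonempty := Finset.card_pos.1 (by omega)
  have neAB : ∀ a ∈ A, ∀ b ∈ B, a ≠ b := by
    rintro a ha b hb rfl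
    exact lt_irrefl _ (hAB a ha a hb)
  have kA : ∀ a ∈ A, ∀ a' ∈ A, D x y a a' b0 = (x b0 - x a) * (x b0 - x a') *
      ((y b0 - y a') / (x b0 - x a') - (y b0 - y a) / (x b0 - x a)) := by
    intro a ha a' ha'
    have := (sub_pos.2 (hAB a ha b0 hb0)).ne'
    have := (sub_pos.2 (hAB a' ha' b0 hb0)).ne'
    unfold D
    field_simp
    ring
  have kB : ∀ b ∈ B, ∀ b' ∈ B, D x y a0 b b' = (x b - x a0) * (x b' - x a0) *
      ((y b' - y a0) / (x b' - x a0) - (y b - y a0) / (x b - x a0)) := by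
    intro b hb b' hb'
    have := (sub_pos.2 (hAB a0 ha0 b hb)).ne'
    have := (sub_pos.2 (hAB a0 ha0 b' hb')).ne'
    unfold D
    field_simp
  obtain ⟨eA, eA1, eA2⟩ := exists_enum A ⟨a0, ha0⟩ (fun a => (y b0 - y a) / (x b0 - x a)) (by
    intro a ha a' ha' h
    by_contra hne
    apply hP a (hA ha) a' (hA ha') b0 (hB hb0) hne (neAB a ha b0 hb0) (neAB a' ha' b0 hb0)
    rw [kA a ha a' ha']
    simp only at h
    rw [h, sub_self, mul_zero])
  obtain ⟨eB, eB1, eB2⟩ := exists_enum B ⟨b0, hb0⟩ (fun b => (y b - y a0) / (x b - x a0)) (by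
    intro b hb b' hb' h
    by_contra hne
    apply hP a0 (hA ha0) b (hB hb) b' (hB hb') (neAB a0 ha0 b hb) (neAB a0 ha0 b' hb') hne
    rw [kB b hb b' hb']
    simp only at h
    rw [h, sub_self, mul_zero])
  rw [cA] at eA1 eA2
  rw [cB] at eB1 eB2
  refine ⟨eA, eB, fun j hj => ⟨eA1 j hj, eB1 j hj⟩, ?_⟩
  intro i j hij hj
  have mi := eA1 i (hij.trans hj)
  have mj := eA1 j hj
  have ni := eB1 i (hij.trans hj)
  have nj := eB1 j hj
  have lA := eA2 i j hij hj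
  have lB := eB2 i j hij hj
  have neA : eA i ≠ eA j := by
    intro h
    rw [h] at lA
    exact lt_irrefl _ lA
  have neB : eB i ≠ eB j := by
    intro h
    rw [h] at lB
    exact lt_irrefl _ lB
  have pA0 : 0 < D x y (eA i) (eA j) b0 := by
    rw [kA _ mi _ mj]
    exact mul_pos (mul_pos (sub_pos.2 (hAB _ mi b0 hb0)) (sub_pos.2 (hAB _ mj b0 hb0)))
      (sub_pos.2 lA)
  have pB0 : 0 < D x y (eB i) (eB j) a0 := by
    rw [← D_rot, kB _ ni _ nj]
    exact mul_pos (mul_pos (sub_pos.2 (hAB a0 ha0 _ ni)) (sub_pos.2 (hAB a0 ha0 _ nj)))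
      (sub_pos.2 lB)
  have pA : ∀ b ∈ B, 0 < D x y (eA i) (eA j) b := by
    intro b hb
    rcases lt_trichotomy (D x y (eA i) (eA j) b) 0 with h | h | h
    · exact absurd ⟨_, mi, _, mj, b, hb, b0, hb0, h, pA0⟩ h1
    · exact absurd h (hP _ (hA mi) _ (hA mj) b (hB hb) neA (neAB _ mi b hb) (neAB _ mj b hb))
    · exact h
  have pB : ∀ a ∈ A, 0 < D x y (eB i) (eB j) a := by
    intro a ha
    rcases lt_trichotomy (D x y (eB i) (eB j) a) 0 with h | h | h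
    · exact absurd ⟨_, ni, _, nj, a, ha, a0, ha0, h, pB0⟩ h2
    · exact absurd h (hP _ (hB ni) _ (hB nj) a (hA ha) neB (neAB a ha _ ni).symm
        (neAB a ha _ nj).symm)
    · exact h
  refine ⟨neA, ?_, ?_⟩
  · rw [D_swap x y (eA i) (eA j) (eB i), D_rot x y (eA i) (eB i) (eB j)]
    nlinarith [mul_pos (pA _ ni) (pB _ mi)]
  · rw [← D_rot x y (eA i) (eA j) (eB j), D_swap x y (eA j) (eB i) (eB j),
      D_rot x y (eA j) (eB i) (eB j)]
    nlinarith [mul_pos (pA _ nj) (pB _ mj)]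

theorem three_vec (a a' b c : ι) :
    D x y a a' b * (x c - x a) - D x y a a' c * (x b - x a) = - (D x y a b c * (x a' - x a)) := by
  unfold D
  ring

theorem split_unique {a a' : ι} {B C : Finset ι} {ε : ℝ}
    (hB : ∀ b ∈ B, 0 < ε * (x b - x a)) (hC : ∀ c ∈ C, 0 < ε * (x c - x a))
    (hD : ∀ b ∈ B, ∀ c ∈ C, D x y a b c < 0)
    (h1 : ∃ b ∈ B, ∃ b' ∈ B, D x y a a' b < 0 ∧ 0 < D x y a a' b')
    (h2 : ∃ c ∈ C, ∃ c' ∈ C, D x y a a' c < 0 ∧ 0 < D x y a a' c') : False := by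
  obtain ⟨b, hb, b', hb', p1, p2⟩ := h1
  obtain ⟨c, hc, c', hc', q1, q2⟩ := h2
  have e1 := three_vec x y a a' b c'
  have e2 := three_vec x y a a' b' c
  have f1 : ε * (D x y a a' b * (x c' - x a) - D x y a a' c' * (x b - x a)) < 0 := by
    nlinarith [mul_pos (neg_pos.2 p1) (hC c' hc'), mul_pos q2 (hB b hb)]
  have f2 : 0 < ε * (D x y a a' b' * (x c - x a) - D x y a a' c * (x b' - x a)) := by
    nlinarith [mul_pos p2 (hC c hc), mul_pos (neg_pos.2 q1) (hB b' hb')]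
  rw [e1] at f1
  rw [e2] at f2
  have g1 := hD b hb c' hc'
  have g2 := hD b' hb' c hc
  have k1 : ε * (x a' - x a) < 0 := by
    by_contra h
    rw [not_lt] at h
    nlinarith [mul_nonneg h (neg_pos.2 g1).le]
  nlinarith [mul_pos (neg_pos.2 k1) (neg_pos.2 g2)]

end Pool.Agent.H323Z.Cross
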