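import Mathlib
import Pool.Agent.H323Z.CrossB

set_option autoImplicit false

/-! Counting: a cap bundle with many small clusters has a large crossing family. -/

namespace Pool.Agent.H323Z.Cross

open Finset

variable {ι : Type} (x y : ι → ℝ)

open Classical in
theorem count_split (A : Finset ι) (C : ℕ → Finset ι) (K : Finset ℕ) (ε : ℝ)
    (hε : ∀ a ∈ A, ∀ k ∈ K, ∀ b ∈ C k, 0 < ε * (x b - x a))
    (hD : ∀ a ∈ A, ∀ j ∈ K, ∀ k ∈ K, j < k → ∀ b ∈ C j, ∀ c ∈ C k, D x y a b c < 0) :
    (K.filter (fun k => Spl x y A (C k))).card ≤ A.card * A.card := by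
  have hsub : K.filter (fun k => Spl x y A (C k)) ⊆ (A ×ˢ A).biUnion (fun p => K.filter
      (fun k => ∃ b ∈ C k, ∃ b' ∈ C k, D x y p.1 p.2 b < 0 ∧ 0 < D x y p.1 p.2 b')) := by
    intro k hk
    obtain ⟨h1, a, ha, a', ha', h2⟩ := Finset.mem_filter.1 hk
    exact Finset.mem_biUnion.2 ⟨(a, a'), Finset.mem_product.2 ⟨ha, ha'⟩,
      Finset.mem_filter.2 ⟨h1, h2⟩⟩
  refine (Finset.card_le_card hsub).trans ?_
  refine (Finset.card_biUnion_le_card_mul _ _ 1 ?_).trans (by simp)
  intro p hp
  obtain ⟨ha, _⟩ := Finset.mem_product.1 hp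
  rw [Finset.card_le_one]
  intro j hj k hk
  obtain ⟨j1, j2⟩ := Finset.mem_filter.1 hj
  obtain ⟨k1, k2⟩ := Finset.mem_filter.1 hk
  rcases lt_trichotomy j k with h | h | h
  · exact (split_unique x y (hε _ ha j j1) (hε _ ha k k1) (hD _ ha j j1 k k1 h) j2 k2).elim
  · exact h
  · exact (split_unique x y (hε _ ha k k1) (hε _ ha j j1) (hD _ ha k k1 j j1 h) k2 j2).elim

theorem cross_of_cap {a a' b b' : ι} (h1 : D x y a a' b < 0) (h2 : D x y a b b' < 0)
    (h3 : D x y a a' b' < 0) (h4 : D x y a' b b' < 0) : CrossD x y a b a' b' := by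
  constructor
  · rw [D_swap x y a a' b]
    nlinarith [mul_pos (neg_pos.2 h1) (neg_pos.2 h2)]
  · rw [← D_rot x y a a' b', D_swap x y a' b b']
    nlinarith [mul_pos (neg_pos.2 h3) (neg_pos.2 h4)]

theorem family {P : Finset ι} (hP : GP x y P) (H s : ℕ) (hs : 0 < s) (hH : 0 < H)
    (C : ℕ → Finset ι) (hC : ∀ t, t < 3 * H → C t ⊆ P ∧ (C t).card = s)
    (hsep : ∀ t u, t < u → u < 3 * H → ∀ a ∈ C t, ∀ b ∈ C u, x a < x b)
    (hcap : ∀ i j k, i < j → j < k → k < 3 * H →
      ∀ a ∈ C i, ∀ b ∈ C j, ∀ c ∈ C k, D x y a b c < 0) :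
    CF x y P ((H - 4 * (s * s)) * s) := by
  classical
  let U : Finset (ℕ × ℕ) := Finset.range H ×ˢ Finset.Ico H (2 * H)
  have hU : ∀ p, p ∈ U ↔ p.1 < H ∧ H ≤ p.2 ∧ p.2 < 2 * H := by
    intro p
    simp [U]
  let B1 := U.filter (fun p => Spl x y (C p.1) (C (p.1 + p.2)))
  let B2 := U.filter (fun p => Spl x y (C (p.1 + p.2)) (C p.1))
  have c1 : B1.card ≤ (s * s) * H := by
    have := Finset.card_le_mul_card_image_of_maps_to (f := fun p : ℕ × ℕ => p.1) (s := B1)
      (t := Finset.range H) (fun p hp => by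
        have := (hU p).1 (Finset.mem_filter.1 hp).1
        simp only [Finset.mem_range]
        omega) (s * s) (fun i hi => by
        rw [Finset.mem_range] at hi
        have h1 := count_split x y (C i) C (Finset.Ico (i + 1) (3 * H)) 1
          (fun a ha k hk b hb => by
            rw [Finset.mem_Ico] at hk
            have := hsep i k (by omega) hk.2 a ha b hb
            linarith)
          (fun a ha j hj k hk hjk b hb c hc => by
            rw [Finset.mem_Ico] at hj hk
            exact hcap i j k (by omega) hjk hk.2 a ha b hb c hc)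
        rw [(hC i (by omega)).2] at h1
        refine le_trans ?_ h1
        apply Finset.card_le_card_of_injOn (fun p => p.1 + p.2)
        · intro p hp
          simp only [Finset.coe_filter, Set.mem_setOf_eq] at hp
          obtain ⟨hp1, hp2⟩ := hp
          obtain ⟨hp3, hp4⟩ := Finset.mem_filter.1 hp1
          have := (hU p).1 hp3
          simp only [Finset.coe_filter, Set.mem_setOf_eq, Finset.mem_Ico]
          refine ⟨by omega, ?_⟩
          rw [← hp2]
          exact hp4
        · intro p hp q hq h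
          simp only [Finset.coe_filter, Set.mem_setOf_eq] at hp hq h
          apply Prod.ext <;> omega)
    simpa using this
  have c2 : B2.card ≤ (s * s) * (3 * H) := by
    have := Finset.card_le_mul_card_image_of_maps_to (f := fun p : ℕ × ℕ => p.1 + p.2) (s := B2)
      (t := Finset.range (3 * H)) (fun p hp => by
        have := (hU p).1 (Finset.mem_filter.1 hp).1
        simp only [Finset.mem_range]
        omega) (s * s) (fun k hk => by
        rw [Finset.mem_range] at hk
        have h1 := count_split x y (C k) C (Finset.range k) (-1)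
          (fun a ha j hj b hb => by
            rw [Finset.mem_range] at hj
            have := hsep j k hj hk b hb a ha
            linarith)
          (fun a ha i hi j hj hij b hb c hc => by
            rw [Finset.mem_range] at hi hj
            rw [D_rot, D_rot, D_rot, D_rot]
            exact hcap i j k hij hj hk b hb c hc a ha)
        rw [(hC k hk).2] at h1
        refine le_trans ?_ h1
        apply Finset.card_le_card_of_injOn (fun p => p.1)
        · intro p hp
          simp only [Finset.coe_filter, Set.mem_setOf_eq] at hp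
          obtain ⟨hp1, hp2⟩ := hp
          obtain ⟨hp3, hp4⟩ := Finset.mem_filter.1 hp1
          have := (hU p).1 hp3
          simp only [Finset.coe_filter, Set.mem_setOf_eq, Finset.mem_range]
          refine ⟨by omega, ?_⟩
          rw [← hp2]
          exact hp4
        · intro p hp q hq h
          simp only [Finset.coe_filter, Set.mem_setOf_eq] at hp hq h
          apply Prod.ext <;> omega)
    simpa using this
  have c3 : (B1 ∪ B2).card ≤ (Finset.Ico H (2 * H)).card * (4 * (s * s)) := by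
    refine (Finset.card_union_le _ _).trans ?_
    rw [Nat.card_Ico, show 2 * H - H = H by omega]
    nlinarith
  obtain ⟨h, hh, hh2⟩ := Finset.exists_card_fiber_le_of_card_le_mul (f := fun p : ℕ × ℕ => p.2)
    (s := B1 ∪ B2) (t := Finset.Ico H (2 * H)) ⟨H, by simp; omega⟩ c3
  rw [Finset.mem_Ico] at hh
  let G := (Finset.range H).filter
    (fun i => ¬ (Spl x y (C i) (C (i + h)) ∨ Spl x y (C (i + h)) (C i)))
  have cG : H - 4 * (s * s) ≤ G.card := by
    have h1 := Finset.card_filter_add_card_filter_not (s := Finset.range H)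
      (fun i => Spl x y (C i) (C (i + h)) ∨ Spl x y (C (i + h)) (C i))
    have h2 : ((Finset.range H).filter
        (fun i => Spl x y (C i) (C (i + h)) ∨ Spl x y (C (i + h)) (C i))).card ≤ 4 * (s * s) := by
      refine le_trans ?_ hh2
      apply Finset.card_le_card_of_injOn (fun i => (i, h))
      · intro i hi
        simp only [Finset.coe_filter, Set.mem_setOf_eq, Finset.mem_range] at hi
        simp only [Finset.coe_filter, Set.mem_setOf_eq, Finset.mem_union, and_true]
        have hu : (i, h) ∈ U := (hU _).2 ⟨hi.1, hh.1, hh.2⟩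
        rcases hi.2 with h3 | h3
        · exact Or.inl (Finset.mem_filter.2 ⟨hu, h3⟩)
        · exact Or.inr (Finset.mem_filter.2 ⟨hu, h3⟩)
      · intro i _ j _ hij
        exact (Prod.ext_iff.1 hij).1
    rw [Finset.card_range] at h1
    simp only [G]
    omega
  have hG : ∀ i ∈ G, i < H ∧ ¬ Spl x y (C i) (C (i + h)) ∧ ¬ Spl x y (C (i + h)) (C i) := by
    intro i hi
    obtain ⟨h1, h2⟩ := Finset.mem_filter.1 hi
    rw [Finset.mem_range] at h1
    rw [not_or] at h2
    exact ⟨h1, h2⟩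
  have hex : ∀ i, ∃ eA eB : ℕ → ι, i ∈ G → ((∀ j, j < s → eA j ∈ C i ∧ eB j ∈ C (i + h)) ∧
      ∀ u v, u < v → v < s → eA u ≠ eA v ∧ CrossD x y (eA u) (eB u) (eA v) (eB v)) := by
    intro i
    by_cases hi : i ∈ G
    · obtain ⟨h1, h2, h3⟩ := hG i hi
      obtain ⟨eA, eB, h4⟩ := avoid x y hP (hC i (by omega)).1 (hC (i + h) (by omega)).1
        (hC i (by omega)).2 (hC (i + h) (by omega)).2 hs (hsep i (i + h) (by omega) (by omega))
        h2 h3
      exact ⟨eA, eB, fun _ => h4⟩
    · obtain ⟨a, _⟩ : (C 0).Nonempty := Finset.card_pos.1 (by rw [(hC 0 (by omega)).2]; exact hs)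
      exact ⟨fun _ => a, fun _ => a, fun h => absurd h hi⟩
  choose eA eB he using hex
  have key : ∀ p ∈ G ×ˢ Finset.range s, ∀ q ∈ G ×ˢ Finset.range s,
      (p.1 < q.1 ∨ (p.1 = q.1 ∧ p.2 < q.2)) → eA p.1 p.2 ≠ eA q.1 q.2 ∧
        CrossD x y (eA p.1 p.2) (eB p.1 p.2) (eA q.1 q.2) (eB q.1 q.2) := by
    rintro ⟨i, u⟩ hp ⟨j, v⟩ hq hlt
    simp only [Finset.mem_product, Finset.mem_range] at hp hq hlt ⊢
    rcases hlt with hlt | ⟨rfl, hlt⟩
    · obtain ⟨m1, m2⟩ := (he i hp.1).1 u hp.2
      obtain ⟨m3, m4⟩ := (he j hq.1).1 v hq.2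
      have li := (hG i hp.1).1
      have lj := (hG j hq.1).1
      constructor
      · intro e
        have := hsep i j hlt (by omega) _ m1 _ m3
        rw [e] at this
        exact lt_irrefl _ this
      · exact cross_of_cap x y (hcap i j (i + h) hlt (by omega) (by omega) _ m1 _ m3 _ m2)
          (hcap i (i + h) (j + h) (by omega) (by omega) (by omega) _ m1 _ m2 _ m4)
          (hcap i j (j + h) hlt (by omega) (by omega) _ m1 _ m3 _ m4)
          (hcap j (i + h) (j + h) (by omega) (by omega) (by omega) _ m3 _ m2 _ m4)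
    · exact (he i hp.1).2 u v hlt hq.2
  have key2 : ∀ p ∈ G ×ˢ Finset.range s, ∀ q ∈ G ×ˢ Finset.range s, p ≠ q →
      eA p.1 p.2 ≠ eA q.1 q.2 ∧
        CrossD x y (eA p.1 p.2) (eB p.1 p.2) (eA q.1 q.2) (eB q.1 q.2) := by
    intro p hp q hq hne
    by_cases h1 : p.1 < q.1 ∨ (p.1 = q.1 ∧ p.2 < q.2)
    · exact key p hp q hq h1
    · have h2 : q.1 < p.1 ∨ (q.1 = p.1 ∧ q.2 < p.2) := by
        by_contra h2
        apply hne
        apply Prod.ext <;> omega
      obtain ⟨h3, h4⟩ := key q hq p hp h2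
      exact ⟨h3.symm, h4.symm⟩
  refine ⟨(G ×ˢ Finset.range s).image (fun p => (eA p.1 p.2, eB p.1 p.2)), ?_, ?_, ?_⟩
  · rw [Finset.card_image_of_injOn, Finset.card_product, Finset.card_range]
    · exact Nat.mul_le_mul_right s cG
    · intro p hp q hq e
      by_contra hne
      exact (key2 p hp q hq hne).1 (Prod.ext_iff.1 e).1
  · intro z hz
    obtain ⟨⟨i, u⟩, hp, rfl⟩ := Finset.mem_image.1 hz
    simp only [Finset.mem_product, Finset.mem_range] at hp
    obtain ⟨m1, m2⟩ := (he i hp.1).1 u hp.2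
    have li := (hG i hp.1).1
    refine ⟨(hC i (by omega)).1 m1, (hC (i + h) (by omega)).1 m2, ?_⟩
    intro e
    have := hsep i (i + h) (by omega) (by omega) _ m1 _ m2
    simp only at e
    rw [e] at this
    exact lt_irrefl _ this
  · intro z hz w hw hne
    obtain ⟨p, hp, rfl⟩ := Finset.mem_image.1 hz
    obtain ⟨q, hq, rfl⟩ := Finset.mem_image.1 hw
    exact (key2 p hp q hq (by rintro rfl; exact hne rfl)).2

theorem CF.mono {P : Finset ι} {k l : ℕ} (h : CF x y P k) (hl : l ≤ k) : CF x y P l := by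
  obtain ⟨F, h1, h2⟩ := h
  exact ⟨F, hl.trans h1, h2⟩

theorem core_cap {P A B Q : Finset ι} {m H : ℕ} (hm : 0 < m) (hP : GP x y P)
    (hx : Set.InjOn x P) (hN : ¬ NC x y P m)
    (hA : A ⊆ P) (hB : B ⊆ P) (hQ : Q ⊆ P) (cA : 2 * m ≤ A.card) (cB : m ≤ B.card)
    (hAQ : ∀ a ∈ A, ∀ q ∈ Q, x a < x q) (hQB : ∀ q ∈ Q, ∀ b ∈ B, x q < x b)
    (hcap : ∀ a ∈ A, ∀ q ∈ Q, ∀ b ∈ B, D x y a q b ≤ 0)
    (cQ : 3 * H * (16 * m) ≤ Q.card) (cH : 32 * (m * m) ≤ H) : CF x y P (H * m) := by
  classical
  have hH : 0 < H := lt_of_lt_of_le (by positivity) cH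
  have hQne : Q.Nonempty := Finset.card_pos.1 (lt_of_lt_of_le (by positivity) cQ)
  obtain ⟨e, e1, e2⟩ := exists_enum Q hQne x (hx.mono hQ)
  let S : ℕ → Finset ι := fun t => (Finset.Ico (t * (16 * m)) ((t + 1) * (16 * m))).image e
  have hle : ∀ t, t < 3 * H → (t + 1) * (16 * m) ≤ Q.card :=
    fun t ht => (Nat.mul_le_mul_right _ ht).trans cQ
  have hS : ∀ t, t < 3 * H → S t ⊆ Q ∧ 16 * m ≤ (S t).card := by
    intro t ht
    constructor
    · intro a ha
      obtain ⟨i, hi, rfl⟩ := Finset.mem_image.1 ha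
      rw [Finset.mem_Ico] at hi
      exact e1 i (lt_of_lt_of_le hi.2 (hle t ht))
    · rw [block_card e x Q.card e2 _ _ (hle t ht), add_mul]
      omega
  have hsep : ∀ t u, t < u → u < 3 * H → ∀ a ∈ S t, ∀ b ∈ S u, x a < x b := by
    intro t u htu hu a ha b hb
    obtain ⟨i, hi, rfl⟩ := Finset.mem_image.1 ha
    obtain ⟨j, hj, rfl⟩ := Finset.mem_image.1 hb
    rw [Finset.mem_Ico] at hi hj
    have : (t + 1) * (16 * m) ≤ u * (16 * m) := Nat.mul_le_mul_right _ htu
    exact e2 i j (by omega) (lt_of_lt_of_le hj.2 (hle u hu))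
  obtain ⟨C, h1, h2, h3⟩ := bundle x y hm (fun X Y Z hX hY hZ cX cY cZ hXY hYZ hcup =>
    no_cup x y hm hP hN hA hB hQ cA cB hAQ hQB hcap hX hY hZ cX cY cZ hXY hYZ hcup)
    (3 * H) S hS hsep (3 * H - 2) (by omega)
  have hex : ∀ t, ∃ C' ⊆ C t, t < 3 * H → C'.card = 2 * m := by
    intro t
    by_cases ht : t < 3 * H
    · obtain ⟨C', h4, h5⟩ := Finset.exists_subset_card_eq (h2 t ht).1
      exact ⟨C', h4, fun _ => h5⟩
    · exact ⟨∅, Finset.empty_subset _, fun h => absurd h ht⟩
  choose C' h4 h5 using hex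
  have hsub : ∀ t, t < 3 * H → C' t ⊆ P :=
    fun t ht => (h4 t).trans ((h1 t).trans ((hS t ht).1.trans hQ))
  have hsep' : ∀ t u, t < u → u < 3 * H → ∀ a ∈ C' t, ∀ b ∈ C' u, x a < x b :=
    fun t u htu hu a ha b hb => hsep t u htu hu a (h1 t (h4 t ha)) b (h1 u (h4 u hb))
  have hall := all_caps x y (3 * H) C'
    (fun t ht => Finset.card_pos.1 (by rw [h5 t ht]; omega)) hsep' (by
      intro t ht a ha b hb c hc
      exact lt_of_le_of_ne (h3 t (by omega) a (h4 _ ha) b (h4 _ hb) c (h4 _ hc))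
        (hP.sorted x y (hsub t (by omega) ha) (hsub (t + 1) (by omega) hb) (hsub (t + 2) ht hc)
          (hsep' t (t + 1) (by omega) (by omega) a ha b hb)
          (hsep' (t + 1) (t + 2) (by omega) ht b hb c hc))) (3 * H)
  have hf := family x y hP H (2 * m) (by omega) hH C' (fun t ht => ⟨hsub t ht, h5 t ht⟩) hsep'
    (fun i j k a b c => hall i j k a b c (by omega))
  apply hf.mono
  obtain ⟨r, hr⟩ : ∃ r, H = 16 * (m * m) + r := ⟨H - 16 * (m * m), by omega⟩
  have : H - 4 * (2 * m * (2 * m)) = r := by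
    have : 4 * (2 * m * (2 * m)) = 16 * (m * m) := by ring
    omega
  rw [this]
  have h6 : H ≤ r * 2 := by omega
  calc H * m ≤ r * 2 * m := Nat.mul_le_mul_right _ h6
    _ = r * (2 * m) := by ring

theorem core {P : Finset ι} {m : ℕ} (hm : 0 < m) (hP : GP x y P) (hx : Set.InjOn x P)
    (hN : ¬ NC x y P m) (hn : 4000 * (m * m * m) ≤ P.card) :
    ∃ k, P.card ≤ 100 * k ∧ CF x y P k := by
  classical
  have hm3 : m ≤ m * m * m := by nlinarith [Nat.mul_le_mul_right m hm, Nat.mul_pos hm hm]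
  have hPne : P.Nonempty := Finset.card_pos.1 (by omega)
  obtain ⟨e, e1, e2⟩ := exists_enum P hPne x hx
  set n := P.card with hn'
  have hsub : ∀ a b, b ≤ n → (Finset.Ico a b).image e ⊆ P := by
    intro a b hb p hp
    obtain ⟨i, hi, rfl⟩ := Finset.mem_image.1 hp
    rw [Finset.mem_Ico] at hi
    exact e1 i (by omega)
  have hsep : ∀ a b c, c ≤ n → ∀ p ∈ (Finset.Ico a b).image e, ∀ q ∈ (Finset.Ico b c).image e,
      x p < x q := by
    intro a b c hc p hp q hq
    obtain ⟨i, hi, rfl⟩ := Finset.mem_image.1 hp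
    obtain ⟨j, hj, rfl⟩ := Finset.mem_image.1 hq
    rw [Finset.mem_Ico] at hi hj
    exact e2 i j (by omega) (by omega)
  have c1 := block_card e x n e2 0 (4 * m) (by omega)
  have c2 := block_card e x n e2 (4 * m) (n - 4 * m) (by omega)
  have c3 := block_card e x n e2 (n - 4 * m) n (by omega)
  obtain ⟨A, hA, Q, hQ, B, hB, cA, cQ, cB, h⟩ := halving x y ((Finset.Ico 0 (4 * m)).image e)
    ((Finset.Ico (4 * m) (n - 4 * m)).image e) ((Finset.Ico (n - 4 * m) n).image e)
    (Finset.card_pos.1 (by omega)) (Finset.card_pos.1 (by omega)) (Finset.card_pos.1 (by omega))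
    (hsep _ _ _ (by omega)) (hsep _ _ _ (by omega))
  have hd := Nat.div_add_mod Q.card (48 * m)
  have hr := Nat.mod_lt Q.card (show 0 < 48 * m by omega)
  set H := Q.card / (48 * m) with hH
  have hv : 48 * m * H = 48 * (H * m) := by ring
  have cQ' : 3 * H * (16 * m) ≤ Q.card := by
    have : 3 * H * (16 * m) = 48 * (H * m) := by ring
    omega
  have cH : 32 * (m * m) ≤ H := by
    by_contra hlt
    have h1 : H * m ≤ 32 * (m * m) * m := Nat.mul_le_mul_right _ (by omega)
    have h2 : 32 * (m * m) * m = 32 * (m * m * m) := by ring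
    omega
  refine ⟨H * m, by omega, ?_⟩
  have sA := hA.trans (hsub _ _ (by omega))
  have sQ := hQ.trans (hsub _ _ (by omega))
  have sB := hB.trans (hsub _ _ (le_refl n))
  have lAQ : ∀ a ∈ A, ∀ q ∈ Q, x a < x q :=
    fun a ha q hq => hsep _ _ _ (by omega) a (hA ha) q (hQ hq)
  have lQB : ∀ q ∈ Q, ∀ b ∈ B, x q < x b :=
    fun a ha q hq => hsep _ _ _ (le_refl n) a (hQ ha) q (hB hq)
  rcases h with h | h
  · exact core_cap x y hm hP hx hN sA sB sQ (by omega) (by omega) lAQ lQB h cQ' cH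
  · have hP' : GP x (fun i => - y i) P := by
      intro p hp q hq r hr h1 h2 h3
      rw [D_neg, neg_ne_zero]
      exact hP p hp q hq r hr h1 h2 h3
    have hN' : ¬ NC x (fun i => - y i) P m := by
      intro h
      apply hN
      simpa only [NC, InD, D_neg, neg_mul_neg] using h
    have := core_cap x (fun i => - y i) hm hP' hx hN' sA sB sQ (by omega) (by omega) lAQ lQB
      (fun a ha q hq b hb => by rw [D_neg]; exact neg_nonpos.2 (h a ha q hq b hb)) cQ' cH
    simpa only [CF, CrossD, D_neg, neg_mul_neg] using this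

end Pool.Agent.H323Z.Cross
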