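import Mathlib

set_option autoImplicit false

namespace Pool.Agent.H323Z.Cross

/-- No line contains three points of `P`. -/
def GenPos (P : Finset (ℝ × ℝ)) : Prop :=
  ∀ p ∈ P, ∀ q ∈ P, ∀ r ∈ P, p ≠ q → p ≠ r → q ≠ r → ¬ Collinear ℝ ({p, q, r} : Set (ℝ × ℝ))

/-- The segments with the endpoints `s.1, s.2` and `t.1, t.2` cross: their intersection is a single
point, which lies in the relative interior of both. -/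
def SegCross (s t : (ℝ × ℝ) × (ℝ × ℝ)) : Prop :=
  ∃ z : ℝ × ℝ, segment ℝ s.1 s.2 ∩ segment ℝ t.1 t.2 = {z} ∧ z ∈ openSegment ℝ s.1 s.2 ∧
    z ∈ openSegment ℝ t.1 t.2

/-- `F` is a crossing family in `P`: a set of segments, given by their two distinct endpoints in
`P`, any two of which cross. -/
def CrossingFamily (P : Finset (ℝ × ℝ)) (F : Finset ((ℝ × ℝ) × (ℝ × ℝ))) : Prop :=
  (∀ s ∈ F, s.1 ∈ P ∧ s.2 ∈ P ∧ s.1 ≠ s.2) ∧ ∀ s ∈ F, ∀ t ∈ F, s ≠ t → SegCross s t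

/-- `(P₁, P₂, P₃, P₄)` is a non-crossing family in `P`. -/
def NonCrossingFamily (P P₁ P₂ P₃ P₄ : Finset (ℝ × ℝ)) : Prop :=
  (P₁ ⊆ P ∧ P₂ ⊆ P ∧ P₃ ⊆ P ∧ P₄ ⊆ P) ∧
  (P₁.Nonempty ∧ P₂.Nonempty ∧ P₃.Nonempty ∧ P₄.Nonempty) ∧
  (Disjoint P₁ P₂ ∧ Disjoint P₁ P₃ ∧ Disjoint P₁ P₄ ∧ Disjoint P₂ P₃ ∧ Disjoint P₂ P₄ ∧
    Disjoint P₃ P₄) ∧
  ∀ p₁ ∈ P₁, ∀ p₂ ∈ P₂, ∀ p₃ ∈ P₃, ∀ p₄ ∈ P₄,
    p₄ ∈ interior (convexHull ℝ ({p₁, p₂, p₃} : Set (ℝ × ℝ)))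

end Pool.Agent.H323Z.Cross
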