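import Mathlib
import Pool.Agent.H323Z.CrossC
import Pool.Agent.H323Z.CrossDefs

set_option autoImplicit false

/-! From sign conditions to geometry. -/

namespace Pool.Agent.H323Z.Cross

open Finset Filter

/-- the determinant in the plane -/
abbrev D0 (p q r : ℝ × ℝ) : ℝ := D Prod.fst Prod.snd p q r

theorem gp_of_genPos {P : Finset (ℝ × ℝ)} (h : GenPos P) : GP Prod.fst Prod.snd P := by
  intro p hp q hq r hr h1 h2 h3 hD
  apply h p hp q hq r hr h1 h2 h3
  rw [collinear_iff_of_mem (p₀ := p) (by simp)]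
  refine ⟨q - p, ?_⟩
  intro z hz
  simp only [Set.mem_insert_iff, Set.mem_singleton_iff] at hz
  rcases hz with rfl | rfl | rfl
  · exact ⟨0, by simp⟩
  · exact ⟨1, by simp⟩
  · unfold D at hD
    by_cases hx : q.1 - p.1 = 0
    · have hy : q.2 - p.2 ≠ 0 := by
        intro hy
        apply h1
        apply Prod.ext <;> linarith
      refine ⟨(z.2 - p.2) / (q.2 - p.2), ?_⟩
      have hz1 : z.1 - p.1 = 0 := by
        rw [hx, zero_mul, zero_sub, neg_eq_zero] at hD
        exact (mul_eq_zero.1 hD).resolve_left hy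
      apply Prod.ext
      · simp only [vadd_eq_add, Prod.fst_add, Prod.smul_fst, Prod.fst_sub, smul_eq_mul, hx]
        linarith
      · simp only [vadd_eq_add, Prod.snd_add, Prod.smul_snd, Prod.snd_sub, smul_eq_mul]
        field_simp
        ring
    · refine ⟨(z.1 - p.1) / (q.1 - p.1), ?_⟩
      apply Prod.ext
      · simp only [vadd_eq_add, Prod.fst_add, Prod.smul_fst, Prod.fst_sub, smul_eq_mul]
        field_simp
        ring
      · simp only [vadd_eq_add, Prod.snd_add, Prod.smul_snd, Prod.snd_sub, smul_eq_mul]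
        field_simp
        linarith

theorem frac_mem {u v : ℝ} (h : u * v < 0) :
    u - v ≠ 0 ∧ 0 < u / (u - v) ∧ 0 < 1 - u / (u - v) := by
  have h0 : u - v ≠ 0 := by
    intro h0
    have : u = v := by linarith
    rw [this] at h
    nlinarith [mul_self_nonneg v]
  refine ⟨h0, ?_, ?_⟩
  · have e : u / (u - v) = (u * u - u * v) / ((u - v) * (u - v)) := by
      field_simp
    rw [e]
    exact div_pos (by nlinarith [mul_self_nonneg u]) (mul_self_pos.2 h0)
  · have e : 1 - u / (u - v) = (v * v - u * v) / ((u - v) * (u - v)) := by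
      field_simp
      ring
    rw [e]
    exact div_pos (by nlinarith [mul_self_nonneg v]) (mul_self_pos.2 h0)

theorem segCross_of {a b c d : ℝ × ℝ} (h : CrossD Prod.fst Prod.snd a b c d) :
    SegCross (a, b) (c, d) := by
  obtain ⟨h1, h2⟩ := h
  obtain ⟨n1, p1, q1⟩ := frac_mem h2
  obtain ⟨n2, p2, q2⟩ := frac_mem h1
  set α := D Prod.fst Prod.snd c d a with hα
  set β := D Prod.fst Prod.snd c d b with hβ
  set γ := D Prod.fst Prod.snd a b c with hγ
  set δ := D Prod.fst Prod.snd a b d with hδ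
  have rel : γ - δ = -(α - β) := by
    simp only [hα, hβ, hγ, hδ, D]
    ring
  have hz : (1 - α / (α - β)) • a + (α / (α - β)) • b =
      (1 - γ / (γ - δ)) • c + (γ / (γ - δ)) • d := by
    rw [rel]
    apply Prod.ext
    · simp only [Prod.fst_add, Prod.smul_fst, smul_eq_mul]
      field_simp
      simp only [hα, hβ, hγ, D]
      ring
    · simp only [Prod.snd_add, Prod.smul_snd, smul_eq_mul]
      field_simp
      simp only [hα, hβ, hγ, D]
      ring
  have m1 : (1 - α / (α - β)) • a + (α / (α - β)) • b ∈ openSegment ℝ a b :=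
    ⟨_, _, q1, p1, by ring, rfl⟩
  have m2 : (1 - α / (α - β)) • a + (α / (α - β)) • b ∈ openSegment ℝ c d :=
    ⟨_, _, q2, p2, by ring, hz.symm⟩
  refine ⟨_, ?_, m1, m2⟩
  apply Set.eq_singleton_iff_unique_mem.2
  refine ⟨⟨openSegment_subset_segment ℝ _ _ m1, openSegment_subset_segment ℝ _ _ m2⟩, ?_⟩
  rintro w ⟨⟨s1, s2, _, _, hs, rfl⟩, ⟨r1, r2, _, _, hr, hw⟩⟩
  simp only at hw ⊢
  obtain rfl : s1 = 1 - s2 := by linarith
  obtain rfl : r1 = 1 - r2 := by linarith
  have w1 := congrArg Prod.fst hw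
  have w2 := congrArg Prod.snd hw
  simp only [Prod.fst_add, Prod.smul_fst, Prod.snd_add, Prod.smul_snd, smul_eq_mul] at w1 w2
  have e : (1 - s2) * α + s2 * β = 0 := by
    simp only [hα, hβ, D]
    linear_combination (d.2 - c.2) * w1 - (d.1 - c.1) * w2
  have e2 : s2 = α / (α - β) := by
    field_simp
    linarith
  rw [e2]

theorem interior_of {a b c p : ℝ × ℝ} (h : InD Prod.fst Prod.snd a b c p) :
    p ∈ interior (convexHull ℝ ({a, b, c} : Set (ℝ × ℝ))) := by
  have hopen : IsOpen {w : ℝ × ℝ | InD Prod.fst Prod.snd a b c w} := by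
    have o1 : IsOpen {w : ℝ × ℝ | 0 < D Prod.fst Prod.snd a b w * D Prod.fst Prod.snd b c w} :=
      isOpen_lt continuous_const (by unfold D; fun_prop)
    have o2 : IsOpen {w : ℝ × ℝ | 0 < D Prod.fst Prod.snd b c w * D Prod.fst Prod.snd c a w} :=
      isOpen_lt continuous_const (by unfold D; fun_prop)
    exact o1.inter o2
  refine interior_maximal ?_ hopen h
  rintro w ⟨h1, h2⟩
  set u := D Prod.fst Prod.snd b c w with hu
  set v := D Prod.fst Prod.snd c a w with hv
  set r := D Prod.fst Prod.snd a b w with hr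
  have hu0 : u ≠ 0 := by
    intro h0
    rw [h0, mul_zero] at h1
    exact lt_irrefl _ h1
  have huu := mul_self_pos.2 hu0
  have hS : 0 < u * (u + v + r) := by nlinarith
  have hS0 : u + v + r ≠ 0 := by
    intro h0
    rw [h0, mul_zero] at hS
    exact lt_irrefl _ hS
  have f : ∀ t : ℝ, 0 < u * t → 0 ≤ t / (u + v + r) := by
    intro t ht
    have : t / (u + v + r) = (u * t) / (u * (u + v + r)) := by
      field_simp
    rw [this]
    exact (div_pos ht hS).le
  have hsum := (convex_convexHull ℝ ({a, b, c} : Set (ℝ × ℝ))).sum_mem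
    (t := (Finset.univ : Finset (Fin 3)))
    (w := ![u / (u + v + r), v / (u + v + r), r / (u + v + r)]) (z := ![a, b, c])
    (by
      intro i _
      fin_cases i
      · exact f u huu
      · exact f v h2
      · exact f r (by linarith))
    (by
      simp only [Fin.sum_univ_three, Matrix.cons_val_zero, Matrix.cons_val_one, Matrix.cons_val]
      field_simp)
    (by
      intro i _
      apply subset_convexHull
      fin_cases i <;> simp)
  convert hsum using 1
  simp only [Fin.sum_univ_three, Matrix.cons_val_zero, Matrix.cons_val_one, Matrix.cons_val]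
  apply Prod.ext
  · simp only [Prod.fst_add, Prod.smul_fst, smul_eq_mul]
    field_simp
    simp only [hu, hv, hr, D]
    ring
  · simp only [Prod.snd_add, Prod.smul_snd, smul_eq_mul]
    field_simp
    simp only [hu, hv, hr, D]
    ring

theorem exists_shear (P : Finset (ℝ × ℝ)) :
    ∃ t : ℝ, Set.InjOn (fun p : ℝ × ℝ => p.1 + t * p.2) P := by
  classical
  obtain ⟨t, ht⟩ := Infinite.exists_notMem_finset
    ((P ×ˢ P).image (fun z => (z.2.1 - z.1.1) / (z.1.2 - z.2.2)))
  refine ⟨t, ?_⟩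
  intro p hp q hq h
  simp only at h
  by_cases h2 : p.2 = q.2
  · apply Prod.ext _ h2
    rw [h2] at h
    linarith
  · exfalso
    apply ht
    refine Finset.mem_image.2 ⟨(p, q), Finset.mem_product.2 ⟨hp, hq⟩, ?_⟩
    have : p.2 - q.2 ≠ 0 := sub_ne_zero.2 h2
    simp only
    field_simp
    linarith

theorem D_shear (t : ℝ) (p q r : ℝ × ℝ) :
    D (fun p : ℝ × ℝ => p.1 + t * p.2) Prod.snd p q r = D Prod.fst Prod.snd p q r := by
  unfold D
  ring

theorem quant (P : Finset (ℝ × ℝ)) (hP : GenPos P) (m : ℕ) (hm : 0 < m)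
    (hn : 4000 * (m * m * m) ≤ P.card) :
    (∃ F, CrossingFamily P F ∧ P.card ≤ 100 * F.card) ∨
      ∃ P₁ P₂ P₃ P₄, NonCrossingFamily P P₁ P₂ P₃ P₄ ∧ m ≤ P₁.card ∧ m ≤ P₂.card ∧
        m ≤ P₃.card ∧ m ≤ P₄.card := by
  obtain ⟨t, ht⟩ := exists_shear P
  by_cases hN : NC Prod.fst Prod.snd P m
  · right
    obtain ⟨P1, a1, P2, a2, P3, a3, P4, a4, d1, d2, d3, d4, d5, d6, c1, c2, c3, c4, h⟩ := hN
    refine ⟨P1, P2, P3, P4, ⟨⟨a1, a2, a3, a4⟩, ⟨?_, ?_, ?_, ?_⟩, ⟨d1, d2, d3, d4, d5, d6⟩, ?_⟩,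
      c1, c2, c3, c4⟩
    · exact Finset.card_pos.1 (by omega)
    · exact Finset.card_pos.1 (by omega)
    · exact Finset.card_pos.1 (by omega)
    · exact Finset.card_pos.1 (by omega)
    · intro a ha b hb c hc p hp
      exact interior_of (h a ha b hb c hc p hp)
  · left
    have hP' : GP (fun p : ℝ × ℝ => p.1 + t * p.2) Prod.snd P := by
      simpa only [GP, D_shear] using gp_of_genPos hP
    have hN' : ¬ NC (fun p : ℝ × ℝ => p.1 + t * p.2) Prod.snd P m := by
      simpa only [NC, InD, D_shear] using hN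
    obtain ⟨k, hk, F, h1, h2, h3⟩ := core _ _ hm hP' ht hN' hn
    refine ⟨F, ⟨h2, ?_⟩, by omega⟩
    intro s hs u hu hne
    apply segCross_of
    simpa only [CrossD, D_shear] using h3 s hs u hu hne

/-- the size of the non-crossing families -/
def ff (n : ℕ) : ℕ := max 1 (Nat.findGreatest (fun m => 4000 * (m * m * m) ≤ n) n)

theorem ff_tendsto : Tendsto ff atTop atTop := by
  rw [tendsto_atTop_atTop]
  intro M
  refine ⟨4000 * (M * M * M), fun n hn => ?_⟩
  refine le_trans ?_ (le_max_right _ _)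
  refine Nat.le_findGreatest (P := fun m => 4000 * (m * m * m) ≤ n) ?_ hn
  rcases Nat.eq_zero_or_pos M with h | h
  · omega
  · have : M ≤ M * M * M := by nlinarith [Nat.mul_le_mul_right M h, Nat.mul_pos h h]
    omega

theorem ff_spec (n : ℕ) (hn : 4000 ≤ n) : 4000 * (ff n * ff n * ff n) ≤ n := by
  have h1 : 1 ≤ Nat.findGreatest (fun m => 4000 * (m * m * m) ≤ n) n :=
    Nat.le_findGreatest (by omega) (by omega)
  unfold ff
  rw [max_eq_right h1]
  exact Nat.findGreatest_spec (P := fun m => 4000 * (m * m * m) ≤ n) (m := 1) (by omega)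
    (by omega)

theorem main : ∃ c : ℝ, 0 < c ∧ ∃ f : ℕ → ℕ, (∀ n, 1 ≤ f n) ∧ Tendsto f atTop atTop ∧
    ∀ P : Finset (ℝ × ℝ), GenPos P → 2 ≤ P.card →
      (∃ F, CrossingFamily P F ∧ c * (P.card : ℝ) ≤ (F.card : ℝ)) ∨
      (∃ P₁ P₂ P₃ P₄, NonCrossingFamily P P₁ P₂ P₃ P₄ ∧
        f P.card ≤ min (min P₁.card P₂.card) (min P₃.card P₄.card)) := by
  refine ⟨1 / 4000, by norm_num, ff, fun n => le_max_left _ _, ff_tendsto, ?_⟩
  intro P hP h2
  by_cases hn : 4000 ≤ P.card
  · rcases quant P hP (ff P.card) (le_max_left 1 _) (ff_spec _ hn) with ⟨F, h1, h3⟩ | h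
    · refine Or.inl ⟨F, h1, ?_⟩
      have : (P.card : ℝ) ≤ 100 * F.card := by exact_mod_cast h3
      have h4 : (0 : ℝ) ≤ F.card := Nat.cast_nonneg _
      linarith
    · obtain ⟨P1, P2, P3, P4, h1, a, b, c, d⟩ := h
      exact Or.inr ⟨P1, P2, P3, P4, h1, by omega⟩
  · left
    obtain ⟨p, hp, q, hq, hpq⟩ := Finset.one_lt_card.1 h2
    refine ⟨{(p, q)}, ⟨?_, ?_⟩, ?_⟩
    · intro s hs
      rw [Finset.mem_singleton.1 hs]
      exact ⟨hp, hq, hpq⟩
    · intro s hs t ht hne
      rw [Finset.mem_singleton.1 hs, Finset.mem_singleton.1 ht] at hne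
      exact absurd rfl hne
    · have : (P.card : ℝ) ≤ 4000 := by exact_mod_cast (not_le.1 hn).le
      simp only [Finset.card_singleton, Nat.cast_one]
      linarith

end Pool.Agent.H323Z.Cross
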