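import Mathlib

set_option autoImplicit false

/-! Monomial germs: the order of the iterates of `(x, y, z) ↦ (y z, x ^ 3, y ^ 4 z)`. -/

namespace Pool.Agent.H323Z.Germ

open Finset

/-- the monomial map of a matrix of exponents -/
noncomputable def mono (B : Matrix (Fin 3) (Fin 3) ℕ) (x : Fin 3 → ℂ) : Fin 3 → ℂ :=
  fun i => ∏ j, x j ^ B i j

theorem mono_comp (A B : Matrix (Fin 3) (Fin 3) ℕ) : mono A ∘ mono B = mono (A * B) := by
  funext x i
  simp only [mono, Function.comp, Matrix.mul_apply, Fin.prod_univ_three, Fin.sum_univ_three]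
  ring

theorem mono_one : mono 1 = id := by
  funext x i
  fin_cases i <;> simp [mono, Fin.prod_univ_three, Matrix.one_apply]

theorem mono_iter (A : Matrix (Fin 3) (Fin 3) ℕ) (k : ℕ) : (mono A)^[k] = mono (A ^ k) := by
  induction k with
  | zero => simp [mono_one]
  | succ k ih => rw [Function.iterate_succ', ih, mono_comp, pow_succ']

theorem mono_contDiff (B : Matrix (Fin 3) (Fin 3) ℕ) : ContDiff ℂ ⊤ (mono B) := by
  unfold mono
  rw [contDiff_pi]
  intro i
  simp only [Fin.prod_univ_three]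
  fun_prop

theorem comp_contDiff (B : Matrix (Fin 3) (Fin 3) ℕ) (i : Fin 3) :
    ContDiff ℂ ⊤ (fun x => mono B x i) := by
  unfold mono
  simp only [Fin.prod_univ_three]
  fun_prop

theorem mono_smul (B : Matrix (Fin 3) (Fin 3) ℕ) (i : Fin 3) (c : ℂ) (x : Fin 3 → ℂ) :
    mono B (c • x) i = c ^ (∑ j, B i j) * mono B x i := by
  simp only [mono, Fin.prod_univ_three, Fin.sum_univ_three, Pi.smul_apply, smul_eq_mul]
  ring

/-- a homogeneous function has only one nonzero derivative at the origin -/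
theorem deriv_zero_of_ne (g : (Fin 3 → ℂ) → ℂ) (hg : ContDiff ℂ ⊤ g) (r : ℕ)
    (hh : ∀ (c : ℂ) (x : Fin 3 → ℂ), g (c • x) = c ^ r * g x) (m : ℕ) (hm : m ≠ r) :
    iteratedFDeriv ℂ m g 0 = 0 := by
  let L : (Fin 3 → ℂ) →L[ℂ] (Fin 3 → ℂ) := (2 : ℂ) • ContinuousLinearMap.id ℂ _
  have h1 := L.iteratedFDeriv_comp_right hg (0 : Fin 3 → ℂ) (i := m) le_top
  have h2 : g ∘ L = (2 : ℂ) ^ r • g := by
    funext x
    simp only [L, Function.comp, ContinuousLinearMap.smul_apply, ContinuousLinearMap.id_apply,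
      Pi.smul_apply, smul_eq_mul]
    exact hh 2 x
  rw [h2, iteratedFDeriv_const_smul_apply (hg.contDiffAt.of_le le_top)] at h1
  ext v
  have h3 := congrArg (fun D => D v) h1
  simp only [ContinuousMultilinearMap.smul_apply,
    ContinuousMultilinearMap.compContinuousLinearMap_apply, map_zero, L,
    ContinuousLinearMap.smul_apply, ContinuousLinearMap.id_apply] at h3
  rw [ContinuousMultilinearMap.map_smul_univ] at h3
  simp only [prod_const, card_univ, Fintype.card_fin, smul_eq_mul] at h3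
  have h4 : (2 : ℂ) ^ r - 2 ^ m ≠ 0 := by
    intro h
    have h5 : ((2 ^ r : ℕ) : ℂ) = ((2 ^ m : ℕ) : ℂ) := by
      push_cast
      exact sub_eq_zero.mp h
    have h6 : 2 ^ r = 2 ^ m := by exact_mod_cast h5
    exact hm (Nat.pow_right_injective (le_refl 2) h6).symm
  have h7 : ((2 : ℂ) ^ r - 2 ^ m) * iteratedFDeriv ℂ m g 0 v = 0 := by
    rw [sub_mul, h3, sub_self]
  simpa using (mul_eq_zero.mp h7).resolve_left h4

theorem deriv_ne_zero (B : Matrix (Fin 3) (Fin 3) ℕ) (i : Fin 3) :
    iteratedFDeriv ℂ (∑ j, B i j) (fun x => mono B x i) 0 ≠ 0 := by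
  intro h
  let L : ℂ →L[ℂ] (Fin 3 → ℂ) := ContinuousLinearMap.pi (fun _ => ContinuousLinearMap.id ℂ ℂ)
  have h1 := L.iteratedFDeriv_comp_right (comp_contDiff B i) (0 : ℂ) (i := ∑ j, B i j) le_top
  have h2 : (fun x => mono B x i) ∘ L = fun t : ℂ => t ^ (∑ j, B i j) := by
    funext t
    simp only [L, Function.comp, mono, Fin.prod_univ_three, Fin.sum_univ_three,
      ContinuousLinearMap.pi_apply, ContinuousLinearMap.id_apply]
    ring
  rw [h2, map_zero, h] at h1
  have h3 : iteratedDeriv (∑ j, B i j) (fun t : ℂ => t ^ (∑ j, B i j)) 0 = 0 := by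
    rw [iteratedDeriv_eq_iteratedFDeriv, h1]
    simp
  rw [iteratedDeriv_pow] at h3
  simp [Nat.descFactorial_self, Nat.factorial_ne_zero] at h3

theorem proj_deriv (B : Matrix (Fin 3) (Fin 3) ℕ) (i : Fin 3) (m : ℕ) :
    iteratedFDeriv ℂ m (fun x => mono B x i) 0 =
      (ContinuousLinearMap.proj i : (Fin 3 → ℂ) →L[ℂ] ℂ).compContinuousMultilinearMap
        (iteratedFDeriv ℂ m (mono B) 0) := by
  have := (ContinuousLinearMap.proj i : (Fin 3 → ℂ) →L[ℂ] ℂ).iteratedFDeriv_comp_left
    ((mono_contDiff B).contDiffAt (x := 0)) (i := m) le_top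
  exact this

/-- the order of a monomial map is the least row sum -/
theorem order_mono (B : Matrix (Fin 3) (Fin 3) ℕ) (i0 : Fin 3)
    (h0 : ∀ i, ∑ j, B i0 j ≤ ∑ j, B i j) :
    sInf {m : ℕ | iteratedFDeriv ℂ m (mono B) 0 ≠ 0} = ∑ j, B i0 j := by
  have hmem : (∑ j, B i0 j) ∈ {m : ℕ | iteratedFDeriv ℂ m (mono B) 0 ≠ 0} := by
    intro h
    apply deriv_ne_zero B i0
    rw [proj_deriv, h]
    ext v
    simp
  apply le_antisymm (Nat.sInf_le hmem)
  apply le_csInf ⟨_, hmem⟩
  intro m hm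
  by_contra hlt
  apply hm
  ext v i
  have h1 := deriv_zero_of_ne (fun x => mono B x i) (comp_contDiff B i) (∑ j, B i j)
    (fun c x => mono_smul B i c x) m (by have := h0 i; omega)
  rw [proj_deriv] at h1
  have h2 := congrArg (fun D => D v) h1
  simpa using h2

/-- the matrix of exponents of the example -/
def A : Matrix (Fin 3) (Fin 3) ℕ := !![0, 1, 1; 3, 0, 0; 0, 4, 1]

/-- the degrees of the components of the iterates -/
def w (k : ℕ) (i : Fin 3) : ℕ := ∑ j, (A ^ k) i j

theorem w_zero (i : Fin 3) : w 0 i = 1 := by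
  fin_cases i <;> simp [w, Fin.sum_univ_three, Matrix.one_apply]

theorem w_succ0 (k : ℕ) : w (k + 1) 0 = w k 1 + w k 2 := by
  simp only [w, pow_succ', Matrix.mul_apply, Fin.sum_univ_three]
  simp [A]
  ring

theorem w_succ1 (k : ℕ) : w (k + 1) 1 = 3 * w k 0 := by
  simp only [w, pow_succ', Matrix.mul_apply, Fin.sum_univ_three]
  simp [A]
  ring

theorem w_succ2 (k : ℕ) : w (k + 1) 2 = 4 * w k 1 + w k 2 := by
  simp only [w, pow_succ', Matrix.mul_apply, Fin.sum_univ_three]
  simp [A]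
  ring

theorem order_iter (k : ℕ) :
    sInf {m : ℕ | iteratedFDeriv ℂ m ((mono A)^[k + 1]) 0 ≠ 0} =
      min (w (k + 1) 0) (w (k + 1) 1) := by
  rw [mono_iter]
  have h02 : w (k + 1) 0 ≤ w (k + 1) 2 := by rw [w_succ0, w_succ2]; omega
  rcases le_total (w (k + 1) 0) (w (k + 1) 1) with h | h
  · rw [min_eq_left h]
    apply order_mono _ 0
    intro i
    fin_cases i
    · exact le_refl _
    · exact h
    · exact h02
  · rw [min_eq_right h]
    apply order_mono _ 1
    intro i
    fin_cases i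
    · exact h
    · exact le_refl _
    · exact h.trans h02

/-- the subdominant eigenvalue -/
def mu : ℤ√(-2) := ⟨-1, 1⟩

theorem mu_rec (z : ℤ√(-2)) : (z * mu * mu).im = -2 * (z * mu).im - 3 * z.im := by
  simp [mu]
  ring

theorem d_eq (k : ℕ) : ((w k 1 : ℤ) - w k 0 = (mu ^ k).im) ∧
    ((w (k + 1) 1 : ℤ) - w (k + 1) 0 = (mu ^ (k + 1)).im) := by
  induction k with
  | zero =>
    rw [w_succ0, w_succ1]
    simp [w_zero, mu]
  | succ k ih =>
    refine ⟨ih.2, ?_⟩
    obtain ⟨h1, h2⟩ := ih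
    rw [pow_succ, pow_succ, mu_rec, ← pow_succ, ← h1, ← h2]
    simp only [w_succ0, w_succ1, w_succ2]
    push_cast
    ring

theorem im_mod (k : ℕ) : (mu ^ (k + 1)).im % 3 = 1 := by
  induction k with
  | zero => simp [mu]
  | succ k ih =>
    rw [pow_succ, pow_succ, mu_rec, ← pow_succ]
    omega

/-- a recurrent sequence with non-real characteristic roots is not positive -/
theorem not_pos (e : ℕ → ℝ) (s M : ℝ) (hsM : s ^ 2 < 4 * M)
    (hrec : ∀ j, e (j + 2) = s * e (j + 1) - M * e j) (hpos : ∀ j, 0 < e j) : False := by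
  have hM : 0 < M := by nlinarith [sq_nonneg s]
  let r : ℕ → ℝ := fun j => e (j + 1) / e j
  have hr : ∀ j, 0 < r j := fun j => div_pos (hpos _) (hpos _)
  have hr1 : ∀ j, r (j + 1) = s - M / r j := by
    intro j
    simp only [r]
    rw [hrec]
    have := (hpos j).ne'
    have := (hpos (j + 1)).ne'
    field_simp
  have hs : ∀ j, r (j + 1) < s := by
    intro j
    rw [hr1]
    have := div_pos hM (hr j)
    linarith
  have hs0 : 0 < s := (hr 1).trans (hs 0)
  set δ := (M - s ^ 2 / 4) / s with hδ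
  have hδ0 : 0 < δ := div_pos (by linarith) hs0
  have hstep : ∀ j, r (j + 2) ≤ r (j + 1) - δ := by
    intro j
    rw [hr1 (j + 1)]
    have h1 := hr (j + 1)
    have h2 := hs j
    set x := r (j + 1)
    have h3 : δ ≤ (M - s ^ 2 / 4) / x :=
      div_le_div_of_nonneg_left (by linarith) h1 h2.le
    have h4 : (M - s ^ 2 / 4) / x ≤ x - s + M / x := by
      rw [div_le_iff₀ h1]
      have : (x - s + M / x) * x = x ^ 2 - s * x + M := by field_simp
      rw [this]
      nlinarith [sq_nonneg (x - s / 2)]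
    linarith
  have hall : ∀ j : ℕ, r (j + 1) ≤ s - j * δ := by
    intro j
    induction j with
    | zero => simpa using (hs 0).le
    | succ j ih =>
      have := hstep j
      push_cast
      linarith
  obtain ⟨j, hj⟩ := exists_nat_gt (s / δ)
  have h1 := hall j
  have h2 := hr (j + 1)
  rw [div_lt_iff₀ hδ0] at hj
  linarith

theorem sign_not_const (a T : ℕ) (ε : ℤ)
    (h : ∀ j, 0 < ε * (mu ^ (a + (T + 1) * j)).im) : False := by
  set ν := mu ^ (T + 1) with hν
  have him : ν.im ≠ 0 := by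
    have := im_mod T
    rw [← hν] at this
    omega
  apply not_pos (fun j => ((ε * (mu ^ (a + (T + 1) * j)).im : ℤ) : ℝ)) (2 * ν.re)
    (ν.re ^ 2 + 2 * ν.im ^ 2)
  · have : (0 : ℝ) < (ν.im : ℝ) ^ 2 := by
      have : (ν.im : ℝ) ≠ 0 := by exact_mod_cast him
      positivity
    nlinarith
  · intro j
    have e1 : mu ^ (a + (T + 1) * (j + 1)) = mu ^ (a + (T + 1) * j) * ν := by
      rw [hν, ← pow_add]; congr 1; ring
    have e2 : mu ^ (a + (T + 1) * (j + 2)) = mu ^ (a + (T + 1) * j) * ν * ν := by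
      rw [hν, ← pow_add, ← pow_add]; congr 1; ring
    rw [e1, e2]
    generalize mu ^ (a + (T + 1) * j) = z
    simp only [Zsqrtd.im_mul, Zsqrtd.re_mul]
    push_cast
    ring
  · intro j
    exact_mod_cast h j

/-- the sequence of orders satisfies no linear recursion -/
theorem no_rec (c : ℕ → ℤ) (hc : ∀ k, c (k + 1) = min (w (k + 1) 0 : ℤ) (w (k + 1) 1))
    (d : ℕ) (a : Fin d → ℤ) (K : ℕ)
    (hrec : ∀ k, K ≤ k → c (k + d) = ∑ i : Fin d, a i * c (k + i)) : False := by
  let st : ℕ → (Fin d → ZMod 3) × (Fin 3 → ZMod 3) :=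
    fun k => (fun i => (c (K + k + i) : ZMod 3), fun i => (w (K + k) i : ZMod 3))
  obtain ⟨p, q, hpq, hst⟩ : ∃ p q, p < q ∧ st p = st q := by
    obtain ⟨p, q, hne, h⟩ := Finite.exists_ne_map_eq_of_infinite st
    rcases lt_or_gt_of_ne hne with h1 | h1
    · exact ⟨p, q, h1, h⟩
    · exact ⟨q, p, h1, h.symm⟩
  have hnext : ∀ u v, st u = st v → (c (K + u + d) : ZMod 3) = (c (K + v + d) : ZMod 3) := by
    intro u v h
    rw [hrec _ (by omega), hrec _ (by omega)]
    push_cast
    refine Finset.sum_congr rfl fun i _ => ?_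
    have := congrFun (congrArg Prod.fst h) i
    simp only [st] at this
    rw [this]
  have hstep : ∀ u v, st u = st v → st (u + 1) = st (v + 1) := by
    intro u v h
    have h2 : ∀ i, (w (K + u) i : ZMod 3) = (w (K + v) i : ZMod 3) :=
      fun i => congrFun (congrArg Prod.snd h) i
    refine Prod.ext ?_ ?_
    · funext i
      simp only [st]
      by_cases hi : (i : ℕ) + 1 < d
      · have := congrFun (congrArg Prod.fst h) ⟨i + 1, hi⟩
        simp only [st] at this
        rw [show K + (u + 1) + i = K + u + (i + 1) by ring,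
          show K + (v + 1) + i = K + v + (i + 1) by ring]
        exact this
      · have hd : (i : ℕ) + 1 = d := by have := i.2; omega
        rw [show K + (u + 1) + i = K + u + d by omega, show K + (v + 1) + i = K + v + d by omega]
        exact hnext u v h
    · funext i
      simp only [st]
      rw [← add_assoc, ← add_assoc]
      fin_cases i
      · simp [w_succ0, h2]
      · simp [w_succ1, h2]
      · simp [w_succ2, h2]
  have hall : ∀ n, st (p + n) = st (q + n) := by
    intro n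
    induction n with
    | zero => exact hst
    | succ n ih => exact hstep _ _ ih
  obtain ⟨T, rfl⟩ : ∃ T, q = p + (T + 1) := ⟨q - p - 1, by omega⟩
  -- from index `b` on, everything is periodic
  have hper : ∀ k, K + p + d ≤ k → ((c (k + 1 + (T + 1)) : ZMod 3) = c (k + 1)) ∧
      ∀ i, (w (k + 1 + (T + 1)) i : ZMod 3) = w (k + 1) i := by
    intro k hk
    obtain ⟨n, rfl⟩ : ∃ n, k = K + p + d + n := ⟨k - (K + p + d), by omega⟩
    constructor
    · have := hnext _ _ (hall (n + 1))
      rw [show K + p + d + n + 1 + (T + 1) = K + (p + (T + 1) + (n + 1)) + d by ring,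
        show K + p + d + n + 1 = K + (p + (n + 1)) + d by ring]
      exact this.symm
    · intro i
      have := congrFun (congrArg Prod.snd (hall (d + n + 1))) i
      simp only [st] at this
      rw [show K + p + d + n + 1 + (T + 1) = K + (p + (T + 1) + (d + n + 1)) by ring,
        show K + p + d + n + 1 = K + (p + (d + n + 1)) by ring]
      exact this.symm
  have hsign : ∀ k, K + p + d ≤ k → ∀ ε : ℤ, (ε = 1 ∨ ε = -1) → 0 < ε * (mu ^ (k + 1)).im →
      0 < ε * (mu ^ (k + 1 + (T + 1))).im := by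
    intro k hk ε hε h
    obtain ⟨h1, h2⟩ := hper k hk
    have h3 := h2 0
    have h4 := h2 1
    have h3' : ((w (k + 1 + (T + 1)) 0 : ℤ) : ZMod 3) = ((w (k + 1) 0 : ℤ) : ZMod 3) := by
      exact_mod_cast h3
    have h4' : ((w (k + 1 + (T + 1)) 1 : ℤ) : ZMod 3) = ((w (k + 1) 1 : ℤ) : ZMod 3) := by
      exact_mod_cast h4
    rw [ZMod.intCast_eq_intCast_iff'] at h1 h3' h4'
    have e1 := hc k
    have e2 := hc (k + (T + 1))
    rw [show k + (T + 1) + 1 = k + 1 + (T + 1) by ring] at e2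
    have d1 := (d_eq (k + 1)).1
    have d2 := (d_eq (k + 1 + (T + 1))).1
    have m1 := im_mod k
    have m2 := im_mod (k + (T + 1))
    rw [show k + (T + 1) + 1 = k + 1 + (T + 1) by ring] at m2
    push_cast at h1 h3' h4'
    rcases hε with rfl | rfl <;> omega
  have hfin : ∀ ε : ℤ, (ε = 1 ∨ ε = -1) → 0 < ε * (mu ^ (K + p + d + 1)).im → False := by
    intro ε hε h
    apply sign_not_const (K + p + d + 1) T ε
    intro j
    induction j with
    | zero => simpa using h
    | succ j ih =>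
      have := hsign (K + p + d + (T + 1) * j) (by omega) ε hε (by
        rw [show K + p + d + (T + 1) * j + 1 = K + p + d + 1 + (T + 1) * j by ring]
        exact ih)
      rw [show K + p + d + 1 + (T + 1) * (j + 1) = K + p + d + (T + 1) * j + 1 + (T + 1) by ring]
      exact this
  have m := im_mod (K + p + d)
  rcases lt_trichotomy (mu ^ (K + p + d + 1)).im 0 with h | h | h
  · exact hfin (-1) (Or.inr rfl) (by omega)
  · omega
  · exact hfin 1 (Or.inl rfl) (by omega)

theorem mono_A (x : Fin 3 → ℂ) : mono A x = ![x 1 * x 2, x 0 ^ 3, x 1 ^ 4 * x 2] := by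
  funext i
  fin_cases i <;> simp [mono, A, Fin.prod_univ_three]

theorem fderiv_A (z v : Fin 3 → ℂ) : fderiv ℂ (mono A) z v =
    ![z 1 * v 2 + z 2 * v 1, 3 * z 0 ^ 2 * v 0, z 1 ^ 4 * v 2 + z 2 * (4 * z 1 ^ 3 * v 1)] := by
  have hd : DifferentiableAt ℂ (mono A) z :=
    ((mono_contDiff A).differentiable (by simp)).differentiableAt
  have p : ∀ j : Fin 3, HasFDerivAt (fun x : Fin 3 → ℂ => x j)
      (ContinuousLinearMap.proj j : (Fin 3 → ℂ) →L[ℂ] ℂ) z := fun j => hasFDerivAt_apply j z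
  funext i
  have h1 : fderiv ℂ (mono A) z v i = fderiv ℂ (fun x => mono A x i) z v := by
    rw [_root_.fderiv_apply hd]
    rfl
  rw [h1]
  simp only [mono_A]
  fin_cases i
  · have := ((p 1).mul (p 2)).fderiv
    simp only [Fin.zero_eta, Matrix.cons_val_zero]
    erw [this]
    simp
  · have := ((p 0).pow 3).fderiv
    simp only [Fin.mk_one, Matrix.cons_val_one, Matrix.cons_val_zero]
    erw [this]
    simp
  · have := (((p 1).pow 4).mul (p 2)).fderiv
    simp only [Fin.reduceFinMk, Matrix.cons_val]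
    erw [this]
    simp

theorem det_zero : (fderiv ℂ (mono A) 0).det = 0 := by
  have : fderiv ℂ (mono A) 0 = 0 := by
    ext1 v
    rw [fderiv_A]
    funext i
    fin_cases i <;> simp
  rw [this]
  simp [ContinuousLinearMap.det]

theorem det_ne (t : ℂ) (ht : t ≠ 0) : (fderiv ℂ (mono A) (fun _ => t)).det ≠ 0 := by
  intro h
  have h1 : LinearMap.ker (fderiv ℂ (mono A) (fun _ => t) : (Fin 3 → ℂ) →ₗ[ℂ] (Fin 3 → ℂ)) ≠ ⊥ :=
    LinearMap.det_eq_zero_iff_ker_ne_bot.mp h
  apply h1
  rw [LinearMap.ker_eq_bot']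
  intro v hv
  have hv' : fderiv ℂ (mono A) (fun _ => t) v = 0 := hv
  rw [fderiv_A] at hv'
  have a0 := congrFun hv' 0
  have a1 := congrFun hv' 1
  have a2 := congrFun hv' 2
  simp only [Matrix.cons_val_zero, Matrix.cons_val_one, Matrix.cons_val, Pi.zero_apply] at a0 a1 a2
  have b0 : v 0 = 0 := by
    have : t ^ 2 * v 0 = 0 := by linear_combination a1 / 3
    simpa [ht] using this
  have b1 : v 1 = 0 := by
    have : t ^ 4 * v 1 = 0 := by linear_combination (a2 - t ^ 3 * a0) / 3
    simpa [ht] using this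
  have b2 : v 2 = 0 := by
    have : t * v 2 = 0 := by rw [b1] at a0; linear_combination a0
    simpa [ht] using this
  funext i
  fin_cases i
  · exact b0
  · exact b1
  · exact b2

theorem main : ¬ (∀ (n : ℕ) (f : (Fin n → ℂ) → (Fin n → ℂ)),
      AnalyticAt ℂ f 0 → f 0 = 0 →
      (fderiv ℂ f 0).det = 0 →
      (∀ ε : ℝ, 0 < ε → ∃ z : Fin n → ℂ, ‖z‖ < ε ∧ (fderiv ℂ f z).det ≠ 0) →
      ∃ (d : ℕ) (a : Fin d → ℤ) (K : ℕ), ∀ k : ℕ, K ≤ k →
        ((sInf {m : ℕ | iteratedFDeriv ℂ m (f^[k + d]) 0 ≠ 0} : ℕ) : ℤ) =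
          ∑ i : Fin d, a i *
            ((sInf {m : ℕ | iteratedFDeriv ℂ m (f^[k + (i : ℕ)]) 0 ≠ 0} : ℕ) : ℤ)) := by
  intro h
  obtain ⟨d, a, K, hrec⟩ := h 3 (mono A) ((mono_contDiff A).contDiffAt.analyticAt)
    (by rw [mono_A]; funext i; fin_cases i <;> simp) det_zero (by
      intro ε hε
      refine ⟨fun _ => ((ε / 2 : ℝ) : ℂ), ?_, det_ne _ ?_⟩
      · rw [pi_norm_const, Complex.norm_real, Real.norm_eq_abs, abs_of_pos (by linarith)]
        linarith
      · exact_mod_cast (by linarith : ε / 2 ≠ 0))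
  apply no_rec (fun k => ((sInf {m : ℕ | iteratedFDeriv ℂ m ((mono A)^[k]) 0 ≠ 0} : ℕ) : ℤ))
    _ d a K hrec
  intro k
  simp only [order_iter]
  push_cast
  rfl

end Pool.Agent.H323Z.Germ
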