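import Pool.Agent.H323Z.MCDefs

set_option autoImplicit false

namespace Pool.Agent.H323Z.MC

section general

variable {X : Type}

@[simp] lemma wedge_nil : wedge ([] : List X) = 1 := by simp [wedge]

@[simp] lemma wedge_cons (x : X) (l : List X) : wedge (x :: l) = vtx x * wedge l := by
  simp [wedge]

lemma contr_vtx_mul (φ : X → ℤ) (x : X) (w : Ext X) :
    contr φ (vtx x * w) = φ x • w - vtx x * contr φ w := by
  unfold contr vtx
  rw [CliffordAlgebra.contractLeft_ι_mul]
  simp

@[simp] lemma contr_one (φ : X → ℤ) : contr φ (1 : Ext X) = 0 :=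
  CliffordAlgebra.contractLeft_one _ _

lemma contr_comm (φ ψ : X → ℤ) (w : Ext X) : contr φ (contr ψ w) = -contr ψ (contr φ w) :=
  CliffordAlgebra.contractLeft_comm _ _ _

lemma bd_vtx_mul (x : X) (w : Ext X) : bd (vtx x * w) = w - vtx x * bd w := by
  rw [bd, contr_vtx_mul, one_smul]

@[simp] lemma bd_one : bd (1 : Ext X) = 0 := contr_one _

lemma vtx_sq (x : X) : vtx x * vtx x = 0 := ExteriorAlgebra.ι_sq_zero _

lemma vtx_swap (x y : X) (w : Ext X) : vtx x * (vtx y * w) = -(vtx y * (vtx x * w)) := by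
  have h := ExteriorAlgebra.ι_add_mul_swap (R := ℤ) (Finsupp.single x (1 : ℤ)) (Finsupp.single y 1)
  rw [← mul_assoc, ← mul_assoc, ← neg_mul]
  congr 1
  exact eq_neg_of_add_eq_zero_left h

lemma vtx_mul_wedge (e : X) (l : List X) (h : e ∈ l) : vtx e * wedge l = 0 := by
  induction l with
  | nil => simp at h
  | cons x l ih =>
    rw [wedge_cons]
    rcases List.mem_cons.1 h with rfl | h
    · rw [← mul_assoc, vtx_sq, zero_mul]
    · rw [vtx_swap, ih h]; simp

/-- relabelling of vertices -/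
noncomputable def rel (f : X → X) : Ext X →ₐ[ℤ] Ext X :=
  ExteriorAlgebra.map (Finsupp.lmapDomain ℤ ℤ f)

lemma rel_vtx (f : X → X) (x : X) : rel f (vtx x) = vtx (f x) := by
  simp [rel, vtx]

lemma rel_wedge (f : X → X) (l : List X) : rel f (wedge l) = wedge (l.map f) := by
  induction l with
  | nil => simp
  | cons x l ih => simp [rel_vtx, ih]

lemma bd_rel (f : X → X) (w : Ext X) : bd (rel f w) = rel f (bd w) := by
  induction w using CliffordAlgebra.left_induction with
  | algebraMap r =>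
    rw [AlgHom.commutes]
    unfold bd contr
    rw [CliffordAlgebra.contractLeft_algebraMap, map_zero]
  | add x y hx hy => simp only [map_add, hx, hy]
  | ι_mul x m ih =>
    have h1 : rel f (CliffordAlgebra.ι 0 m) = CliffordAlgebra.ι 0 (Finsupp.lmapDomain ℤ ℤ f m) :=
      ExteriorAlgebra.map_apply_ι _ _
    rw [map_mul, h1]
    unfold bd contr at ih ⊢
    rw [CliffordAlgebra.contractLeft_ι_mul, CliffordAlgebra.contractLeft_ι_mul, ih, map_sub,
      map_mul, h1, map_smul]
    congr 2
    simp [Finsupp.linearCombination_mapDomain, Function.comp_def]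

lemma rel_rel (f g : X → X) (h : ∀ x, f (g x) = x) (w : Ext X) : rel f (rel g w) = w := by
  have : (rel f).comp (rel g) = AlgHom.id ℤ _ := by
    unfold rel
    rw [ExteriorAlgebra.map_comp_map, ← Finsupp.lmapDomain_comp,
      show f ∘ g = id from funext h, Finsupp.lmapDomain_id, ExteriorAlgebra.map_id]
  exact AlgHom.congr_fun this w

/-- kill the vertices with property `p` -/
noncomputable def kill (p : X → Prop) [DecidablePred p] : Ext X →ₐ[ℤ] Ext X :=
  ExteriorAlgebra.map (Finsupp.linearCombination ℤ fun x => if p x then 0 else Finsupp.single x 1)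

lemma kill_vtx (p : X → Prop) [DecidablePred p] (x : X) :
    kill p (vtx x) = if p x then 0 else vtx x := by
  unfold kill vtx
  rw [ExteriorAlgebra.map_apply_ι]
  split_ifs with h <;> simp [h]

lemma kill_wedge (p : X → Prop) [DecidablePred p] (l : List X) (h : ∃ x ∈ l, p x) :
    kill p (wedge l) = 0 := by
  induction l with
  | nil => simp at h
  | cons x l ih =>
    rw [wedge_cons, map_mul, kill_vtx]
    split_ifs with hx
    · simp
    · obtain ⟨y, hy, hp⟩ := h
      rcases List.mem_cons.1 hy with rfl | hy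
      · exact absurd hp hx
      · rw [ih ⟨y, hy, hp⟩, mul_zero]

lemma fix_wedge (Φ : Ext X →ₐ[ℤ] Ext X) (l : List X) (h : ∀ x ∈ l, Φ (vtx x) = vtx x) :
    Φ (wedge l) = wedge l ∧ Φ (bd (wedge l)) = bd (wedge l) := by
  induction l with
  | nil => simp
  | cons x l ih =>
    have h1 := ih fun y hy => h y (List.mem_cons_of_mem _ hy)
    have h2 := h x List.mem_cons_self
    rw [wedge_cons, bd_vtx_mul, map_sub, map_mul, map_mul, h1.1, h1.2, h2]
    exact ⟨rfl, rfl⟩

lemma contr_mem (φ : X → ℤ) (l : List X) : ∀ T : Submodule ℤ (Ext X),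
    (∀ l₁ x l₂, l = l₁ ++ x :: l₂ → φ x ≠ 0 → wedge (l₁ ++ l₂) ∈ T) → contr φ (wedge l) ∈ T := by
  induction l with
  | nil => intro T _; simp
  | cons x l ih =>
    intro T h
    rw [wedge_cons, contr_vtx_mul]
    refine T.sub_mem ?_ ?_
    · rcases eq_or_ne (φ x) 0 with h0 | h0
      · simp [h0]
      · exact T.smul_mem _ (h [] x l rfl h0)
    · exact ih (T.comap (LinearMap.mulLeft ℤ (vtx x))) fun l₁ y l₂ hl hy => by
        have := h (x :: l₁) y l₂ (by simp [hl]) hy
        simpa using this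

variable [DecidableEq X]

lemma chains_le {K : Set (Finset X)} {d : ℤ} (T : Submodule ℤ (Ext X))
    (h : ∀ l : List X, l.Nodup → l.toFinset ∈ K → (l.length : ℤ) = d + 1 → wedge l ∈ T) :
    chains K d ≤ T := by
  refine Submodule.span_le.2 ?_
  rintro _ ⟨l, h1, h2, h3, rfl⟩
  exact h l h1 h2 h3

lemma chains_mono {K K' : Set (Finset X)} (h : K ⊆ K') (d : ℤ) : chains K d ≤ chains K' d :=
  chains_le _ fun l h1 h2 h3 => Submodule.subset_span ⟨l, h1, h h2, h3, rfl⟩

lemma contr_del {K : Set (Finset X)} {e : X} {d : ℤ} {w : Ext X}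
    (hw : w ∈ chains (deletion K e) d) : contr (dual e) w = 0 := by
  refine (chains_le (LinearMap.ker (contr (dual e))) fun l _ h2 _ => ?_) hw
  refine contr_mem (dual e) l ⊥ fun l₁ x l₂ hl hx => absurd ?_ h2.2
  have : x = e := by by_contra h; simp [dual, h] at hx
  simp [hl, this]

lemma sub_mem_del {K : Set (Finset X)} (e : X) {d : ℤ} {w : Ext X} (hw : w ∈ chains K d) :
    w - vtx e * contr (dual e) w ∈ chains (deletion K e) d := by
  refine (chains_le ((chains (deletion K e) d).comap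
    (LinearMap.id - LinearMap.mulLeft ℤ (vtx e) ∘ₗ contr (dual e))) fun l h1 h2 h3 => ?_) hw
  show wedge l - vtx e * contr (dual e) (wedge l) ∈ chains (deletion K e) d
  by_cases he : e ∈ l
  · have h := contr_vtx_mul (dual e) e (wedge l)
    rw [vtx_mul_wedge e l he, map_zero] at h
    simp only [dual, if_true, one_smul] at h
    have h' : wedge l - vtx e * contr (dual e) (wedge l) = 0 := h.symm
    rw [h']; exact Submodule.zero_mem _
  · have hm : wedge l ∈ chains (deletion K e) d :=
      Submodule.subset_span ⟨l, h1, ⟨h2, by simpa using he⟩, h3, rfl⟩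
    rw [contr_del hm, mul_zero, sub_zero]; exact hm

/-- the induced map on homology -/
lemma exists_induced {K K' : Set (Finset X)} {d d' : ℤ} (f : Ext X →ₗ[ℤ] Ext X)
    (h1 : ∀ z ∈ cycles K d, f z ∈ cycles K' d')
    (h2 : ∀ w ∈ chains K (d + 1), ∃ w' ∈ chains K' (d' + 1), bd w' = f (bd w)) :
    ∃ F : HomologyMap K d K' d', Induces f F := by
  refine ⟨(Submodule.mapQ _ _ (f.restrict h1) ?_).toAddMonoidHom,
    fun z => ⟨⟨f z, h1 z z.2⟩, rfl, rfl⟩⟩
  rintro z ⟨w, hw, hz⟩
  obtain ⟨w', hw', h⟩ := h2 w hw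
  refine ⟨w', hw', ?_⟩
  rw [h, hz]; rfl

lemma mk_eq_mk {K : Set (Finset X)} {d : ℤ} (z z' : cycles K d) :
    (Submodule.Quotient.mk z : Homology K d) = Submodule.Quotient.mk z' ↔
      ∃ w ∈ chains K (d + 1), bd w = z - z' := by
  rw [Submodule.Quotient.eq]; rfl

lemma mk_eq_zero {K : Set (Finset X)} {d : ℤ} (z : cycles K d) :
    (Submodule.Quotient.mk z : Homology K d) = 0 ↔ ∃ w ∈ chains K (d + 1), bd w = z := by
  rw [Submodule.Quotient.mk_eq_zero]; rfl

/-- Abstract splitting: a null-homotopy of the inclusion of the link into the deletion. -/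
theorem split_of_homotopy (K L : Set (Finset X)) (e : X) (h : Ext X →ₗ[ℤ] Ext X)
    (hL : L ⊆ deletion K e)
    (hcone : ∀ d, ∀ w ∈ chains L d, vtx e * w ∈ chains K (d + 1))
    (hlink : ∀ d, ∀ w ∈ chains K (d + 1), contr (dual e) w ∈ chains L d)
    (hmem : ∀ d, ∀ w ∈ chains L d, h w ∈ chains (deletion K e) (d + 1))
    (hbd : ∀ d, ∀ w ∈ chains L d, bd (h w) = w - h (bd w)) (d : ℤ) :
    DeletionSequenceSplits K L e d := by
  have hsub : deletion K e ⊆ K := fun σ hσ => hσ.1
  have hanti : ∀ w : Ext X, bd (contr (dual e) w) = -contr (dual e) (bd w) := fun w =>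
    contr_comm _ _ w
  set S : Ext X →ₗ[ℤ] Ext X := LinearMap.mulLeft ℤ (vtx e) - h with hS
  have hSapp : ∀ w, S w = vtx e * w - h w := fun w => rfl
  have hSmem : ∀ d, ∀ w ∈ chains L d, S w ∈ chains K (d + 1) := fun d w hw =>
    Submodule.sub_mem _ (hcone d w hw) (chains_mono hsub _ (hmem d w hw))
  have hSbd : ∀ d, ∀ w ∈ chains L d, bd (S w) = -S (bd w) := fun d w hw => by
    rw [hSapp, hSapp, map_sub, bd_vtx_mul, hbd d w hw]; abel
  have hSsec : ∀ d, ∀ w ∈ chains L d, contr (dual e) (S w) = w := fun d w hw => by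
    rw [hSapp, map_sub, contr_vtx_mul, contr_del (hmem d w hw), contr_del (chains_mono hL d hw)]
    simp [dual]
  have hd : d - 1 + 1 = d := by ring
  obtain ⟨i, hi⟩ := exists_induced (K := deletion K e) (K' := K) (d := d) (d' := d) LinearMap.id
    (fun z hz => ⟨chains_mono hsub d hz.1, hz.2⟩) (fun w hw => ⟨w, chains_mono hsub _ hw, rfl⟩)
  obtain ⟨p, hp⟩ := exists_induced (K := K) (K' := L) (d := d) (d' := d - 1) (contr (dual e))
    (fun z hz => ⟨hlink _ z (hd.symm ▸ hz.1), by
      have : bd z = 0 := hz.2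
      show bd _ = 0
      rw [hanti, this, map_zero, neg_zero]⟩)
    (fun w hw => ⟨-contr (dual e) w, by rw [hd]; exact Submodule.neg_mem _ (hlink d w hw), by
      rw [map_neg, hanti, neg_neg]⟩)
  obtain ⟨s, hs⟩ := exists_induced (K := L) (K' := K) (d := d - 1) (d' := d) S
    (fun z hz => ⟨hd ▸ hSmem _ z hz.1, by
      have : bd z = 0 := hz.2
      show bd _ = 0
      rw [hSbd _ z hz.1, this, map_zero, neg_zero]⟩)
    (fun w hw => ⟨-S w, Submodule.neg_mem _ (hSmem d w (hd ▸ hw)), by
      rw [map_neg, hSbd _ w hw, neg_neg]⟩)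
  have hps : ∀ x, p (s x) = x := by
    intro x
    obtain ⟨z, rfl⟩ := Submodule.Quotient.mk_surjective _ x
    obtain ⟨z', hz', hsz⟩ := hs z
    obtain ⟨z'', hz'', hpz⟩ := hp z'
    rw [hsz, hpz]
    congr 1
    exact Subtype.ext (by rw [hz'', hz', hSsec _ _ z.2.1])
  refine ⟨i, p, hi, hp, ?_, ?_, fun x => ⟨s x, hps x⟩, s, hps⟩
  · rw [injective_iff_map_eq_zero]
    intro x hx
    obtain ⟨z, rfl⟩ := Submodule.Quotient.mk_surjective _ x
    obtain ⟨z', hz', hiz⟩ := hi z
    rw [hiz, mk_eq_zero] at hx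
    obtain ⟨w, hw, hwz⟩ := hx
    rw [hz'] at hwz
    have hwz' : bd w = z := hwz
    have h1 : contr (dual e) w ∈ chains L d := hlink d w hw
    have h2 : bd (contr (dual e) w) = 0 := by rw [hanti, hwz', contr_del z.2.1, neg_zero]
    have h3 := sub_mem_del e (Submodule.sub_mem _ hw (hSmem d _ h1))
    rw [map_sub, hSsec d _ h1, sub_self, mul_zero, sub_zero] at h3
    rw [mk_eq_zero]
    exact ⟨_, h3, by rw [map_sub, hSbd d _ h1, h2, hwz']; simp⟩
  · intro y
    obtain ⟨z, rfl⟩ := Submodule.Quotient.mk_surjective _ y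
    obtain ⟨z', hz', hpz⟩ := hp z
    constructor
    · intro h0
      rw [hpz, mk_eq_zero, hz', hd] at h0
      obtain ⟨u, hu, huz⟩ := h0
      have hzc : bd (z : Ext X) = 0 := z.2.2
      have h1 : (z : Ext X) + bd (vtx e * u) ∈ cycles (deletion K e) d := by
        refine ⟨?_, ?_⟩
        · rw [bd_vtx_mul, huz, show (z : Ext X) + (u - vtx e * contr (dual e) z)
            = (z - vtx e * contr (dual e) z) + u by abel]
          exact Submodule.add_mem _ (sub_mem_del e z.2.1) (chains_mono hL d hu)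
        · show bd _ = 0
          rw [map_add, hzc, zero_add]
          exact CliffordAlgebra.contractLeft_contractLeft _ _
      obtain ⟨z'', hz'', hiz⟩ := hi ⟨_, h1⟩
      refine ⟨Submodule.Quotient.mk ⟨_, h1⟩, ?_⟩
      rw [hiz, mk_eq_mk]
      exact ⟨vtx e * u, hcone d u hu, by rw [hz'']; simp⟩
    · rintro ⟨x, hx⟩
      obtain ⟨t, rfl⟩ := Submodule.Quotient.mk_surjective _ x
      obtain ⟨t', ht', hit⟩ := hi t
      obtain ⟨t'', ht'', hpt⟩ := hp t'
      rw [← hx, hit, hpt, mk_eq_zero]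
      refine ⟨0, Submodule.zero_mem _, ?_⟩
      rw [ht'', ht', map_zero]
      exact (contr_del t.2.1).symm

end general

end Pool.Agent.H323Z.MC
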