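import Pool.Agent.H323Z.MCA

set_option autoImplicit false

namespace Pool.Agent.H323Z.MC

variable {V : Type} [DecidableEq V]

/-- lists of pairwise disjoint edges inside `W` -/
def Good (W : Finset V) (l : List (Finset V)) : Prop :=
  (∀ x ∈ l, x.card = 2 ∧ x ⊆ W) ∧ l.Pairwise Disjoint

lemma good_iff (W : Finset V) (l : List (Finset V)) :
    (l.Nodup ∧ l.toFinset ∈ matchingComplex W) ↔ Good W l := by
  constructor
  · rintro ⟨h1, h2, h3⟩
    refine ⟨fun x hx => h2 x (List.mem_toFinset.2 hx), ?_⟩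
    exact List.Pairwise.imp_of_mem (fun {x y} hx hy hxy =>
      h3 x (List.mem_toFinset.2 hx) y (List.mem_toFinset.2 hy) hxy) h1
  · rintro ⟨h1, h2⟩
    refine ⟨List.Pairwise.imp_of_mem (fun {x y} hx _ hxy h => ?_) h2,
      fun x hx => h1 x (List.mem_toFinset.1 hx), fun x hx y hy hxy => ?_⟩
    · subst h
      have := (h1 x hx).1
      rw [disjoint_self.1 hxy] at this
      simp at this
    · have : Std.Symm (Disjoint : Finset V → Finset V → Prop) := ⟨fun _ _ h => Disjoint.symm h⟩
      exact h2.forall (List.mem_toFinset.1 hx) (List.mem_toFinset.1 hy) hxy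

omit [DecidableEq V] in
lemma good_cons {W : Finset V} {x : Finset V} {l : List (Finset V)} :
    Good W (x :: l) ↔ (x.card = 2 ∧ x ⊆ W) ∧ (∀ y ∈ l, Disjoint x y) ∧ Good W l := by
  simp only [Good, List.mem_cons, forall_eq_or_imp, List.pairwise_cons]
  tauto

lemma chainsM_le {W : Finset V} {d : ℤ} (T : Submodule ℤ (Ext (Finset V)))
    (h : ∀ l, Good W l → (l.length : ℤ) = d + 1 → wedge l ∈ T) :
    chains (matchingComplex W) d ≤ T :=
  chains_le T fun l h1 h2 h3 => h l ((good_iff W l).1 ⟨h1, h2⟩) h3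

lemma mem_chainsM {W : Finset V} {d : ℤ} {l : List (Finset V)} (h : Good W l)
    (hl : (l.length : ℤ) = d + 1) : wedge l ∈ chains (matchingComplex W) d :=
  Submodule.subset_span ⟨l, ((good_iff W l).2 h).1, ((good_iff W l).2 h).2, hl, rfl⟩

lemma mem_chainsD {W : Finset V} {d : ℤ} {l : List (Finset V)} {e : Finset V} (h : Good W l)
    (he : e ∉ l) (hl : (l.length : ℤ) = d + 1) :
    wedge l ∈ chains (deletion (matchingComplex W) e) d :=
  Submodule.subset_span ⟨l, ((good_iff W l).2 h).1,
    ⟨((good_iff W l).2 h).2, by simpa using he⟩, hl, rfl⟩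

/-- transposition acting on chains -/
noncomputable def sw (a c : V) : Ext (Finset V) →ₐ[ℤ] Ext (Finset V) :=
  rel (Finset.image (Equiv.swap a c))

/-- projection killing the edges through `c` -/
noncomputable def pr (c : V) : Ext (Finset V) →ₐ[ℤ] Ext (Finset V) := kill fun x => c ∈ x

lemma image_swap_fix {a c : V} {x : Finset V} (ha : a ∉ x) (hc : c ∉ x) :
    x.image (Equiv.swap a c) = x := by
  conv_rhs => rw [← Finset.image_id (s := x)]
  refine Finset.image_congr fun y hy => ?_
  exact Equiv.swap_apply_of_ne_of_ne (fun h => ha (h ▸ hy)) (fun h => hc (h ▸ hy))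

/-- the defect in the commutator formula -/
noncomputable def defect (a c : V) (w : Ext (Finset V)) : Ext (Finset V) :=
  pr c w + vtx {a, c} * (pr c (bd w) - bd (pr c w)) - sw a c w

lemma defect_free (a c : V) (l : List (Finset V)) (ha : ∀ y ∈ l, a ∉ y) (hc : ∀ y ∈ l, c ∉ y) :
    defect a c (wedge l) = 0 := by
  have h1 := fix_wedge (pr c) l fun y hy => by rw [pr, kill_vtx, if_neg (hc y hy)]
  have h2 := fix_wedge (sw a c) l fun y hy => by
    rw [sw, rel_vtx, image_swap_fix (ha y hy) (hc y hy)]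
  rw [defect, h1.1, h1.2, h2.1]; simp

lemma defect_cons_ne (a c : V) (x : Finset V) (w : Ext (Finset V)) (ha : a ∉ x) (hc : c ∉ x) :
    defect a c (vtx x * w) = vtx x * defect a c w := by
  have h1 : pr c (vtx x) = vtx x := by rw [pr, kill_vtx, if_neg hc]
  have h2 : sw a c (vtx x) = vtx x := by rw [sw, rel_vtx, image_swap_fix ha hc]
  simp only [defect, bd_vtx_mul, map_mul, map_sub, h1, h2, mul_sub, mul_add,
    vtx_swap x ({a, c} : Finset V)]
  abel

lemma defect_cons_mem (a u v : V) (l : List (Finset V)) (hav : a ≠ v) (huv : u ≠ v)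
    (ha : ∀ y ∈ l, a ∉ y) (hu : ∀ y ∈ l, u ∉ y) :
    defect a u (vtx {u, v} * wedge l) = vtx {a, u} * wedge l - vtx {a, v} * wedge l := by
  have h1 := fix_wedge (pr u) l fun y hy => by rw [pr, kill_vtx, if_neg (hu y hy)]
  have h2 := fix_wedge (sw a u) l fun y hy => by
    rw [sw, rel_vtx, image_swap_fix (ha y hy) (hu y hy)]
  have h3 : pr u (vtx ({u, v} : Finset V)) = 0 := by rw [pr, kill_vtx, if_pos (by simp)]
  have h4 : sw a u (vtx ({u, v} : Finset V)) = vtx {a, v} := by
    rw [sw, rel_vtx]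
    simp [Equiv.swap_apply_of_ne_of_ne hav.symm huv.symm]
  simp only [defect, bd_vtx_mul, map_mul, map_sub, h1.1, h2.1, h3, h4, zero_mul, map_zero,
    sub_zero, zero_add]

lemma sum_defect (a : V) (S : Finset V) (haS : a ∉ S) (l : List (Finset V)) (hl : Good S l) :
    ∑ c ∈ S, defect a c (wedge l) = 0 := by
  induction l with
  | nil => exact Finset.sum_eq_zero fun c _ => defect_free a c [] (by simp) (by simp)
  | cons x l ih =>
    obtain ⟨⟨hx2, hxS⟩, hdis, hl'⟩ := good_cons.1 hl
    obtain ⟨u, v, huv, rfl⟩ := Finset.card_eq_two.1 hx2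
    have huS : u ∈ S := hxS (by simp)
    have hvS : v ∈ S := hxS (by simp)
    have hau : a ≠ u := fun h => haS (h ▸ huS)
    have hav : a ≠ v := fun h => haS (h ▸ hvS)
    have ha : ∀ y ∈ l, a ∉ y := fun y hy h => haS ((hl'.1 y hy).2 h)
    have hu : ∀ y ∈ l, u ∉ y := fun y hy => Finset.disjoint_left.1 (hdis y hy) (by simp)
    have hv : ∀ y ∈ l, v ∉ y := fun y hy => Finset.disjoint_left.1 (hdis y hy) (by simp)
    have key : ∀ c ∈ S, defect a c (wedge ({u, v} :: l)) = vtx {u, v} * defect a c (wedge l)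
        + ((if c = u then vtx {a, u} * wedge l - vtx {a, v} * wedge l else 0)
        + (if c = v then vtx {a, v} * wedge l - vtx {a, u} * wedge l else 0)) := by
      intro c _
      rw [wedge_cons]
      by_cases hcu : c = u
      · subst hcu
        rw [defect_cons_mem a c v l hav huv ha hu, defect_free a c l ha hu]
        simp [huv]
      · by_cases hcv : c = v
        · subst hcv
          rw [Finset.pair_comm u c, defect_cons_mem a c u l hau huv.symm ha hv,
            defect_free a c l ha hv]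
          simp [hcu]
        · rw [defect_cons_ne a c _ _ (by simp [hau, hav]) (by simp [hcu, hcv])]
          simp [hcu, hcv]
    rw [Finset.sum_congr rfl key, Finset.sum_add_distrib, Finset.sum_add_distrib,
      ← Finset.mul_sum, ih hl', Finset.sum_ite_eq', Finset.sum_ite_eq', if_pos huS, if_pos hvS]
    simp

/-- add an edge from `a` to a free vertex of `S` -/
noncomputable def delta (a : V) (S : Finset V) : Ext (Finset V) →ₗ[ℤ] Ext (Finset V) :=
  ∑ c ∈ S, LinearMap.mulLeft ℤ (vtx {a, c}) ∘ₗ (pr c).toLinearMap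

lemma delta_apply (a : V) (S : Finset V) (w : Ext (Finset V)) :
    delta a S w = ∑ c ∈ S, vtx {a, c} * pr c w := by
  simp [delta, LinearMap.sum_apply]

lemma bd_delta (a : V) (S : Finset V) (haS : a ∉ S) (d : ℤ) (w : Ext (Finset V))
    (hw : w ∈ chains (matchingComplex S) d) :
    bd (delta a S w) + delta a S (bd w) = ∑ c ∈ S, sw a c w := by
  have h := chainsM_le (W := S) (d := d) (LinearMap.eqLocus (bd ∘ₗ delta a S + delta a S ∘ₗ bd)
    (∑ c ∈ S, (sw a c).toLinearMap)) (fun l hl _ => by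
      have h1 := sum_defect a S haS l hl
      simp only [LinearMap.mem_eqLocus, LinearMap.add_apply, LinearMap.comp_apply,
        LinearMap.sum_apply, AlgHom.toLinearMap_apply, delta_apply, map_sum, bd_vtx_mul]
      rw [← sub_eq_zero, ← h1, ← Finset.sum_add_distrib, ← Finset.sum_sub_distrib]
      refine Finset.sum_congr rfl fun c _ => ?_
      rw [defect, mul_sub]; abel) hw
  simpa only [LinearMap.mem_eqLocus, LinearMap.add_apply, LinearMap.comp_apply,
    LinearMap.sum_apply, AlgHom.toLinearMap_apply] using h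

/-- the null-homotopy -/
noncomputable def hom (a b c₀ : V) (S : Finset V) : Ext (Finset V) →ₗ[ℤ] Ext (Finset V) :=
  (sw a c₀).toLinearMap ∘ₗ delta a S - ∑ c ∈ S.erase c₀,
    LinearMap.mulLeft ℤ (vtx {b, c}) ∘ₗ (sw a c₀).toLinearMap ∘ₗ (sw a c).toLinearMap

lemma hom_apply (a b c₀ : V) (S : Finset V) (w : Ext (Finset V)) :
    hom a b c₀ S w = sw a c₀ (delta a S w) - ∑ c ∈ S.erase c₀, vtx {b, c} * sw a c₀ (sw a c w) := by
  simp [hom, LinearMap.sum_apply]

lemma bd_sw (a c : V) (w : Ext (Finset V)) : bd (sw a c w) = sw a c (bd w) := bd_rel _ w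

lemma sw_sw (a c : V) (w : Ext (Finset V)) : sw a c (sw a c w) = w :=
  rel_rel _ _ (fun x => by simp [Finset.image_image, Function.comp_def]) w

lemma bd_hom (a b c₀ : V) (S : Finset V) (haS : a ∉ S) (hc₀ : c₀ ∈ S) (d : ℤ)
    (w : Ext (Finset V)) (hw : w ∈ chains (matchingComplex S) d) :
    bd (hom a b c₀ S w) = w - hom a b c₀ S (bd w) := by
  have h1 := congrArg (sw a c₀) (bd_delta a S haS d w hw)
  rw [map_add, ← Finset.add_sum_erase S _ hc₀, map_add, sw_sw, map_sum, ← bd_sw] at h1
  rw [hom_apply, hom_apply, map_sub, map_sum, eq_sub_of_add_eq h1]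
  simp only [bd_vtx_mul, bd_sw, Finset.sum_sub_distrib]
  abel

lemma good_map [Fintype V] (g : Equiv.Perm V) {W : Finset V} {l : List (Finset V)}
    (h : Good W l) : Good Finset.univ (l.map (Finset.image g)) := by
  refine ⟨fun x hx => ?_, ?_⟩
  · obtain ⟨y, hy, rfl⟩ := List.mem_map.1 hx
    exact ⟨by rw [Finset.card_image_of_injective _ g.injective, (h.1 y hy).1], Finset.subset_univ _⟩
  · rw [List.pairwise_map]
    exact h.2.imp fun hxy => (Finset.disjoint_image g.injective).2 hxy

lemma mem_image_swap {a c t : V} {y : Finset V} :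
    t ∈ y.image (Equiv.swap a c) ↔ Equiv.swap a c t ∈ y := by
  constructor
  · intro h
    obtain ⟨s, hs, rfl⟩ := Finset.mem_image.1 h
    simpa using hs
  · intro h
    exact Finset.mem_image.2 ⟨_, h, by simp⟩

lemma hom_mem [Fintype V] (a b c₀ : V) (hab : a ≠ b) (hc₀ : c₀ ∈ ({a, b} : Finset V)ᶜ) (d : ℤ)
    (w : Ext (Finset V)) (hw : w ∈ chains (matchingComplex ({a, b} : Finset V)ᶜ) d) :
    hom a b c₀ {a, b}ᶜ w ∈ chains (deletion (matchingComplex Finset.univ) {a, b}) (d + 1) := by
  refine (chainsM_le ((chains (deletion (matchingComplex Finset.univ) {a, b}) (d + 1)).comap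
    (hom a b c₀ {a, b}ᶜ)) fun l hl hlen => ?_) hw
  have hne : ∀ c ∈ ({a, b} : Finset V)ᶜ, c ≠ a ∧ c ≠ b := fun c hc => by simpa using hc
  have ha : ∀ y ∈ l, a ∉ y := fun y hy h => (hne a ((hl.1 y hy).2 h)).1 rfl
  have hb : ∀ y ∈ l, b ∉ y := fun y hy h => (hne b ((hl.1 y hy).2 h)).2 rfl
  have hb0 : Equiv.swap a c₀ b = b :=
    Equiv.swap_apply_of_ne_of_ne hab.symm (hne c₀ hc₀).2.symm
  rw [Submodule.mem_comap, hom_apply, delta_apply, map_sum]
  refine Submodule.sub_mem _ (Submodule.sum_mem _ fun c hc => ?_)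
    (Submodule.sum_mem _ fun c hc => ?_)
  · by_cases hcl : ∃ y ∈ l, c ∈ y
    · rw [pr, kill_wedge _ l hcl]; simp
    · push Not at hcl
      have h1 := fix_wedge (pr c) l fun y hy => by rw [pr, kill_vtx, if_neg (hcl y hy)]
      rw [h1.1, ← wedge_cons, sw, rel_wedge]
      have hg : Good Finset.univ ({a, c} :: l) := by
        refine good_cons.2 ⟨⟨Finset.card_pair (hne c hc).1.symm, Finset.subset_univ _⟩,
          fun y hy => ?_, fun y hy => ⟨(hl.1 y hy).1, Finset.subset_univ _⟩, hl.2⟩
        simp [ha y hy, hcl y hy]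
      refine mem_chainsD (good_map _ hg) (fun h => ?_) (by simp [hlen])
      obtain ⟨y, hy, hyab⟩ := List.mem_map.1 h
      have hby : b ∈ y := by
        rw [← hb0, ← mem_image_swap, hyab]; simp
      rcases List.mem_cons.1 hy with rfl | hy
      · simp [hab.symm, (hne c hc).2.symm] at hby
      · exact hb y hy hby
  · obtain ⟨hcc, hc⟩ := Finset.mem_erase.1 hc
    rw [sw, sw, rel_wedge, rel_wedge, ← wedge_cons]
    have hb1 : Equiv.swap a c b = b := Equiv.swap_apply_of_ne_of_ne hab.symm (hne c hc).2.symm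
    have hc1 : Equiv.swap a c₀ c = c := Equiv.swap_apply_of_ne_of_ne (hne c hc).1 hcc
    have hav : ∀ y ∈ (l.map (Finset.image (Equiv.swap a c))).map (Finset.image (Equiv.swap a c₀)),
        b ∉ y ∧ c ∉ y := by
      intro y hy
      obtain ⟨y', hy', rfl⟩ := List.mem_map.1 hy
      obtain ⟨y'', hy'', rfl⟩ := List.mem_map.1 hy'
      rw [mem_image_swap, mem_image_swap, mem_image_swap, mem_image_swap, hb0, hb1, hc1,
        Equiv.swap_apply_right]
      exact ⟨hb _ hy'', ha _ hy''⟩
    refine mem_chainsD (good_cons.2 ⟨⟨Finset.card_pair (hne c hc).2.symm, Finset.subset_univ _⟩,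
      fun y hy => ?_, good_map _ (good_map _ hl)⟩) (fun h => ?_) (by simp [hlen])
    · simp [(hav y hy).1, (hav y hy).2]
    · rcases List.mem_cons.1 h with h | h
      · have : a ∈ ({b, c} : Finset V) := h ▸ (by simp)
        simp [hab, (hne c hc).1.symm] at this
      · exact (hav _ h).1 (by simp)

theorem split_exact [Fintype V] (a b c₀ : V) (hab : a ≠ b) (hc₀ : c₀ ∈ ({a, b} : Finset V)ᶜ)
    (d : ℤ) :
    DeletionSequenceSplits (matchingComplex Finset.univ) (matchingComplex ({a, b} : Finset V)ᶜ)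
      {a, b} d := by
  refine split_of_homotopy _ _ _ (hom a b c₀ {a, b}ᶜ) ?_ ?_ ?_ (hom_mem a b c₀ hab hc₀)
    (bd_hom a b c₀ _ (by simp) hc₀) d
  · intro σ hσ
    refine ⟨⟨fun x hx => ⟨(hσ.1 x hx).1, Finset.subset_univ _⟩, hσ.2⟩, fun h => ?_⟩
    have := (hσ.1 _ h).2 (show a ∈ ({a, b} : Finset V) by simp)
    simp at this
  · intro d w hw
    refine (chainsM_le ((chains (matchingComplex Finset.univ) (d + 1)).comap
      (LinearMap.mulLeft ℤ (vtx {a, b}))) fun l hl hlen => ?_) hw
    show vtx {a, b} * wedge l ∈ chains (matchingComplex Finset.univ) (d + 1)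
    rw [← wedge_cons]
    refine mem_chainsM (good_cons.2 ⟨⟨Finset.card_pair hab, Finset.subset_univ _⟩, fun y hy => ?_,
      fun y hy => ⟨(hl.1 y hy).1, Finset.subset_univ _⟩, hl.2⟩) (by simp [hlen])
    exact Finset.disjoint_left.2 fun t ht hty => Finset.mem_compl.1 ((hl.1 y hy).2 hty) ht
  · intro d w hw
    refine (chainsM_le ((chains (matchingComplex ({a, b} : Finset V)ᶜ) d).comap
      (contr (dual {a, b}))) fun l hl hlen => ?_) hw
    rw [Submodule.mem_comap]
    refine contr_mem _ l _ fun l₁ x l₂ h hx => ?_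
    have hxe : x = {a, b} := by by_contra h'; simp [dual, h'] at hx
    subst h
    have hsub : (l₁ ++ l₂).Sublist (l₁ ++ x :: l₂) :=
      (List.sublist_cons_self x l₂).append_left l₁
    have hp := hl.2
    rw [List.pairwise_append, List.pairwise_cons] at hp
    refine mem_chainsM ⟨fun y hy => ⟨(hl.1 y (hsub.subset hy)).1, fun t hty => ?_⟩,
      hl.2.sublist hsub⟩ ?_
    · have hdis : Disjoint x y := by
        rcases List.mem_append.1 hy with hy | hy
        · exact (hp.2.2 y hy x List.mem_cons_self).symm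
        · exact hp.2.1.1 y hy
      rw [Finset.mem_compl, ← hxe]
      exact Finset.disjoint_right.1 hdis hty
    · simp only [List.length_append, List.length_cons] at hlen ⊢
      push_cast at hlen ⊢
      linarith

end Pool.Agent.H323Z.MC
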