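import Mathlib

set_option autoImplicit false

namespace Pool.Agent.H323Z.MC

section general

variable {X : Type}

/-- The exterior algebra over `ℤ` of the free abelian group on a vertex set `X`; oriented
simplicial chains live in it. -/
abbrev Ext (X : Type) : Type := ExteriorAlgebra ℤ (X →₀ ℤ)

/-- A vertex as an element of the exterior algebra. -/
noncomputable def vtx (x : X) : Ext X := ExteriorAlgebra.ι ℤ (Finsupp.single x 1)

/-- The oriented simplex `x₀ ∧ x₁ ∧ ⋯ ∧ x_d`. -/
noncomputable def wedge (l : List X) : Ext X := (l.map vtx).prod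

/-- Contraction with the functional `x ↦ φ x`:
`x₀ ∧ ⋯ ∧ x_d ↦ ∑ᵢ (-1)^i φ(xᵢ) x₀ ∧ ⋯ (omit xᵢ) ⋯ ∧ x_d`. -/
noncomputable def contr (φ : X → ℤ) : Ext X →ₗ[ℤ] Ext X :=
  CliffordAlgebra.contractLeft (Finsupp.linearCombination ℤ φ)

/-- The (augmented) simplicial boundary map. -/
noncomputable def bd : Ext X →ₗ[ℤ] Ext X := contr fun _ => 1

variable [DecidableEq X]

/-- The group of oriented `d`-chains of the complex with set of faces `K`. -/
noncomputable def chains (K : Set (Finset X)) (d : ℤ) : Submodule ℤ (Ext X) :=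
  Submodule.span ℤ
    {w | ∃ l : List X, l.Nodup ∧ l.toFinset ∈ K ∧ (l.length : ℤ) = d + 1 ∧ w = wedge l}

/-- The group of `d`-cycles. -/
noncomputable def cycles (K : Set (Finset X)) (d : ℤ) : Submodule ℤ (Ext X) :=
  chains K d ⊓ LinearMap.ker bd

/-- The group of `d`-boundaries, as a subgroup of the cycles. -/
noncomputable def boundaries (K : Set (Finset X)) (d : ℤ) : Submodule ℤ (cycles K d) :=
  ((chains K (d + 1)).map bd).comap (cycles K d).subtype

/-- Reduced simplicial homology with integer coefficients. -/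
abbrev Homology (K : Set (Finset X)) (d : ℤ) : Type := cycles K d ⧸ boundaries K d

/-- Homomorphisms between homology groups. -/
abbrev HomologyMap (K : Set (Finset X)) (d : ℤ) (K' : Set (Finset X)) (d' : ℤ) : Type :=
  Homology K d →+ Homology K' d'

/-- `F` is the map on homology induced by the chain level map `f`. -/
def Induces {K K' : Set (Finset X)} {d d' : ℤ} (f : Ext X →ₗ[ℤ] Ext X)
    (F : HomologyMap K d K' d') : Prop :=
  ∀ z : cycles K d, ∃ z' : cycles K' d', (z' : Ext X) = f z ∧
    F (Submodule.Quotient.mk z) = Submodule.Quotient.mk z'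

/-- The functional dual to the vertex `e`; contraction with it sends `e ∧ τ` to `τ` and kills the
simplices not containing `e`. -/
def dual (e : X) : X → ℤ := fun x => if x = e then 1 else 0

/-- Deletion of the vertex `e` from the complex `K`. -/
def deletion (K : Set (Finset X)) (e : X) : Set (Finset X) := {σ | σ ∈ K ∧ e ∉ σ}

/-- `0 → A → B → C → 0` is a split exact sequence of abelian groups. -/
def SplitExact {A B C : Type} [AddCommGroup A] [AddCommGroup B] [AddCommGroup C]
    (i : A →+ B) (p : B →+ C) : Prop :=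
  Function.Injective i ∧ Function.Exact i p ∧ Function.Surjective p ∧
    ∃ s : C →+ B, ∀ x, p (s x) = x

/-- The sequence `0 → H_d(K ∖ e) → H_d(K) → H_{d-1}(L) → 0`, with maps induced by the inclusion and
by `e ∧ τ ↦ τ`, is split exact. -/
def DeletionSequenceSplits (K L : Set (Finset X)) (e : X) (d : ℤ) : Prop :=
  ∃ (i : HomologyMap (deletion K e) d K d) (p : HomologyMap K d L (d - 1)),
    Induces LinearMap.id i ∧ Induces (contr (dual e)) p ∧ SplitExact i p

end general

/-- The matching complex `M(W)`: faces are the sets of pairwise disjoint 2-element subsets of `W`. -/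
def matchingComplex {V : Type} (W : Finset V) : Set (Finset (Finset V)) :=
  {σ | (∀ x ∈ σ, x.card = 2 ∧ x ⊆ W) ∧ ∀ x ∈ σ, ∀ y ∈ σ, x ≠ y → Disjoint x y}

end Pool.Agent.H323Z.MC
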