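import Mathlib

set_option autoImplicit false

/-!
Magnitude of compact sets: variational bounds and positive definiteness of product kernels.
-/

open Finset Real Filter Topology

namespace Pool.Agent.H323Z.Mag

/-- quadratic form of a kernel over a finite set -/
def Q {ι : Type} (s : Finset ι) (K : ι → ι → ℝ) (v : ι → ℝ) : ℝ :=
  ∑ i ∈ s, ∑ j ∈ s, v i * v j * K i j

/-- push-forward of weights -/
def push {ι κ : Type} [DecidableEq κ] (s : Finset ι) (f : ι → κ) (v : ι → ℝ) (y : κ) : ℝ :=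
  ∑ i ∈ s with f i = y, v i

lemma sum_push {ι κ : Type} [DecidableEq κ] (s : Finset ι) (f : ι → κ) (v : ι → ℝ) (g : κ → ℝ) :
    ∑ y ∈ s.image f, push s f v y * g y = ∑ i ∈ s, v i * g (f i) := by
  rw [← Finset.sum_fiberwise_of_maps_to (s := s) (t := s.image f) (g := f)
    (fun i hi => Finset.mem_image_of_mem f hi)]
  refine Finset.sum_congr rfl fun y _ => ?_
  rw [push, Finset.sum_mul]
  refine Finset.sum_congr rfl fun i hi => ?_
  rw [(Finset.mem_filter.1 hi).2]

lemma Q_push {ι κ : Type} [DecidableEq κ] (s : Finset ι) (f : ι → κ) (v : ι → ℝ) (K : κ → κ → ℝ) :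
    Q (s.image f) K (push s f v) = Q s (fun i j => K (f i) (f j)) v := by
  unfold Q
  have h1 : ∀ y, ∑ z ∈ s.image f, push s f v y * push s f v z * K y z
      = push s f v y * ∑ j ∈ s, v j * K y (f j) := by
    intro y
    rw [← sum_push s f v (fun z => K y z), Finset.mul_sum]
    exact Finset.sum_congr rfl fun z _ => by ring
  simp only [h1]
  rw [sum_push s f v (fun y => ∑ j ∈ s, v j * K y (f j))]
  refine Finset.sum_congr rfl fun i _ => ?_
  rw [Finset.mul_sum]
  exact Finset.sum_congr rfl fun j _ => by ring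

lemma Q_insert {ι : Type} [DecidableEq ι] (s : Finset ι) (y : ι) (hy : y ∉ s) (K : ι → ι → ℝ)
    (hs : ∀ i j, K i j = K j i) (v : ι → ℝ) :
    Q (insert y s) K v = v y ^ 2 * K y y + 2 * v y * ∑ x ∈ s, v x * K x y + Q s K v := by
  unfold Q
  rw [Finset.sum_insert hy, Finset.sum_insert hy]
  simp only [Finset.sum_insert hy, Finset.sum_add_distrib]
  have h1 : ∑ j ∈ s, v y * v j * K y j = v y * ∑ x ∈ s, v x * K x y := by
    rw [Finset.mul_sum]; exact Finset.sum_congr rfl fun j _ => by rw [hs y j]; ring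
  have h2 : ∑ j ∈ s, v j * v y * K j y = v y * ∑ x ∈ s, v x * K x y := by
    rw [Finset.mul_sum]; exact Finset.sum_congr rfl fun j _ => by ring
  rw [h1, h2]; ring

/-- the one-dimensional kernel -/
noncomputable def k1 (x y : ℝ) : ℝ := exp (-|x - y|)

lemma k1_symm (x y : ℝ) : k1 x y = k1 y x := by rw [k1, k1, abs_sub_comm]

lemma k1_self (x : ℝ) : k1 x x = 1 := by simp [k1]

/-- the form with a virtual point at `b` -/
noncomputable def G (S : Finset ℝ) (V : ℝ → ℝ) (b c : ℝ) : ℝ :=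
  c ^ 2 + 2 * c * ∑ x ∈ S, V x * exp (-(b - x)) + Q S k1 V

lemma G_insert (S : Finset ℝ) (V : ℝ → ℝ) (y b c : ℝ) (hy : ∀ x ∈ S, x < y) :
    G (insert y S) V b c = G S V y (V y + c * exp (-(b - y))) + c ^ 2 * (1 - exp (-(b - y)) ^ 2) := by
  have hyS : y ∉ S := fun h => lt_irrefl _ (hy y h)
  unfold G
  rw [Q_insert S y hyS k1 k1_symm, Finset.sum_insert hyS, k1_self]
  have h1 : ∑ x ∈ S, V x * k1 x y = ∑ x ∈ S, V x * exp (-(y - x)) := by
    refine Finset.sum_congr rfl fun x hx => ?_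
    rw [k1, abs_of_neg (by linarith [hy x hx])]; congr 2; ring
  have h2 : ∑ x ∈ S, V x * exp (-(b - x)) = exp (-(b - y)) * ∑ x ∈ S, V x * exp (-(y - x)) := by
    rw [Finset.mul_sum]
    refine Finset.sum_congr rfl fun x _ => ?_
    have : exp (-(b - x)) = exp (-(b - y)) * exp (-(y - x)) := by rw [← exp_add]; congr 1; ring
    rw [this]; ring
  rw [h1, h2]; ring

lemma tanh_bound (δ : ℝ) (hδ : 0 ≤ δ) : 1 - exp (-δ) ≤ (1 + exp (-δ)) * (δ / 2) := by
  have h1 : 1 ≤ exp δ := one_le_exp hδ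
  have h2 := le_log_one_add_of_nonneg (x := exp δ - 1) (by linarith)
  rw [show 1 + (exp δ - 1) = exp δ by ring, log_exp, div_le_iff₀ (by linarith)] at h2
  have h3 : exp (-δ) * exp δ = 1 := by rw [← exp_add]; simp
  have h4 : 0 < exp (-δ) := exp_pos _
  have h5 := mul_le_mul_of_nonneg_left h2 h4.le
  nlinarith

/-- magnitude of subsets of an interval, variational form -/
lemma chain_upper (V : ℝ → ℝ) (a l : ℝ) (S : Finset ℝ) :
    ∀ b c : ℝ, a ≤ b → (∀ x ∈ S, a ≤ x ∧ x ≤ b) →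
      2 * l * (c + ∑ x ∈ S, V x) - G S V b c ≤ l ^ 2 * (1 + (b - a) / 2) := by
  induction S using Finset.induction_on_max with
  | empty =>
    intro b c hab _
    simp only [G, Q, Finset.sum_empty]
    nlinarith [sq_nonneg (c - l), mul_nonneg (sq_nonneg l) (sub_nonneg.2 hab)]
  | insert y S hy ih =>
    intro b c _ hS
    have hyS : y ∉ S := fun h => lt_irrefl _ (hy y h)
    have hy' := hS y (Finset.mem_insert_self _ _)
    have h1 := ih y (V y + c * exp (-(b - y))) hy'.1
      (fun x hx => ⟨(hS x (Finset.mem_insert_of_mem hx)).1, (hy x hx).le⟩)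
    rw [G_insert S V y b c hy, Finset.sum_insert hyS]
    have h2 := tanh_bound (b - y) (by linarith [hy'.2])
    set r := exp (-(b - y)) with hr
    have hr0 : 0 < r := exp_pos _
    have hr1 : r ≤ 1 := by rw [hr]; exact exp_le_one_iff.2 (by linarith [hy'.2])
    have h3 : 2 * l * c * (1 - r) - c ^ 2 * (1 - r ^ 2) ≤ l ^ 2 * ((b - y) / 2) := by
      have h4 : (1 + r) * (2 * l * c * (1 - r) - c ^ 2 * (1 - r ^ 2)) ≤ l ^ 2 * (1 - r) := by
        nlinarith [mul_nonneg (sub_nonneg.2 hr1) (sq_nonneg ((1 + r) * c - l))]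
      have h5 := mul_le_mul_of_nonneg_left h2 (sq_nonneg l)
      by_contra hcon
      push Not at hcon
      have h6 := mul_lt_mul_of_pos_left hcon (show 0 < 1 + r by linarith)
      nlinarith
    nlinarith

lemma line_upper {ι : Type} (s : Finset ι) (x : ι → ℝ) (v : ι → ℝ) (a b l : ℝ) (hab : a ≤ b)
    (hx : ∀ i ∈ s, a ≤ x i ∧ x i ≤ b) :
    2 * l * ∑ i ∈ s, v i - Q s (fun i j => k1 (x i) (x j)) v ≤ l ^ 2 * (1 + (b - a) / 2) := by
  classical
  have h := chain_upper (push s x v) a l (s.image x) b 0 hab (by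
    intro y hy
    obtain ⟨i, hi, rfl⟩ := Finset.mem_image.1 hy
    exact hx i hi)
  have h2 := sum_push s x v (fun _ => 1)
  simp only [mul_one] at h2
  rw [G, Q_push, h2] at h
  simpa using h

lemma chain_gap (S : Finset ℝ) :
    ∀ b : ℝ, (∀ x ∈ S, x < b) → ∃ σ : ℝ, 0 < σ ∧ ∀ (V : ℝ → ℝ) (c : ℝ),
      σ * (c ^ 2 + ∑ x ∈ S, V x ^ 2) ≤ G S V b c := by
  induction S using Finset.induction_on_max with
  | empty =>
    intro b _
    exact ⟨1, one_pos, fun V c => by simp [G, Q]⟩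
  | insert y S hy ih =>
    intro b hS
    have hyS : y ∉ S := fun h => lt_irrefl _ (hy y h)
    have hy' := hS y (Finset.mem_insert_self _ _)
    obtain ⟨σ, hσ, h1⟩ := ih y hy
    set r := exp (-(b - y)) with hr
    have hr0 : 0 < r := exp_pos _
    have hr1 : r < 1 := by rw [hr]; exact exp_lt_one_iff.2 (by linarith)
    have hr2 : 0 < 1 - r ^ 2 := by nlinarith
    refine ⟨min (σ / 2) ((1 - r ^ 2) / 3), lt_min (by linarith) (by linarith), fun V c => ?_⟩
    rw [G_insert S V y b c hy, Finset.sum_insert hyS, ← hr]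
    have h2 := h1 V (V y + c * r)
    set τ := min (σ / 2) ((1 - r ^ 2) / 3) with hτ
    have hτ1 : τ ≤ σ / 2 := min_le_left _ _
    have hτ2 : τ ≤ (1 - r ^ 2) / 3 := min_le_right _ _
    have hτ0 : 0 < τ := lt_min (by linarith) (by linarith)
    have hS0 : 0 ≤ ∑ x ∈ S, V x ^ 2 := Finset.sum_nonneg fun x _ => sq_nonneg _
    have h3 : V y ^ 2 ≤ 2 * (V y + c * r) ^ 2 + 2 * c ^ 2 := by
      nlinarith [sq_nonneg (V y + 2 * c * r), mul_nonneg (sq_nonneg c) hr2.le]
    have h4 : τ * V y ^ 2 ≤ τ * (2 * (V y + c * r) ^ 2 + 2 * c ^ 2) :=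
      mul_le_mul_of_nonneg_left h3 hτ0.le
    have h5 : 2 * τ * (V y + c * r) ^ 2 ≤ σ * (V y + c * r) ^ 2 :=
      mul_le_mul_of_nonneg_right (by linarith) (sq_nonneg _)
    have h6 : τ * ∑ x ∈ S, V x ^ 2 ≤ σ * ∑ x ∈ S, V x ^ 2 :=
      mul_le_mul_of_nonneg_right (by linarith) hS0
    have h7 : 3 * τ * c ^ 2 ≤ (1 - r ^ 2) * c ^ 2 :=
      mul_le_mul_of_nonneg_right (by linarith) (sq_nonneg _)
    nlinarith

/-- equality kernel -/
noncomputable def e1 (x y : ℝ) : ℝ := if x = y then 1 else 0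

lemma Q_e1 (S : Finset ℝ) (V : ℝ → ℝ) : Q S e1 V = ∑ x ∈ S, V x ^ 2 := by
  unfold Q e1
  refine Finset.sum_congr rfl fun x hx => ?_
  rw [Finset.sum_eq_single x]
  · simp [sq]
  · intro y _ hyx
    simp [Ne.symm hyx]
  · intro h; exact absurd hx h

section fin

variable {ι : Type} [Fintype ι]

lemma Q_eq (F : Matrix ι ι ℝ) (ν : ι → ℝ) : star ν ⬝ᵥ (F.mulVec ν) = Q univ F ν := by
  simp only [Q, dotProduct, Matrix.mulVec, star_trivial, Finset.mul_sum]
  refine Finset.sum_congr rfl fun i _ => Finset.sum_congr rfl fun j _ => ?_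
  ring

/-- positive semidefinite kernel -/
def PSD (K : ι → ι → ℝ) : Prop := (∀ i j, K i j = K j i) ∧ ∀ v, 0 ≤ Q univ K v

lemma PSD.mat {K : ι → ι → ℝ} (h : PSD K) : (Matrix.of K).PosSemidef := by
  refine Matrix.PosSemidef.of_dotProduct_mulVec_nonneg ?_ fun x => ?_
  · ext i j
    simp [h.1 i j]
  · rw [Q_eq]
    exact h.2 x

lemma PSD.mul {K L : ι → ι → ℝ} (h : PSD K) (h' : PSD L) : PSD (fun i j => K i j * L i j) := by
  refine ⟨fun i j => by simp only [h.1 i j, h'.1 i j], fun v => ?_⟩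
  have h2 := (h.mat.hadamard h'.mat).dotProduct_mulVec_nonneg v
  rw [Q_eq] at h2
  exact h2

lemma PSD.add {K L : ι → ι → ℝ} (h : PSD K) (h' : PSD L) : PSD (fun i j => K i j + L i j) := by
  refine ⟨fun i j => by simp only [h.1 i j, h'.1 i j], fun v => ?_⟩
  have : Q univ (fun i j => K i j + L i j) v = Q univ K v + Q univ L v := by
    simp only [Q, ← Finset.sum_add_distrib]
    exact Finset.sum_congr rfl fun i _ => Finset.sum_congr rfl fun j _ => by ring
  rw [this]; exact add_nonneg (h.2 v) (h'.2 v)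

lemma PSD.smul {K : ι → ι → ℝ} (h : PSD K) (t : ℝ) (ht : 0 ≤ t) : PSD (fun i j => t * K i j) := by
  refine ⟨fun i j => by simp only [h.1 i j], fun v => ?_⟩
  have : Q univ (fun i j => t * K i j) v = t * Q univ K v := by
    simp only [Q, Finset.mul_sum]
    exact Finset.sum_congr rfl fun i _ => Finset.sum_congr rfl fun j _ => by ring
  rw [this]; exact mul_nonneg ht (h.2 v)

lemma e1_symm (x y : ℝ) : e1 x y = e1 y x := by simp [e1, eq_comm]

lemma psd_e1 (x : ι → ℝ) : PSD (fun i j => e1 (x i) (x j)) := by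
  classical
  refine ⟨fun i j => e1_symm _ _, fun v => ?_⟩
  rw [← Q_push univ x v e1, Q_e1]
  exact Finset.sum_nonneg fun _ _ => sq_nonneg _

lemma gap_k1 (x : ι → ℝ) :
    ∃ σ : ℝ, 0 < σ ∧ PSD (fun i j => k1 (x i) (x j) - σ * e1 (x i) (x j)) := by
  classical
  obtain ⟨b, hb⟩ : ∃ b : ℝ, ∀ y ∈ univ.image x, y < b := by
    obtain ⟨b, hb⟩ := (univ.image x).bddAbove
    exact ⟨b + 1, fun y hy => lt_of_le_of_lt (hb hy) (by linarith)⟩
  obtain ⟨σ, hσ, h⟩ := chain_gap _ b hb
  refine ⟨σ, hσ, fun i j => by simp only [k1_symm (x i) (x j), e1_symm (x i) (x j)], fun v => ?_⟩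
  have h1 := h (push univ x v) 0
  rw [G, ← Q_e1, Q_push, Q_push] at h1
  have : Q univ (fun i j => k1 (x i) (x j) - σ * e1 (x i) (x j)) v
      = Q univ (fun i j => k1 (x i) (x j)) v - σ * Q univ (fun i j => e1 (x i) (x j)) v := by
    simp only [Q, Finset.mul_sum, ← Finset.sum_sub_distrib]
    exact Finset.sum_congr rfl fun i _ => Finset.sum_congr rfl fun j _ => by ring
  rw [this]
  simp at h1
  linarith

lemma psd_k1 (x : ι → ℝ) : PSD (fun i j => k1 (x i) (x j)) := by
  obtain ⟨σ, hσ, h⟩ := gap_k1 x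
  have := h.add ((psd_e1 x).smul σ hσ.le)
  simpa using this

lemma psd_Eprod (x : ι → ℕ → ℝ) (n : ℕ) : PSD (fun i j => ∏ m ∈ range n, e1 (x i m) (x j m)) := by
  induction n with
  | zero =>
    refine ⟨fun i j => rfl, fun v => ?_⟩
    have : Q univ (fun i j => ∏ m ∈ range 0, e1 (x i m) (x j m)) v = (∑ i, v i) ^ 2 := by
      simp [Q, sq, Finset.sum_mul_sum]
    rw [this]; exact sq_nonneg _
  | succ n ih =>
    simpa only [Finset.prod_range_succ] using ih.mul (psd_e1 fun i => x i n)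

lemma gap_prod (x : ι → ℕ → ℝ) (n : ℕ) : ∃ σ : ℝ, 0 < σ ∧
    PSD (fun i j => ∏ m ∈ range n, k1 (x i m) (x j m) - σ * ∏ m ∈ range n, e1 (x i m) (x j m)) := by
  induction n with
  | zero => exact ⟨1, one_pos, fun i j => by simp, fun v => by simp [Q]⟩
  | succ n ih =>
    obtain ⟨σ, hσ, h⟩ := ih
    obtain ⟨τ, hτ, h'⟩ := gap_k1 (fun i => x i n)
    refine ⟨σ * τ, mul_pos hσ hτ, ?_⟩
    have h2 := (h.mul (psd_k1 fun i => x i n)).add (((psd_Eprod x n).mul h').smul σ hσ.le)
    convert h2 using 3 with i j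
    simp only [Finset.prod_range_succ]
    ring

lemma gap_tail [DecidableEq ι] (x : ι → ℕ → ℝ) (n : ℕ)
    (hsep : ∀ i j, i ≠ j → ∃ m < n, x i m ≠ x j m) : ∃ σ : ℝ, 0 < σ ∧ ∀ N, n ≤ N →
    PSD (fun i j => ∏ m ∈ range N, k1 (x i m) (x j m) - σ * if i = j then 1 else 0) := by
  obtain ⟨σ, hσ, h⟩ := gap_prod x n
  refine ⟨σ, hσ, fun N hN => ?_⟩
  induction N, hN using Nat.le_induction with
  | base =>
    convert h using 5 with i j
    split_ifs with hij
    · subst hij; simp [e1]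
    · obtain ⟨m, hm, hne⟩ := hsep i j hij
      symm
      exact Finset.prod_eq_zero (Finset.mem_range.2 hm) (by simp [e1, hne])
  | succ N _ ih =>
    have h2 := ih.mul (psd_k1 fun i => x i N)
    convert h2 using 3 with i j
    simp only [Finset.prod_range_succ]
    split_ifs with hij
    · subst hij; simp [k1_self]
    · simp

lemma posDef_of_gap [DecidableEq ι] (K : ι → ι → ℝ) (σ : ℝ) (hσ : 0 < σ)
    (h : PSD (fun i j => K i j - σ * if i = j then 1 else 0)) : (Matrix.of K).PosDef := by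
  refine Matrix.PosDef.of_dotProduct_mulVec_pos ?_ fun v hv => ?_
  · ext i j
    have := h.1 i j
    simp only [eq_comm (a := j) (b := i)] at this
    simp only [Matrix.conjTranspose_apply, Matrix.of_apply, star_trivial]
    linarith
  · rw [Q_eq]
    have h1 := h.2 v
    have h2 : Q univ (fun i j => K i j - σ * if i = j then 1 else 0) v
        = Q univ K v - σ * ∑ i, v i ^ 2 := by
      simp only [Q, Finset.mul_sum, ← Finset.sum_sub_distrib]
      refine Finset.sum_congr rfl fun i _ => ?_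
      simp only [mul_sub, Finset.sum_sub_distrib, mul_ite, mul_one, mul_zero, Finset.sum_ite_eq,
        Finset.mem_univ, if_true]
      ring
    obtain ⟨i, hi⟩ : ∃ i, v i ≠ 0 := by
      by_contra hcon
      push Not at hcon
      exact hv (funext hcon)
    have h3 : 0 < ∑ i, v i ^ 2 :=
      Finset.sum_pos' (fun _ _ => sq_nonneg _) ⟨i, Finset.mem_univ _, by positivity⟩
    have h4 := mul_pos hσ h3
    show 0 < Q univ K v
    linarith

end fin

end Pool.Agent.H323Z.Mag
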