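import Mathlib

set_option autoImplicit false

open Filter Topology

namespace Pool.Agent.H323Z.Mag

variable {E : Type} [MetricSpace E]

/-- The similarity matrix `Z_F = [exp (-d(a,b))]` of a finite subset `F`. -/
noncomputable def simMatrix (F : Finset E) : Matrix F F ℝ :=
  Matrix.of fun a b : F => Real.exp (-dist (a : E) (b : E))

/-- A metric space is positive definite if all its finite similarity matrices are. -/
def PosDefSpace (E : Type) [MetricSpace E] : Prop := ∀ F : Finset E, (simMatrix F).PosDef

open Classical in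
/-- Magnitude of a set: supremum over finite subsets `F` of the sum of the entries of `Z_F⁻¹`. -/
noncomputable def magnitude (A : Set E) : ENNReal :=
  ⨆ (F : Finset E) (_ : (↑F : Set E) ⊆ A), ENNReal.ofReal (∑ a : F, ∑ b : F, (simMatrix F)⁻¹ a b)

/-- `A` is geodesic: any two points `a, b` of `A` are joined inside `A` by a distance preserving
path defined on `[0, d(a,b)]`. -/
def IsGeodesic (A : Set E) : Prop :=
  ∀ a ∈ A, ∀ b ∈ A, ∃ γ : ℝ → E, γ 0 = a ∧ γ (dist a b) = b ∧
    (∀ t ∈ Set.Icc 0 (dist a b), γ t ∈ A) ∧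
    ∀ s ∈ Set.Icc 0 (dist a b), ∀ t ∈ Set.Icc 0 (dist a b), dist (γ s) (γ t) = |s - t|

/-- Magnitude is continuous on the class of nonempty compact sets satisfying `C`,
for the Hausdorff distance. -/
def MagContinuousOn (C : Set E → Prop) : Prop :=
  ∀ (A : ℕ → Set E) (A₀ : Set E),
    (∀ k, IsCompact (A k) ∧ (A k).Nonempty ∧ C (A k)) → IsCompact A₀ → A₀.Nonempty → C A₀ →
    Tendsto (fun k => Metric.hausdorffDist (A k) A₀) atTop (𝓝 0) →
    Tendsto (fun k => magnitude (A k)) atTop (𝓝 (magnitude A₀))

end Pool.Agent.H323Z.Mag
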