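import Pool.Agent.H323Z.MagA
import Pool.Agent.H323Z.MagDefs

set_option autoImplicit false

open Finset Real Filter Topology

namespace Pool.Agent.H323Z.Mag

section general

variable {E : Type} [MetricSpace E]

/-- the similarity kernel -/
noncomputable def KE (x y : E) : ℝ := exp (-dist x y)

lemma KE_symm (x y : E) : KE x y = KE y x := by rw [KE, KE, dist_comm]

lemma KE_self (x : E) : KE x x = 1 := by simp [KE]

lemma weight_eq {ι : Type} [Fintype ι] [DecidableEq ι] (Z : Matrix ι ι ℝ) (hZ : Z.PosDef) (k : ι) :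
    ∑ l, Z k l * (∑ j, Z⁻¹ l j) = 1 := by
  have h1 : Z * Z⁻¹ = 1 := Matrix.mul_nonsing_inv Z ((Matrix.isUnit_iff_isUnit_det Z).1 hZ.isUnit)
  have h2 : Z.mulVec (Z⁻¹.mulVec fun _ => 1) = fun _ => 1 := by
    rw [Matrix.mulVec_mulVec, h1, Matrix.one_mulVec]
  simpa [Matrix.mulVec, dotProduct] using congrFun h2 k

lemma Q_weight {ι : Type} [Fintype ι] (Z : ι → ι → ℝ) (w : ι → ℝ)
    (hw : ∀ k, ∑ l, Z k l * w l = 1) (a : ι → ℝ) :
    ∑ k, ∑ l, a k * w l * Z k l = ∑ k, a k := by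
  refine Finset.sum_congr rfl fun k _ => ?_
  have : ∑ l, a k * w l * Z k l = a k * ∑ l, Z k l * w l := by
    rw [Finset.mul_sum]
    exact Finset.sum_congr rfl fun l _ => by ring
  rw [this, hw k, mul_one]

lemma var_le {ι : Type} [Fintype ι] (Z : ι → ι → ℝ) (hs : ∀ i j, Z i j = Z j i)
    (hZ : ∀ ν, 0 ≤ Q univ Z ν) (w : ι → ℝ) (hw : ∀ k, ∑ l, Z k l * w l = 1) (a : ι → ℝ) :
    2 * ∑ k, a k - Q univ Z a ≤ ∑ k, w k := by
  have h1 := hZ (fun k => a k - w k)
  have h2 : Q univ Z (fun k => a k - w k) = Q univ Z a - ∑ k, ∑ l, a k * w l * Z k l -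
      ∑ k, ∑ l, a l * w k * Z l k + ∑ k, ∑ l, w k * w l * Z k l := by
    simp only [Q, ← Finset.sum_sub_distrib, ← Finset.sum_add_distrib]
    refine Finset.sum_congr rfl fun k _ => Finset.sum_congr rfl fun l _ => ?_
    rw [hs l k]
    ring
  have h3 : ∑ k, ∑ l, a l * w k * Z l k = ∑ k, ∑ l, a k * w l * Z k l := Finset.sum_comm
  rw [h2, h3, Q_weight Z w hw a, Q_weight Z w hw w] at h1
  linarith

lemma mag_upper (hE : PosDefSpace E) (A : Set E) (M : ℝ)
    (h : ∀ (ι : Type) [Fintype ι] (a : ι → E) (v : ι → ℝ), (∀ i, a i ∈ A) →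
      2 * ∑ i, v i - Q univ (fun i j => KE (a i) (a j)) v ≤ M) :
    magnitude A ≤ ENNReal.ofReal M := by
  classical
  unfold magnitude
  refine iSup_le fun F => iSup_le fun hF => ENNReal.ofReal_le_ofReal ?_
  have h1 := h F (fun a => (a : E)) (fun l => ∑ j, (simMatrix F)⁻¹ l j) (fun a => hF a.2)
  have h2 := Q_weight (simMatrix F) _ (weight_eq _ (hE F)) (fun l => ∑ j, (simMatrix F)⁻¹ l j)
  have h3 : Q univ (fun i j : F => KE (i : E) (j : E)) (fun l => ∑ j, (simMatrix F)⁻¹ l j)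
      = ∑ k, ∑ j, (simMatrix F)⁻¹ k j := h2
  rw [h3] at h1
  convert (show ∑ k, ∑ j, (simMatrix F)⁻¹ k j ≤ M by linarith)

lemma mag_lower (hE : PosDefSpace E) (A : Set E) {ι : Type} (s : Finset ι) (a : ι → E) (v : ι → ℝ)
    (ha : ∀ i ∈ s, a i ∈ A) :
    ENNReal.ofReal (2 * ∑ i ∈ s, v i - Q s (fun i j => KE (a i) (a j)) v) ≤ magnitude A := by
  classical
  unfold magnitude
  have hF : (↑(s.image a) : Set E) ⊆ A := by
    intro y hy
    obtain ⟨i, hi, rfl⟩ := Finset.mem_image.1 (Finset.mem_coe.1 hy)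
    exact ha i hi
  refine le_iSup_of_le (s.image a) (le_iSup_of_le hF (ENNReal.ofReal_le_ofReal ?_))
  set F := s.image a with hFdef
  have hpsd : ∀ ν, 0 ≤ Q univ (simMatrix F) ν := fun ν => by
    have := (hE F).posSemidef.dotProduct_mulVec_nonneg ν
    rwa [Q_eq] at this
  have h1 := var_le (simMatrix F) (fun i j => KE_symm _ _) hpsd _ (weight_eq _ (hE F))
    (fun x => push s a v x)
  have h2 := sum_push s a v (fun _ => 1)
  simp only [mul_one] at h2
  rw [← h2, ← Q_push s a v KE, ← hFdef]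
  have h3 : ∑ k : F, push s a v k = ∑ y ∈ F, push s a v y := Finset.sum_coe_sort F _
  have h4 : Q univ (simMatrix F) (fun x => push s a v x) = Q F KE (push s a v) := by
    unfold Q
    rw [← Finset.sum_coe_sort F]
    refine Finset.sum_congr rfl fun i _ => ?_
    rw [← Finset.sum_coe_sort F]
    rfl
  rw [h3, h4] at h1
  convert h1

lemma not_tendsto_of_gap (A : ℕ → Set E) (A₀ : Set E) (M M' : ℝ) (hM : 0 ≤ M) (hMM : M < M')
    (h0 : magnitude A₀ ≤ ENNReal.ofReal M)
    (h1 : ∀ᶠ k in atTop, ENNReal.ofReal M' ≤ magnitude (A k)) :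
    ¬ Tendsto (fun k => magnitude (A k)) atTop (𝓝 (magnitude A₀)) := by
  intro h
  have h2 : ENNReal.ofReal M' ≤ magnitude A₀ := ge_of_tendsto h h1
  have h3 := h2.trans h0
  rw [ENNReal.ofReal_le_ofReal_iff hM] at h3
  linarith

end general

lemma convex_geodesic {E : Type} [NormedAddCommGroup E] [NormedSpace ℝ E] {A : Set E}
    (hA : Convex ℝ A) : IsGeodesic A := by
  intro a ha b hb
  rcases eq_or_ne a b with rfl | hab
  · refine ⟨fun _ => a, rfl, rfl, fun _ _ => ha, fun s hs t ht => ?_⟩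
    simp only [dist_self, Set.Icc_self, Set.mem_singleton_iff] at hs ht
    simp [hs, ht]
  · have hd : 0 < dist a b := dist_pos.2 hab
    refine ⟨fun t => a + (t / dist a b) • (b - a), by simp, by simp [hd.ne'], fun t ht => ?_,
      fun s _ t _ => ?_⟩
    · exact hA.add_smul_sub_mem ha hb ⟨div_nonneg ht.1 hd.le, (div_le_one hd).2 ht.2⟩
    · rw [dist_eq_norm, add_sub_add_left_eq_sub, ← sub_smul, norm_smul, ← sub_div, Real.norm_eq_abs,
        abs_div, abs_of_pos hd, ← dist_eq_norm, dist_comm b a]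
      field_simp

/-- the plane with the maximum norm is positive definite -/
lemma posDef_plane : PosDefSpace (ℝ × ℝ) := by
  classical
  intro F
  let x : F → ℕ → ℝ := fun a m =>
    if m = 0 then ((a : ℝ × ℝ).1 + (a : ℝ × ℝ).2) / 2 else ((a : ℝ × ℝ).1 - (a : ℝ × ℝ).2) / 2
  obtain ⟨σ, hσ, h⟩ := gap_tail x 2 (by
    intro i j hij
    by_contra hcon
    push Not at hcon
    have h0 := hcon 0 (by norm_num)
    have h1 := hcon 1 (by norm_num)
    simp only [x, if_true, one_ne_zero, if_false] at h0 h1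
    exact hij (Subtype.ext (Prod.ext (by linarith) (by linarith))))
  have h2 := posDef_of_gap _ σ hσ (h 2 le_rfl)
  convert h2 using 1
  ext i j
  simp only [simMatrix, Matrix.of_apply, Finset.prod_range_succ, Finset.range_zero,
    Finset.prod_empty, one_mul, k1, x, if_true, one_ne_zero, if_false, ← exp_add]
  congr 1
  rw [Prod.dist_eq, Real.dist_eq, Real.dist_eq]
  set p := (i : ℝ × ℝ).1 - (j : ℝ × ℝ).1 with hp
  set q := (i : ℝ × ℝ).2 - (j : ℝ × ℝ).2 with hq
  rw [show ((i : ℝ × ℝ).1 + (i : ℝ × ℝ).2) / 2 - ((j : ℝ × ℝ).1 + (j : ℝ × ℝ).2) / 2 = (p + q) / 2 by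
      rw [hp, hq]; ring,
    show ((i : ℝ × ℝ).1 - (i : ℝ × ℝ).2) / 2 - ((j : ℝ × ℝ).1 - (j : ℝ × ℝ).2) / 2 = (p - q) / 2 by
      rw [hp, hq]; ring]
  rcases abs_cases p with h1 | h1 <;> rcases abs_cases q with h2 | h2 <;>
    rcases abs_cases ((p + q) / 2) with h3 | h3 <;> rcases abs_cases ((p - q) / 2) with h4 | h4 <;>
    rcases max_cases |p| |q| with h5 | h5 <;> linarith [h1.1, h2.1, h3.1, h4.1, h5.1]

/-- the sequence space `ℓ¹` -/
abbrev L1 : Type := lp (fun _ : ℕ => ℝ) 1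

lemma hasSum_dist (x y : L1) : HasSum (fun m => |x m - y m|) (dist x y) := by
  have h := lp.hasSum_norm (p := 1) (by simp) (x - y)
  simpa [dist_eq_norm, lp.coeFn_sub] using h

lemma posDef_L1 : PosDefSpace L1 := by
  classical
  intro F
  let x : F → ℕ → ℝ := fun a m => (a : L1) m
  have hsep : ∀ p : F × F, ∃ m : ℕ, p.1 ≠ p.2 → x p.1 m ≠ x p.2 m := by
    intro p
    by_contra hcon
    push Not at hcon
    exact (hcon 0).1 (Subtype.ext (lp.ext (funext fun m => (hcon m).2)))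
  choose f hf using hsep
  obtain ⟨σ, hσ, h⟩ := gap_tail x (univ.sup f + 1) (fun i j hij =>
    ⟨f (i, j), Nat.lt_succ_of_le (Finset.le_sup (Finset.mem_univ (i, j))), hf (i, j) hij⟩)
  refine posDef_of_gap (fun a b : F => exp (-dist (a : L1) (b : L1))) σ hσ
    ⟨fun i j => by simp only [dist_comm (i : L1) j, eq_comm (a := i) (b := j)], fun v => ?_⟩
  have hlim : ∀ i j : F, Tendsto (fun N => ∏ m ∈ range N, k1 (x i m) (x j m)) atTop
      (𝓝 (exp (-dist (i : L1) (j : L1)))) := by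
    intro i j
    have h1 := (hasSum_dist (i : L1) (j : L1)).tendsto_sum_nat
    have h2 := (continuous_exp.tendsto _).comp h1.neg
    refine h2.congr fun N => ?_
    simp [k1, x, ← exp_sum]
  have h3 : Tendsto (fun N => Q univ (fun i j : F => ∏ m ∈ range N, k1 (x i m) (x j m)
      - σ * if i = j then 1 else 0) v) atTop
      (𝓝 (Q univ (fun i j : F => exp (-dist (i : L1) (j : L1)) - σ * if i = j then 1 else 0) v)) := by
    unfold Q
    exact tendsto_finsetSum _ fun i _ => tendsto_finsetSum _ fun j _ =>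
      ((hlim i j).sub_const _).const_mul _
  exact ge_of_tendsto h3 (eventually_atTop.2 ⟨_, fun N hN => (h N hN).2 v⟩)

end Pool.Agent.H323Z.Mag
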