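import Pool.Agent.H323Z.MagB

set_option autoImplicit false

open Finset Real Filter Topology

namespace Pool.Agent.H323Z.Mag

/-- weights with prescribed head sums -/
def wt (ρ : ℝ) (T : ℕ → ℝ) : ℕ → ℝ
  | 0 => T 0
  | j + 1 => T (j + 1) - ρ * T j

lemma sum_wt (ρ : ℝ) (T φ : ℕ → ℝ) (n : ℕ) :
    ∑ j ∈ range (n + 1), wt ρ T j * φ j
      = T n * φ n + ∑ j ∈ range n, T j * (φ j - ρ * φ (j + 1)) := by
  induction n with
  | zero => simp [wt]
  | succ n ih => rw [Finset.sum_range_succ, ih, Finset.sum_range_succ, wt]; ring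

lemma Q_wt (ε : ℝ) (hε : 0 ≤ ε) (T : ℕ → ℝ) (n : ℕ) :
    Q (range (n + 1)) (fun i j : ℕ => k1 (i * ε) (j * ε)) (wt (exp (-ε)) T)
      = T n ^ 2 + (1 - exp (-ε) ^ 2) * ∑ j ∈ range n, T j ^ 2 := by
  induction n with
  | zero => simp [Q, wt, k1_self, sq]
  | succ n ih =>
    rw [Finset.range_add_one (n := n + 1), Q_insert _ _ (by simp) _ (fun i j => k1_symm _ _), ih,
      k1_self]
    have h1 : ∑ x ∈ range (n + 1), wt (exp (-ε)) T x * k1 (x * ε) (((n + 1 : ℕ) : ℝ) * ε)
        = ∑ x ∈ range (n + 1), wt (exp (-ε)) T x * exp (-((n + 1 - x) * ε)) := by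
      refine Finset.sum_congr rfl fun x hx => ?_
      have hx' : (x : ℝ) ≤ n := by exact_mod_cast Nat.lt_succ_iff.1 (Finset.mem_range.1 hx)
      rw [k1, abs_of_nonpos (by push_cast; nlinarith)]
      congr 2; push_cast; ring
    have h2 : ∀ j : ℕ, exp (-((n + 1 - (j : ℝ)) * ε))
        - exp (-ε) * exp (-((n + 1 - ((j + 1 : ℕ) : ℝ)) * ε)) = 0 := by
      intro j
      rw [← exp_add, sub_eq_zero]; congr 1; push_cast; ring
    rw [h1, sum_wt]
    simp only [h2, mul_zero, Finset.sum_const_zero, add_zero, Finset.sum_range_succ, wt]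
    rw [show (n + 1 - (n : ℝ)) * ε = ε by ring]
    ring

lemma sum_parity (N : ℕ) (g : ℕ → ℝ) (a b : ℝ) (h0 : ∀ j < 2 * N, j % 2 = 0 → g j = a)
    (h1 : ∀ j < 2 * N, j % 2 = 1 → g j = b) : ∑ j ∈ range (2 * N), g j = N * (a + b) := by
  induction N with
  | zero => simp
  | succ N ih =>
    rw [show 2 * (N + 1) = 2 * N + 1 + 1 by ring, Finset.sum_range_succ, Finset.sum_range_succ,
      ih (fun j hj => h0 j (by omega)) (fun j hj => h1 j (by omega)),
      h0 (2 * N) (by omega) (by omega), h1 (2 * N + 1) (by omega) (by omega)]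
    push_cast; ring

lemma Q_option {ι : Type} (s : Finset ι) (K : Option ι → Option ι → ℝ)
    (hs : ∀ i j, K i j = K j i) (v : Option ι → ℝ) :
    Q (insertNone s) K v = v none ^ 2 * K none none
      + 2 * v none * ∑ j ∈ s, v (some j) * K (some j) none
      + Q s (fun i j => K (some i) (some j)) (fun i => v (some i)) := by
  unfold Q
  simp only [Finset.sum_insertNone, Finset.sum_add_distrib]
  have h1 : ∑ j ∈ s, v none * v (some j) * K none (some j)
      = v none * ∑ x ∈ s, v (some x) * K (some x) none := by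
    rw [Finset.mul_sum]; exact Finset.sum_congr rfl fun j _ => by rw [hs none]; ring
  have h2 : ∑ j ∈ s, v (some j) * v none * K (some j) none
      = v none * ∑ x ∈ s, v (some x) * K (some x) none := by
    rw [Finset.mul_sum]; exact Finset.sum_congr rfl fun j _ => by ring
  rw [h1, h2]; ring

lemma N_bound (N : ℕ) (hN : 0 < N) : (N : ℝ) / (N + 1) ≤ N * (1 - exp (-(1 / (N : ℝ)))) := by
  have hN' : (0 : ℝ) < N := by exact_mod_cast hN
  have h1 := add_one_le_exp (1 / (N : ℝ))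
  have h2 : exp (-(1 / (N : ℝ))) ≤ N / (N + 1) := by
    rw [exp_neg, inv_le_comm₀ (exp_pos _) (by positivity), inv_div]
    refine le_trans (le_of_eq ?_) h1
    field_simp; ring
  have h3 : (N : ℝ) / (N + 1) = N * (1 - N / (N + 1)) := by field_simp; ring
  rw [h3]
  exact mul_le_mul_of_nonneg_left (by linarith) hN'.le

/-- thin rectangle together with an apex point -/
def Rect (h : ℝ) : Set (ℝ × ℝ) := (Set.Icc 0 2 ×ˢ Set.Icc 0 h) ∪ {(1, 1)}

lemma exp_neg_one_bounds : 0.36787 < exp (-1) ∧ exp (-1) < 0.36788 :=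
  ⟨lt_trans (by norm_num) exp_neg_one_gt_d9, lt_trans exp_neg_one_lt_d9 (by norm_num)⟩

lemma rect_upper : magnitude (Rect 0) ≤ ENNReal.ofReal 2.1 := by
  classical
  refine mag_upper posDef_plane _ _ fun ι _ a v ha => ?_
  set s1 : Finset ι := univ.filter fun i => a i = (1, 1) with hs1
  set s2 : Finset ι := univ.filter fun i => ¬ a i = (1, 1) with hs2
  have hsplit : ∀ f : ι → ℝ, ∑ i, f i = ∑ i ∈ s1, f i + ∑ i ∈ s2, f i := fun f =>
    (Finset.sum_filter_add_sum_filter_not _ _ f).symm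
  have hm1 : ∀ i ∈ s1, a i = (1, 1) := fun i hi => (Finset.mem_filter.1 hi).2
  have hm2 : ∀ i ∈ s2, (0 ≤ (a i).1 ∧ (a i).1 ≤ 2) ∧ (a i).2 = 0 := by
    intro i hi
    rcases ha i with h | h
    · exact ⟨h.1, le_antisymm h.2.2 h.2.1⟩
    · exact absurd h (Finset.mem_filter.1 hi).2
  set r := exp (-1) with hr
  have k11 : ∀ i ∈ s1, ∀ j ∈ s1, KE (a i) (a j) = 1 := fun i hi j hj => by
    rw [hm1 i hi, hm1 j hj, KE_self]
  have k12 : ∀ i ∈ s1, ∀ j ∈ s2, KE (a i) (a j) = r := fun i hi j hj => by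
    obtain ⟨⟨h1, h2⟩, h3⟩ := hm2 j hj
    rw [hm1 i hi, KE, Prod.dist_eq, Real.dist_eq, Real.dist_eq, h3, hr]
    congr 2
    simp only [sub_zero, abs_one]
    exact max_eq_right (abs_le.2 ⟨by linarith, by linarith⟩)
  have k22 : ∀ i ∈ s2, ∀ j ∈ s2, KE (a i) (a j) = k1 (a i).1 (a j).1 := fun i hi j hj => by
    rw [KE, k1, Prod.dist_eq, Real.dist_eq, Real.dist_eq, (hm2 i hi).2, (hm2 j hj).2]
    simp
  set c := ∑ i ∈ s1, v i with hc
  set S := ∑ i ∈ s2, v i with hS
  have hQ : Q univ (fun i j => KE (a i) (a j)) v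
      = c ^ 2 + 2 * c * r * S + Q s2 (fun i j => k1 (a i).1 (a j).1) v := by
    unfold Q
    rw [hsplit]
    simp only [hsplit (fun j => _ * v j * KE _ (a j)), Finset.sum_add_distrib]
    have e11 : ∑ i ∈ s1, ∑ j ∈ s1, v i * v j * KE (a i) (a j) = c ^ 2 := by
      rw [sq, hc, Finset.sum_mul_sum]
      exact Finset.sum_congr rfl fun i hi => Finset.sum_congr rfl fun j hj => by
        rw [k11 i hi j hj, mul_one]
    have e12 : ∑ i ∈ s1, ∑ j ∈ s2, v i * v j * KE (a i) (a j) = c * S * r := by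
      rw [hc, hS, Finset.sum_mul_sum, Finset.sum_mul]
      exact Finset.sum_congr rfl fun i hi => by
        rw [Finset.sum_mul]
        exact Finset.sum_congr rfl fun j hj => by rw [k12 i hi j hj]
    have e21 : ∑ i ∈ s2, ∑ j ∈ s1, v i * v j * KE (a i) (a j) = S * c * r := by
      rw [hc, hS, Finset.sum_mul_sum, Finset.sum_mul]
      exact Finset.sum_congr rfl fun i hi => by
        rw [Finset.sum_mul]
        exact Finset.sum_congr rfl fun j hj => by rw [KE_symm, k12 j hj i hi]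
    have e22 : ∑ i ∈ s2, ∑ j ∈ s2, v i * v j * KE (a i) (a j)
        = ∑ i ∈ s2, ∑ j ∈ s2, v i * v j * k1 (a i).1 (a j).1 :=
      Finset.sum_congr rfl fun i hi => Finset.sum_congr rfl fun j hj => by rw [k22 i hi j hj]
    rw [e11, e12, e21, e22]; ring
  have hl := line_upper s2 (fun i => (a i).1) v 0 2 (1 - c * r) (by norm_num)
    (fun i hi => (hm2 i hi).1)
  rw [hQ, hsplit v, ← hc, ← hS]
  rw [← hS] at hl
  obtain ⟨hr1, hr2⟩ := exp_neg_one_bounds
  rw [← hr] at hr1 hr2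
  have h3 : 2 * c - c ^ 2 + 2 * (1 - c * r) ^ 2 ≤ 2.1 := by
    have hr3 : r ^ 2 < 0.1354 := by nlinarith
    have h4 : c ^ 2 * r ^ 2 ≤ c ^ 2 * 0.1354 := mul_le_mul_of_nonneg_left hr3.le (sq_nonneg c)
    rcases le_total 0 c with hc0 | hc0
    · have := mul_le_mul_of_nonneg_left hr1.le hc0
      nlinarith [sq_nonneg (c - 0.3625)]
    · have := mul_le_mul_of_nonpos_left hr2.le hc0
      nlinarith [sq_nonneg (c - 0.3625)]
  nlinarith

/-- zigzag points -/
noncomputable def zig (ε : ℝ) : Option ℕ → ℝ × ℝ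
  | none => (1, 1)
  | some j => (j * ε, ((j % 2 : ℕ) : ℝ) * ε)

lemma rect_lower (N : ℕ) (hN : 200 ≤ N) :
    ENNReal.ofReal 2.105 ≤ magnitude (Rect (1 / (N : ℝ))) := by
  classical
  have hN' : (200 : ℝ) ≤ N := by exact_mod_cast hN
  set ε : ℝ := 1 / (N : ℝ) with hε
  have hε0 : 0 < ε := by positivity
  have hNε : N * ε = 1 := by rw [hε]; field_simp
  have hε1 : ε ≤ 1 / 200 := by nlinarith
  set ρ := exp (-ε) with hρ
  set u := exp ε with hu
  set r := exp (-1) with hr
  have hρu : ρ * u = 1 := by rw [hρ, hu, ← exp_add]; simp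
  let T : ℕ → ℝ := fun j => if j = 2 * N then 5 / 6 else if j % 2 = 0 then 1 / 2 else 1 / 3
  let v : Option ℕ → ℝ := fun o => match o with
    | none => 4 / 9
    | some j => wt ρ T j
  have hmod : ∀ j : ℕ, ((j % 2 : ℕ) : ℝ) = 0 ∨ ((j % 2 : ℕ) : ℝ) = 1 := fun j => by
    rcases Nat.mod_two_eq_zero_or_one j with h | h <;> simp [h]
  have hle : ∀ j ∈ range (2 * N + 1), (j : ℝ) ≤ 2 * N := fun j hj => by
    exact_mod_cast Nat.lt_succ_iff.1 (Finset.mem_range.1 hj)
  have hmem : ∀ o ∈ insertNone (range (2 * N + 1)), zig ε o ∈ Rect ε := by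
    intro o ho
    cases o with
    | none => exact Or.inr rfl
    | some j =>
      have hj := hle j (by simpa using ho)
      refine Or.inl ⟨⟨by simp only [zig]; positivity, by simp only [zig]; nlinarith⟩,
        ⟨by simp only [zig]; positivity, ?_⟩⟩
      simp only [zig]
      rcases hmod j with h | h <;> rw [h] <;> linarith
  refine le_trans (ENNReal.ofReal_le_ofReal ?_) (mag_lower posDef_plane _ _ (zig ε) v hmem)
  rw [Q_option _ _ (fun i j => KE_symm _ _), Finset.sum_insertNone, KE_self]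
  let φ : ℕ → ℝ := fun j => if j % 2 = 0 then r else r * u
  have hφ : ∑ j ∈ range (2 * N + 1), v (some j) * KE (zig ε (some j)) (zig ε none)
      = ∑ j ∈ range (2 * N + 1), wt ρ T j * φ j := by
    refine Finset.sum_congr rfl fun j hj => ?_
    have hj' := hle j hj
    have hj0 : (0 : ℝ) ≤ j := Nat.cast_nonneg j
    congr 1
    simp only [KE, zig, φ, Prod.dist_eq, Real.dist_eq]
    rcases Nat.mod_two_eq_zero_or_one j with h | h
    · simp only [h, if_true, hr, Nat.cast_zero, zero_mul, zero_sub, abs_neg, abs_one]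
      congr 2
      exact max_eq_right (abs_le.2 ⟨by nlinarith, by nlinarith⟩)
    · have h1 : (1 : ℝ) ≤ j := by exact_mod_cast (show 1 ≤ j by omega)
      have h2 : (j : ℝ) + 1 ≤ 2 * N := by
        have := Finset.mem_range.1 hj
        exact_mod_cast (show j + 1 ≤ 2 * N by omega)
      simp only [h, one_ne_zero, if_false, hr, hu, Nat.cast_one, one_mul, ← exp_add]
      congr 1
      rw [abs_of_nonpos (show ε - 1 ≤ 0 by linarith),
        max_eq_right (abs_le.2 ⟨by nlinarith, by nlinarith⟩)]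
      ring
  have hK : Q (range (2 * N + 1)) (fun i j => KE (zig ε (some i)) (zig ε (some j)))
      (fun i => v (some i)) = Q (range (2 * N + 1)) (fun i j : ℕ => k1 (i * ε) (j * ε)) (wt ρ T) := by
    unfold Q
    refine Finset.sum_congr rfl fun i _ => Finset.sum_congr rfl fun j _ => ?_
    congr 1
    simp only [KE, zig, k1, Prod.dist_eq, Real.dist_eq]
    congr 2
    refine max_eq_left ?_
    rcases eq_or_ne i j with rfl | hij
    · simp
    · have h1 : (1 : ℝ) ≤ |(i : ℝ) - j| := by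
        have : (1 : ℤ) ≤ |(i : ℤ) - j| := Int.one_le_abs (by omega)
        exact_mod_cast this
      rw [← sub_mul, ← sub_mul, abs_mul, abs_mul]
      refine mul_le_mul_of_nonneg_right (le_trans ?_ h1) (abs_nonneg _)
      rcases hmod i with h | h <;> rcases hmod j with h' | h' <;> rw [h, h'] <;> norm_num
  have hsum : ∑ j ∈ range (2 * N + 1), v (some j) = ∑ j ∈ range (2 * N + 1), wt ρ T j * 1 := by
    simp [v]
  rw [hφ, hK, hsum, sum_wt, sum_wt, Q_wt ε hε0.le, ← hρ]
  have hT0 : ∀ j < 2 * N, j % 2 = 0 → T j = 1 / 2 := fun j hj h => by simp [T, hj.ne, h]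
  have hT1 : ∀ j < 2 * N, j % 2 = 1 → T j = 1 / 3 := fun j hj h => by simp [T, hj.ne, h]
  have hTn : T (2 * N) = 5 / 6 := by simp [T]
  have hφn : φ (2 * N) = r := by simp [φ]
  rw [sum_parity N (fun j => T j * (1 - ρ * 1)) (1 / 2 * (1 - ρ)) (1 / 3 * (1 - ρ))
      (fun j hj h => by simp only [hT0 j hj h, mul_one]) (fun j hj h => by simp only [hT1 j hj h, mul_one]),
    sum_parity N (fun j => T j * (φ j - ρ * φ (j + 1))) 0 (1 / 3 * (r * (1 + u) * (1 - ρ)))
      (fun j hj h => by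
        have h' : ¬ (j + 1) % 2 = 0 := by omega
        simp only [φ, h, h', if_true, if_false]
        rw [show ρ * (r * u) = r * (ρ * u) by ring, hρu]; ring)
      (fun j hj h => by
        have h' : (j + 1) % 2 = 0 := by omega
        have h'' : ¬ j % 2 = 0 := by omega
        simp only [φ, h', h'', if_true, if_false, hT1 j hj h]
        linear_combination (1 / 3 * r) * hρu),
    sum_parity N (fun j => T j ^ 2) (1 / 4) (1 / 9)
      (fun j hj h => by simp only [hT0 j hj h]; norm_num)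
      (fun j hj h => by simp only [hT1 j hj h]; norm_num), hTn, hφn]
  obtain ⟨hr1, hr2⟩ := exp_neg_one_bounds
  rw [← hr] at hr1 hr2
  have hρ1 : ρ ≤ 1 := by rw [hρ]; exact exp_le_one_iff.2 (by linarith)
  have hρ2 : 1 - ε ≤ ρ := by have := add_one_le_exp (-ε); rw [hρ]; linarith
  have hu0 : 0 < u := exp_pos _
  have hu1 : u ≤ 1.01 := by nlinarith
  have hD := N_bound N (by omega)
  rw [← hε, ← hρ] at hD
  have hD2 : (200 : ℝ) / 201 ≤ N / (N + 1) := by
    rw [div_le_div_iff₀ (by norm_num) (by linarith)]; linarith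
  set D := (N : ℝ) * (1 - ρ) with hDdef
  have hD3 : 200 / 201 ≤ D := hD2.trans hD
  have hru : r * (1 + u) ≤ 0.36788 * 2.01 := mul_le_mul hr2.le (by linarith) (by linarith) (by norm_num)
  have hb : 0.725 ≤ 5 / 3 - 8 / 27 * (r * (1 + u)) - 13 / 36 * (1 + ρ) := by linarith
  have hDb : 200 / 201 * 0.725 ≤ D * (5 / 3 - 8 / 27 * (r * (1 + u)) - 13 / 36 * (1 + ρ)) :=
    mul_le_mul hD3 hb (by norm_num) (by linarith)
  simp only [v]
  have key : 2 * (4 / 9 + (5 / 6 * 1 + N * (1 / 2 * (1 - ρ) + 1 / 3 * (1 - ρ))))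
      - ((4 / 9) ^ 2 * 1 + 2 * (4 / 9) * (5 / 6 * r + N * (0 + 1 / 3 * (r * (1 + u) * (1 - ρ))))
        + ((5 / 6) ^ 2 + (1 - ρ ^ 2) * (N * (1 / 4 + 1 / 9))))
      = 8 / 9 + 5 / 3 - 16 / 81 - 20 / 27 * r - 25 / 36
        + D * (5 / 3 - 8 / 27 * (r * (1 + u)) - 13 / 36 * (1 + ρ)) := by
    rw [hDdef]; ring
  rw [key]
  linarith

lemma rect_compact (h : ℝ) : IsCompact (Rect h) :=
  (isCompact_Icc.prod isCompact_Icc).union isCompact_singleton

lemma rect_nonempty (h : ℝ) : (Rect h).Nonempty := ⟨(1, 1), Or.inr rfl⟩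

lemma rect_hausdorff (h : ℝ) (hh : 0 ≤ h) : Metric.hausdorffDist (Rect h) (Rect 0) ≤ h := by
  refine Metric.hausdorffDist_le_of_mem_dist hh ?_ ?_
  · rintro x (hx | hx)
    · refine ⟨(x.1, 0), Or.inl ⟨hx.1, by simp⟩, ?_⟩
      rw [Prod.dist_eq]
      simp only [dist_self, Real.dist_eq, sub_zero]
      exact max_le hh (by rw [abs_of_nonneg hx.2.1]; exact hx.2.2)
    · exact ⟨x, Or.inr hx, by simpa using hh⟩
  · rintro x (hx | hx)
    · exact ⟨x, Or.inl ⟨hx.1, hx.2.1, hx.2.2.trans hh⟩, by simpa using hh⟩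
    · exact ⟨x, Or.inr hx, by simpa using hh⟩

lemma tendsto_rect :
    Tendsto (fun k : ℕ => Metric.hausdorffDist (Rect (1 / ((k + 1 : ℕ) : ℝ))) (Rect 0)) atTop (𝓝 0) := by
  refine squeeze_zero (fun _ => Metric.hausdorffDist_nonneg)
    (fun k => rect_hausdorff _ (by positivity)) ?_
  simpa using tendsto_one_div_add_atTop_nhds_zero_nat (𝕜 := ℝ)

lemma not_tendsto_rect : ¬ Tendsto (fun k : ℕ => magnitude (Rect (1 / ((k + 1 : ℕ) : ℝ)))) atTop
    (𝓝 (magnitude (Rect 0))) :=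
  not_tendsto_of_gap _ _ 2.1 2.105 (by norm_num) (by norm_num) rect_upper
    (eventually_atTop.2 ⟨200, fun k hk => rect_lower (k + 1) (by omega)⟩)

theorem plane_discontinuous : ¬ MagContinuousOn (E := ℝ × ℝ) (fun _ => True) := fun h =>
  not_tendsto_rect (h _ _ (fun _ => ⟨rect_compact _, rect_nonempty _, trivial⟩) (rect_compact _)
    (rect_nonempty _) trivial tendsto_rect)

end Pool.Agent.H323Z.Mag
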