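import Pool.Agent.H323Z.MagC

set_option autoImplicit false

open Finset Real Filter Topology

namespace Pool.Agent.H323Z.Mag

/-- vertices of the small simplices in `ℓ¹` -/
noncomputable def vert (ε : ℝ) : Option ℕ → L1
  | none => 0
  | some j => lp.single 1 j ε

/-- small simplex of large dimension -/
noncomputable def Simp (N : ℕ) : Set L1 :=
  convexHull ℝ (vert (1 / (N : ℝ)) '' ↑(insertNone (range N)))

lemma dist_vert_none (ε : ℝ) (hε : 0 ≤ ε) (j : ℕ) : dist (vert ε (some j)) (vert ε none) = ε := by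
  simp only [vert, dist_zero_right]
  rw [lp.norm_single (by norm_num), Real.norm_eq_abs, abs_of_nonneg hε]

lemma dist_vert (ε : ℝ) (hε : 0 ≤ ε) (i j : ℕ) (hij : i ≠ j) :
    dist (vert ε (some i)) (vert ε (some j)) = 2 * ε := by
  have h := hasSum_dist (vert ε (some i)) (vert ε (some j))
  have h2 : HasSum (fun m => |(vert ε (some i)) m - (vert ε (some j)) m|)
      (∑ m ∈ {i, j}, |(vert ε (some i)) m - (vert ε (some j)) m|) := by
    refine hasSum_sum_of_ne_finset_zero fun m hm => ?_
    simp only [Finset.mem_insert, Finset.mem_singleton, not_or] at hm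
    simp only [vert]
    rw [lp.single_apply_ne _ _ _ hm.1, lp.single_apply_ne _ _ _ hm.2]
    simp
  rw [h.unique h2, Finset.sum_pair hij]
  simp only [vert]
  rw [lp.single_apply_self, lp.single_apply_self, lp.single_apply_ne _ _ _ hij,
    lp.single_apply_ne _ _ _ hij.symm]
  simp only [sub_zero, zero_sub, abs_neg, abs_of_nonneg hε]
  ring

lemma point_upper : magnitude ({0} : Set L1) ≤ ENNReal.ofReal 1 := by
  refine mag_upper posDef_L1 _ _ fun ι _ a v ha => ?_
  have : Q univ (fun i j => KE (a i) (a j)) v = (∑ i, v i) ^ 2 := by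
    rw [sq, Finset.sum_mul_sum, Q]
    refine Finset.sum_congr rfl fun i _ => Finset.sum_congr rfl fun j _ => ?_
    rw [Set.mem_singleton_iff.1 (ha i), Set.mem_singleton_iff.1 (ha j), KE_self, mul_one]
  rw [this]
  nlinarith [sq_nonneg (∑ i, v i - 1)]

lemma simp_lower (N : ℕ) (hN : 0 < N) : ENNReal.ofReal 1.25 ≤ magnitude (Simp N) := by
  classical
  have hN' : (1 : ℝ) ≤ N := by exact_mod_cast hN
  set ε : ℝ := 1 / (N : ℝ) with hε
  have hε0 : 0 < ε := by positivity
  set ρ := exp (-ε) with hρ
  let v : Option ℕ → ℝ := fun o => match o with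
    | none => 1 - N * ρ / 2
    | some _ => 1 / 2
  refine le_trans (ENNReal.ofReal_le_ofReal ?_) (mag_lower posDef_L1 _ (insertNone (range N))
    (vert ε) v (fun o ho => subset_convexHull ℝ _ ⟨o, ho, rfl⟩))
  rw [Q_option _ _ (fun i j => KE_symm _ _), Finset.sum_insertNone, KE_self]
  have h1 : ∀ j, KE (vert ε (some j)) (vert ε none) = ρ := fun j => by
    rw [KE, dist_vert_none ε hε0.le]
  have h2 : ∀ i j, KE (vert ε (some i)) (vert ε (some j))
      = ρ ^ 2 + if i = j then 1 - ρ ^ 2 else 0 := by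
    intro i j
    split_ifs with hij
    · rw [hij, KE_self]; ring
    · rw [KE, dist_vert ε hε0.le i j hij, add_zero, hρ, ← exp_nat_mul]; congr 1; push_cast; ring
  have h3 : Q (range N) (fun i j => KE (vert ε (some i)) (vert ε (some j))) (fun i => v (some i))
      = N * (1 / 4 * (N * ρ ^ 2 + (1 - ρ ^ 2))) := by
    unfold Q
    rw [← nsmul_eq_mul, ← Finset.card_range N, ← Finset.sum_const, Finset.card_range]
    refine Finset.sum_congr rfl fun i hi => ?_
    simp only [h2, v, mul_add, Finset.sum_add_distrib, Finset.sum_const, Finset.card_range,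
      nsmul_eq_mul, mul_ite, mul_zero, Finset.sum_ite_eq, hi, if_true]
    ring
  rw [h3]
  simp only [h1, v, Finset.sum_const, Finset.card_range, nsmul_eq_mul]
  have hD := N_bound N hN
  rw [← hε, ← hρ] at hD
  have hD2 : (1 : ℝ) / 2 ≤ N / (N + 1) := by
    rw [div_le_div_iff₀ (by norm_num) (by linarith)]; linarith
  have hρ1 : ρ ≤ 1 := by rw [hρ]; exact exp_le_one_iff.2 (by linarith)
  have h4 : 1 / 2 * 2 ≤ (N * (1 - ρ)) * (3 - ρ) :=
    mul_le_mul (hD2.trans hD) (by linarith) (by norm_num) (by linarith)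
  nlinarith

lemma simp_compact (N : ℕ) : IsCompact (Simp N) :=
  (((insertNone (range N)).finite_toSet).image _).isCompact_convexHull ℝ

lemma zero_mem_simp (N : ℕ) : (0 : L1) ∈ Simp N :=
  subset_convexHull ℝ _ ⟨none, by simp, rfl⟩

lemma simp_hausdorff (N : ℕ) : Metric.hausdorffDist (Simp N) {0} ≤ 1 / (N : ℝ) := by
  have hε : (0 : ℝ) ≤ 1 / (N : ℝ) := by positivity
  refine Metric.hausdorffDist_le_of_mem_dist hε (fun x hx => ⟨0, rfl, ?_⟩) ?_
  · have : Simp N ⊆ Metric.closedBall 0 (1 / (N : ℝ)) := by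
      refine convexHull_min ?_ (convex_closedBall _ _)
      rintro _ ⟨o, _, rfl⟩
      cases o with
      | none => simp [vert]
      | some j => exact (dist_vert_none _ hε j).le
    exact this hx
  · rintro x rfl
    exact ⟨0, zero_mem_simp N, by simp⟩

theorem L1_discontinuous (C : Set L1 → Prop) (hC : ∀ A, Convex ℝ A → C A) :
    ¬ MagContinuousOn C := by
  intro h
  refine not_tendsto_of_gap (fun k => Simp (k + 1)) {0} 1 1.25 (by norm_num) (by norm_num)
    point_upper (Eventually.of_forall fun k => simp_lower (k + 1) (by omega)) ?_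
  refine h _ _ (fun k => ⟨simp_compact _, ⟨0, zero_mem_simp _⟩, hC _ (convex_convexHull _ _)⟩)
    isCompact_singleton (Set.singleton_nonempty _) (hC _ (convex_singleton _)) ?_
  refine squeeze_zero (fun _ => Metric.hausdorffDist_nonneg) (fun k => simp_hausdorff _) ?_
  simpa using tendsto_one_div_add_atTop_nhds_zero_nat (𝕜 := ℝ)

end Pool.Agent.H323Z.Mag
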