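import Pool.Agent.H323Z.MagC

set_option autoImplicit false

/-! Upper bound for the magnitude of a flat parallelogram in `ℓ¹` of dimension three. -/

open Finset Real Filter Topology MeasureTheory

namespace Pool.Agent.H323Z.Mag

/-- integrable with given integral -/
def HI {X : Type} [MeasurableSpace X] (μ : Measure X) (f : X → ℝ) (c : ℝ) : Prop :=
  Integrable f μ ∧ ∫ x, f x ∂μ = c

section HI

variable {X : Type} [MeasurableSpace X] {μ : Measure X}

lemma HI.add {f g : X → ℝ} {c d : ℝ} (h : HI μ f c) (h' : HI μ g d) :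
    HI μ (fun x => f x + g x) (c + d) :=
  ⟨h.1.add h'.1, by rw [integral_add h.1 h'.1, h.2, h'.2]⟩

lemma HI.cmul {f : X → ℝ} {c : ℝ} (h : HI μ f c) (t : ℝ) : HI μ (fun x => t * f x) (t * c) :=
  ⟨h.1.const_mul t, by rw [integral_const_mul, h.2]⟩

lemma HI.sum {ι : Type} (s : Finset ι) {f : ι → X → ℝ} {c : ι → ℝ}
    (h : ∀ i, HI μ (f i) (c i)) : HI μ (fun x => ∑ i ∈ s, f i x) (∑ i ∈ s, c i) :=
  ⟨integrable_finsetSum s fun i _ => (h i).1, by
    rw [integral_finsetSum s fun i _ => (h i).1]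
    exact Finset.sum_congr rfl fun i _ => (h i).2⟩

lemma HI.congr {f g : X → ℝ} {c d : ℝ} (h : HI μ f c) (hf : ∀ x, g x = f x) (hc : d = c) :
    HI μ g d := by
  rw [funext hf, hc]; exact h

lemma HI.le {f g : X → ℝ} {c d : ℝ} (h : HI μ f c) (h' : HI μ g d) (hfg : ∀ x, f x ≤ g x) :
    c ≤ d := by
  rw [← h.2, ← h'.2]; exact integral_mono h.1 h'.1 hfg

end HI

/-- Lebesgue measure in dimension three -/
noncomputable abbrev vol3 : Measure ((ℝ × ℝ) × ℝ) := (volume.prod volume).prod volume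

lemma HI.prod3 {f g h : ℝ → ℝ} {a b c : ℝ} (h1 : HI volume f a) (h2 : HI volume g b)
    (h3 : HI volume h c) : HI vol3 (fun u => f u.1.1 * g u.1.2 * h u.2) (a * b * c) :=
  ⟨(h1.1.mul_prod h2.1).mul_prod h3.1, by
    rw [integral_prod_mul (fun p : ℝ × ℝ => f p.1 * g p.2) h, integral_prod_mul, h1.2, h2.2, h3.2]⟩

lemma HI.shear {F : (ℝ × ℝ) × ℝ → ℝ} {c : ℝ} (h : HI vol3 F c) :
    HI vol3 (fun u => F (u.1, u.1.1 + u.1.2 + u.2)) c := by
  have hS : MeasurePreserving (fun u : (ℝ × ℝ) × ℝ => (id u.1, u.1.1 + u.1.2 + u.2)) vol3 vol3 :=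
    MeasurePreserving.skew_product (g := fun (p : ℝ × ℝ) (t : ℝ) => p.1 + p.2 + t)
      (MeasurePreserving.id _) (by unfold Function.uncurry; fun_prop)
      (Eventually.of_forall fun p => map_add_left_eq_self _ _)
  refine ⟨hS.integrable_comp_of_integrable h.1, ?_⟩
  rw [← h.2]
  conv_rhs => rw [← hS.map_eq]
  rw [integral_map hS.measurable.aemeasurable (by rw [hS.map_eq]; exact h.1.1)]
  rfl

/-- truncated exponential -/
noncomputable def ex (a l u : ℝ) : ℝ := if a < u then exp (-l * u) else 0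

lemma ex_nonneg (a l u : ℝ) : 0 ≤ ex a l u := by
  unfold ex; split_ifs <;> positivity

lemma HI_ex (a l : ℝ) (hl : 0 < l) : HI volume (ex a l) (exp (-l * a) / l) := by
  have h : ex a l = (Set.Ioi a).indicator fun u => exp (-l * u) := by
    funext u; simp [ex, Set.indicator]
  rw [h]
  refine ⟨(integrable_indicator_iff measurableSet_Ioi).2
    (integrableOn_exp_mul_Ioi (by linarith) a), ?_⟩
  rw [integral_indicator measurableSet_Ioi, integral_exp_mul_Ioi (by linarith), neg_div_neg_eq]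

/-- feature map of the one-dimensional kernel -/
noncomputable def ft (a u : ℝ) : ℝ := exp a * ex a 1 u

lemma HI_ft_ft (a b : ℝ) : HI volume (fun u => ft a u * ft b u) (k1 a b / 2) := by
  refine ((HI_ex (max a b) 2 two_pos).cmul (exp (a + b))).congr (fun u => ?_) ?_
  · simp only [ft, ex, max_lt_iff]
    by_cases h1 : a < u <;> by_cases h2 : b < u <;> simp [h1, h2, ← exp_add]
    ring
  · rw [k1, ← mul_div_assoc, ← exp_add]
    congr 2
    rcases le_total a b with h | h
    · rw [max_eq_right h, abs_of_nonpos (by linarith)]; ring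
    · rw [max_eq_left h, abs_of_nonneg (by linarith)]; ring

lemma HI_exp_ft (a l : ℝ) (hl : 0 ≤ l) :
    HI volume (fun u => exp (-l * u) * ft a u) (exp (-l * a) / (l + 1)) := by
  refine ((HI_ex a (l + 1) (by linarith)).cmul (exp a)).congr (fun u => ?_) ?_
  · simp only [ft, ex]
    by_cases h1 : a < u <;> simp [h1, ← exp_add]
    ring
  · rw [← mul_div_assoc, ← exp_add]
    congr 2; ring

/-- cut-off function -/
noncomputable def psi (R u : ℝ) : ℝ :=
  (Set.Ioc 0 R).indicator (fun _ => (1 : ℝ)) u + exp (R / 100) * ex R (1 / 100) u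

lemma HI_psi (R : ℝ) (hR : 0 ≤ R) : HI volume (psi R) (R + 100) := by
  have h1 : HI volume ((Set.Ioc 0 R).indicator (fun _ => (1 : ℝ))) R :=
    ⟨(integrable_indicator_iff measurableSet_Ioc).2 (integrableOn_const (by simp)), by
      rw [integral_indicator measurableSet_Ioc]; simp [hR]⟩
  refine (h1.add ((HI_ex R (1 / 100) (by norm_num)).cmul (exp (R / 100)))).congr (fun u => rfl) ?_
  rw [← mul_div_assoc, ← exp_add, show R / 100 + -(1 / 100) * R = 0 by ring, exp_zero]
  norm_num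

lemma psi_nonneg (R u : ℝ) : 0 ≤ psi R u :=
  add_nonneg (Set.indicator_nonneg (fun _ _ => zero_le_one) _)
    (mul_nonneg (exp_pos _).le (ex_nonneg _ _ _))

lemma psi_ge (R u s : ℝ) (hu : 0 < u) (hs : 0 ≤ s) (h : u ≤ R + s) : 1 ≤ exp (s / 100) * psi R u := by
  have h1 : 1 ≤ exp (s / 100) := one_le_exp (by positivity)
  by_cases hR : R < u
  · have : u ∉ Set.Ioc 0 R := fun h => absurd h.2 (not_le.2 hR)
    rw [psi, Set.indicator_of_notMem this, zero_add, ex, if_pos hR, ← exp_add, ← exp_add]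
    exact one_le_exp (by linarith)
  · rw [psi, Set.indicator_of_mem (show u ∈ Set.Ioc 0 R from ⟨hu, not_lt.1 hR⟩), ex, if_neg hR]
    simpa using h1

/-- profile in the normal direction -/
noncomputable def gg (s : ℝ) : ℝ := 27 / 32 * exp (-(1 / 2) * s) + -1 * exp (-1 * s)

/-- weighted square of the profile -/
noncomputable def GG (s : ℝ) : ℝ :=
  (27 / 32) ^ 2 * ex 0 (49 / 50) s + -(27 / 16) * ex 0 (37 / 25) s + ex 0 (99 / 50) s

lemma GG_eq (s : ℝ) (hs : 0 < s) : GG s = gg s ^ 2 * exp (s / 100) ^ 2 := by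
  simp only [GG, gg, ex, hs, if_true]
  have e1 : exp (-(49 / 50) * s) = (exp (-(1 / 2) * s) * exp (s / 100)) ^ 2 := by
    rw [← exp_add, sq, ← exp_add]; congr 1; ring
  have e2 : exp (-(37 / 25) * s) = (exp (-(1 / 2) * s) * exp (s / 100))
      * (exp (-1 * s) * exp (s / 100)) := by
    rw [← exp_add, ← exp_add, ← exp_add]; congr 1; ring
  have e3 : exp (-(99 / 50) * s) = (exp (-1 * s) * exp (s / 100)) ^ 2 := by
    rw [← exp_add, sq, ← exp_add]; congr 1; ring
  rw [e1, e2, e3]; ring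

lemma GG_nonneg (s : ℝ) : 0 ≤ GG s := by
  by_cases hs : 0 < s
  · rw [GG_eq s hs]; positivity
  · simp [GG, ex, hs]

lemma HI_GG : HI volume GG ((27 / 32) ^ 2 * (50 / 49) - 27 / 16 * (25 / 37) + 50 / 99) :=
  ((((HI_ex 0 (49 / 50) (by norm_num)).cmul _).add ((HI_ex 0 (37 / 25) (by norm_num)).cmul _)).add
    (HI_ex 0 (99 / 50) (by norm_num))).congr (fun _ => rfl) (by norm_num)

lemma flat_upper {ι : Type} [Fintype ι] (R : ℝ) (hR : 0 ≤ R) (x y z v : ι → ℝ)
    (hx : ∀ i, 0 ≤ x i ∧ x i ≤ R) (hy : ∀ i, 0 ≤ y i ∧ y i ≤ R) (hz : ∀ i, x i + y i + z i = 0) :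
    2 * ∑ i, v i - Q univ (fun i j => k1 (x i) (x j) * k1 (y i) (y j) * k1 (z i) (z j)) v
      ≤ 0.7304 * (R + 100) ^ 2 := by
  let Φ : ι → (ℝ × ℝ) × ℝ → ℝ := fun i u => ft (x i) u.1.1 * ft (y i) u.1.2 * ft (z i) u.2
  have h1 : HI vol3 (fun u => (∑ i, v i * Φ i u) ^ 2)
      (Q univ (fun i j => k1 (x i) (x j) * k1 (y i) (y j) * k1 (z i) (z j)) v / 8) := by
    refine (HI.sum univ fun i => HI.sum univ fun j => (HI.prod3 (HI_ft_ft (x i) (x j))
      (HI_ft_ft (y i) (y j)) (HI_ft_ft (z i) (z j))).cmul (v i * v j)).congr (fun u => ?_) ?_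
    · rw [sq, Finset.sum_mul_sum]
      exact Finset.sum_congr rfl fun i _ => Finset.sum_congr rfl fun j _ => by simp only [Φ]; ring
    · simp only [Q, Finset.sum_div]
      exact Finset.sum_congr rfl fun i _ => Finset.sum_congr rfl fun j _ => by ring
  have h2 : ∀ (l : ℝ) (_ : 0 ≤ l) (i : ι),
      HI vol3 (fun u => exp (-l * (u.1.1 + u.1.2 + u.2)) * Φ i u) (1 / (l + 1) ^ 3) := by
    intro l hl i
    refine (HI.prod3 (HI_exp_ft (x i) l hl) (HI_exp_ft (y i) l hl) (HI_exp_ft (z i) l hl)).congr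
      (fun u => ?_) ?_
    · simp only [Φ, mul_add, exp_add]; ring
    · rw [div_mul_div_comm, div_mul_div_comm, ← exp_add, ← exp_add,
        show -l * x i + -l * y i + -l * z i = -l * (x i + y i + z i) by ring, hz i]
      simp only [mul_zero, exp_zero]; ring
  have h3 : HI vol3 (fun u => 2 * (gg (u.1.1 + u.1.2 + u.2) * ∑ i, v i * Φ i u))
      (2 * (∑ i, v i) / 8) := by
    refine ((HI.sum univ fun i => (((h2 (1 / 2) (by norm_num) i).cmul (27 / 32)).add
      ((h2 1 (by norm_num) i).cmul (-1))).cmul (v i)).cmul 2).congr (fun u => ?_) ?_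
    · rw [Finset.mul_sum]
      congr 1
      exact Finset.sum_congr rfl fun i _ => by simp only [gg]; ring
    · rw [mul_div_assoc, Finset.sum_div]
      congr 1
      exact Finset.sum_congr rfl fun i _ => by ring
  have h4 := (HI.prod3 (HI_psi R hR) (HI_psi R hR) HI_GG).shear
  have h5 := h3.le (h1.add h4) fun u => by
    show _ ≤ _ + psi R u.1.1 * psi R u.1.2 * GG (u.1.1 + u.1.2 + u.2)
    by_cases h0 : ∀ i, Φ i u = 0
    · simp only [h0, mul_zero, Finset.sum_const_zero]
      have := mul_nonneg (mul_nonneg (psi_nonneg R u.1.1) (psi_nonneg R u.1.2))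
        (GG_nonneg (u.1.1 + u.1.2 + u.2))
      linarith
    · push Not at h0
      obtain ⟨i, hi⟩ := h0
      have hlt : ∀ a t : ℝ, ft a t ≠ 0 → a < t := fun a t h => by
        by_contra hc; exact h (by simp [ft, ex, hc])
      have l1 := hlt _ _ (left_ne_zero_of_mul (left_ne_zero_of_mul hi))
      have l2 := hlt _ _ (right_ne_zero_of_mul (left_ne_zero_of_mul hi))
      have l3 := hlt _ _ (right_ne_zero_of_mul hi)
      have := hx i; have := hy i; have := hz i
      set s := u.1.1 + u.1.2 + u.2 with hs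
      have hs0 : 0 < s := by linarith
      have p1 := psi_ge R u.1.1 s (by linarith) hs0.le (by linarith)
      have p2 := psi_ge R u.1.2 s (by linarith) hs0.le (by linarith)
      have p3 : 1 * 1 ≤ (exp (s / 100) * psi R u.1.1) * (exp (s / 100) * psi R u.1.2) :=
        mul_le_mul p1 p2 zero_le_one (by linarith)
      have p4 := mul_le_mul_of_nonneg_left p3 (sq_nonneg (gg s))
      rw [GG_eq s hs0]
      nlinarith [sq_nonneg (gg s - ∑ i, v i * Φ i u)]
  nlinarith [sq_nonneg (R + 100)]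

end Pool.Agent.H323Z.Mag
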