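import Pool.Agent.H323Z.MagE

set_option autoImplicit false

/-! Magnitude is discontinuous on compact convex subsets of `ℓ¹` of dimension three. -/

open Finset Real Filter Topology

namespace Pool.Agent.H323Z.Mag

/-- lattice kernel -/
noncomputable def kap (ε : ℝ) (m : ℤ) : ℝ := exp (-|(m : ℝ) * ε|)

lemma kap_zero (ε : ℝ) : kap ε 0 = 1 := by simp [kap]

lemma kap_neg (ε : ℝ) (m : ℤ) : kap ε (-m) = kap ε m := by simp [kap]

lemma kap_succ (ε : ℝ) (hε : 0 ≤ ε) (m : ℤ) (hm : 0 ≤ m) :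
    kap ε (m + 1) = exp (-ε) * kap ε m := by
  have h : (0 : ℝ) ≤ m := by exact_mod_cast hm
  rw [kap, kap, ← exp_add, abs_of_nonneg (by push_cast; positivity), abs_of_nonneg (by positivity)]
  congr 1; push_cast; ring

lemma kap_pred (ε : ℝ) (hε : 0 ≤ ε) (m : ℤ) (hm : m ≤ -1) :
    kap ε m = exp (-ε) * kap ε (m + 1) := by
  rw [← kap_neg ε m, ← kap_neg ε (m + 1), ← kap_succ ε hε _ (by omega)]
  congr 1; ring

/-- coefficient of the second atom -/
noncomputable def cf (ε : ℝ) (d : ℤ) : Bool → ℝ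
  | false => 1
  | true => if d = 0 then 0 else -exp (-ε)

/-- shift of the second atom -/
def sh (d : ℤ) : Bool → ℤ
  | false => 0
  | true => d

/-- inner product of two one-dimensional difference measures -/
noncomputable def BB (ε : ℝ) (p d p' d' : ℤ) : ℝ :=
  ∑ b : Bool, ∑ b' : Bool, cf ε d b * cf ε d' b' * kap ε (p + sh d b - (p' + sh d' b'))

lemma BB_symm (ε : ℝ) (p d p' d' : ℤ) : BB ε p d p' d' = BB ε p' d' p d := by
  unfold BB
  rw [Finset.sum_comm]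
  refine Finset.sum_congr rfl fun b _ => Finset.sum_congr rfl fun b' _ => ?_
  rw [← kap_neg, neg_sub]; ring

section B

variable (ε : ℝ) (hε : 0 ≤ ε)
include hε

lemma B10 (p p' : ℤ) (h : p + 1 ≤ p') : BB ε p 1 p' 0 = 0 := by
  have := kap_pred ε hε (p - p') (by omega)
  simp only [BB, Fintype.sum_bool, cf, sh, if_true, one_ne_zero, if_false, add_zero]
  rw [show p + 1 - p' = p - p' + 1 by ring, this]; ring

lemma B0m (p p' : ℤ) (h : p + 1 ≤ p') : BB ε p 0 p' (-1) = 0 := by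
  have := kap_pred ε hε (p - p') (by omega)
  simp only [BB, Fintype.sum_bool, cf, sh, if_true, neg_eq_zero, one_ne_zero, if_false, add_zero]
  rw [show p - (p' + -1) = p - p' + 1 by ring, this]; ring

lemma B1m (p p' : ℤ) (h : p + 2 ≤ p') : BB ε p 1 p' (-1) = 0 := by
  have h1 := kap_pred ε hε (p - p') (by omega)
  have h2 := kap_pred ε hε (p - p' + 1) (by omega)
  simp only [BB, Fintype.sum_bool, cf, sh, neg_eq_zero, one_ne_zero, if_false, add_zero]
  rw [show p - (p' + -1) = p - p' + 1 by ring, show p + 1 - p' = p - p' + 1 by ring,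
    show p + 1 - (p' + -1) = p - p' + 1 + 1 by ring, h1, h2]; ring

lemma Bsame_aux (m : ℤ) : exp (-ε) ^ 2 * kap ε m - exp (-ε) * kap ε (m + 1)
    - exp (-ε) * kap ε (m - 1) + kap ε m = if m = 0 then 1 - exp (-ε) ^ 2 else 0 := by
  rcases lt_trichotomy m 0 with h | h | h
  · have h1 := kap_pred ε hε m (by omega)
    have h2 := kap_pred ε hε (m - 1) (by omega)
    rw [sub_add_cancel] at h2
    rw [if_neg h.ne, h2, h1]; ring
  · have h1 := kap_succ ε hε 0 le_rfl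
    subst h
    rw [if_pos rfl, show (0 : ℤ) - 1 = -(0 + 1) by ring, kap_neg, h1, kap_zero]; ring
  · have h1 := kap_succ ε hε m (by omega)
    have h2 := kap_succ ε hε (m - 1) (by omega)
    rw [sub_add_cancel] at h2
    rw [if_neg h.ne', h1, h2]; ring

lemma B11 (p p' : ℤ) : BB ε p 1 p' 1 = if p = p' then 1 - exp (-ε) ^ 2 else 0 := by
  have := Bsame_aux ε hε (p - p')
  simp only [sub_eq_zero] at this
  simp only [BB, Fintype.sum_bool, cf, sh, one_ne_zero, if_false, add_zero]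
  rw [← this, show p + 1 - (p' + 1) = p - p' by ring, show p + 1 - p' = p - p' + 1 by ring,
    show p - (p' + 1) = p - p' - 1 by ring]; ring

lemma Bmm (p p' : ℤ) : BB ε p (-1) p' (-1) = if p = p' then 1 - exp (-ε) ^ 2 else 0 := by
  have := Bsame_aux ε hε (p - p')
  simp only [sub_eq_zero] at this
  simp only [BB, Fintype.sum_bool, cf, sh, neg_eq_zero, one_ne_zero, if_false, add_zero]
  rw [← this, show p + -1 - (p' + -1) = p - p' by ring, show p + -1 - p' = p - p' - 1 by ring,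
    show p - (p' + -1) = p - p' + 1 by ring]; ring

omit hε in
lemma B00 (p : ℤ) : BB ε p 0 p 0 = 1 := by
  simp [BB, cf, sh, kap_zero]

end B

/-- faces of the staircase surface: base point and directions -/
def base (t : Fin 3) (i j : ℤ) : ℤ × ℤ × ℤ :=
  ![(i, j, -i - j), (i, j, 1 - i - j), (i + 1, j, 1 - i - j)] t

/-- directions -/
def dir (t : Fin 3) : ℤ × ℤ × ℤ := ![(1, 1, 0), (0, 1, -1), (-1, 0, -1)] t

/-- inner product of two faces -/
noncomputable def FB (ε : ℝ) (t : Fin 3) (i j : ℤ) (t' : Fin 3) (i' j' : ℤ) : ℝ :=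
  BB ε (base t i j).1 (dir t).1 (base t' i' j').1 (dir t').1
    * BB ε (base t i j).2.1 (dir t).2.1 (base t' i' j').2.1 (dir t').2.1
    * BB ε (base t i j).2.2 (dir t).2.2 (base t' i' j').2.2 (dir t').2.2

lemma FB_symm (ε : ℝ) (t : Fin 3) (i j : ℤ) (t' : Fin 3) (i' j' : ℤ) :
    FB ε t i j t' i' j' = FB ε t' i' j' t i j := by
  unfold FB
  rw [BB_symm ε (base t i j).1, BB_symm ε (base t i j).2.1, BB_symm ε (base t i j).2.2]

lemma FB_eq (ε : ℝ) (hε : 0 ≤ ε) (t : Fin 3) (i j : ℤ) (t' : Fin 3) (i' j' : ℤ) :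
    FB ε t i j t' i' j' = if t = t' ∧ i = i' ∧ j = j' then (1 - exp (-ε) ^ 2) ^ 2 else 0 := by
  have h01 : ∀ i j i' j' : ℤ, FB ε 0 i j 1 i' j' = 0 := by
    intro i j i' j'
    show BB ε i 1 i' 0 * BB ε j 1 j' 1 * BB ε (-i - j) 0 (1 - i' - j') (-1) = 0
    by_cases h1 : i + 1 ≤ i'
    · rw [B10 ε hε _ _ h1]; ring
    · by_cases h2 : j = j'
      · rw [B0m ε hε _ _ (by omega)]; ring
      · rw [B11 ε hε, if_neg h2]; ring
  have h02 : ∀ i j i' j' : ℤ, FB ε 0 i j 2 i' j' = 0 := by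
    intro i j i' j'
    show BB ε i 1 (i' + 1) (-1) * BB ε j 1 j' 0 * BB ε (-i - j) 0 (1 - i' - j') (-1) = 0
    by_cases h1 : i + 2 ≤ i' + 1
    · rw [B1m ε hε _ _ h1]; ring
    · by_cases h2 : j + 1 ≤ j'
      · rw [B10 ε hε _ _ h2]; ring
      · rw [B0m ε hε (-i - j) _ (by omega)]; ring
  have h12 : ∀ i j i' j' : ℤ, FB ε 1 i j 2 i' j' = 0 := by
    intro i j i' j'
    show BB ε i 0 (i' + 1) (-1) * BB ε j 1 j' 0 * BB ε (1 - i - j) (-1) (1 - i' - j') (-1) = 0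
    by_cases h1 : i + 1 ≤ i' + 1
    · rw [B0m ε hε _ _ h1]; ring
    · by_cases h2 : j + 1 ≤ j'
      · rw [B10 ε hε _ _ h2]; ring
      · rw [Bmm ε hε, if_neg (by omega)]; ring
  have h00 : FB ε 0 i j 0 i' j' = if i = i' ∧ j = j' then (1 - exp (-ε) ^ 2) ^ 2 else 0 := by
    show BB ε i 1 i' 1 * BB ε j 1 j' 1 * BB ε (-i - j) 0 (-i' - j') 0 = _
    rw [B11 ε hε, B11 ε hε]
    by_cases h1 : i = i' <;> by_cases h2 : j = j' <;> simp [h1, h2, B00, sq]
  have h11 : FB ε 1 i j 1 i' j' = if i = i' ∧ j = j' then (1 - exp (-ε) ^ 2) ^ 2 else 0 := by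
    show BB ε i 0 i' 0 * BB ε j 1 j' 1 * BB ε (1 - i - j) (-1) (1 - i' - j') (-1) = _
    rw [B11 ε hε, Bmm ε hε]
    by_cases h1 : i = i' <;> by_cases h2 : j = j' <;> simp [h1, h2, B00, sq]
  have h22 : FB ε 2 i j 2 i' j' = if i = i' ∧ j = j' then (1 - exp (-ε) ^ 2) ^ 2 else 0 := by
    show BB ε (i + 1) (-1) (i' + 1) (-1) * BB ε j 0 j' 0
      * BB ε (1 - i - j) (-1) (1 - i' - j') (-1) = _
    rw [Bmm ε hε, Bmm ε hε]
    by_cases h1 : i = i' <;> by_cases h2 : j = j' <;> simp [h1, h2, B00, sq]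
  fin_cases t <;> fin_cases t'
  · simpa using h00
  · simpa using h01 i j i' j'
  · simpa using h02 i j i' j'
  · rw [FB_symm]; simpa using h01 i' j' i j
  · simpa using h11
  · simpa using h12 i j i' j'
  · rw [FB_symm]; simpa using h02 i' j' i j
  · rw [FB_symm]; simpa using h12 i' j' i j
  · simpa using h22

/-- three-dimensional space with the `ℓ¹` norm -/
abbrev L13 : Type := PiLp 1 fun _ : Fin 3 => ℝ

lemma KE_L13 (a b : L13) : KE a b = k1 (a 0) (b 0) * k1 (a 1) (b 1) * k1 (a 2) (b 2) := by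
  rw [KE, PiLp.dist_eq_of_L1, Fin.sum_univ_three, k1, k1, k1, ← exp_add, ← exp_add]
  simp only [Real.dist_eq]; congr 1; ring

lemma posDef_L13 : PosDefSpace L13 := by
  classical
  intro F
  let x : F → ℕ → ℝ := fun a m =>
    if m = 0 then (a : L13) 0 else if m = 1 then (a : L13) 1 else (a : L13) 2
  obtain ⟨σ, hσ, h⟩ := gap_tail x 3 (by
    intro i j hij
    by_contra hcon
    push Not at hcon
    have h0 := hcon 0 (by norm_num)
    have h1 := hcon 1 (by norm_num)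
    have h2 := hcon 2 (by norm_num)
    refine hij (Subtype.ext (PiLp.ext fun m => ?_))
    fin_cases m
    · simpa [x] using h0
    · simpa [x] using h1
    · simpa [x] using h2)
  have h2 := posDef_of_gap _ σ hσ (h 3 le_rfl)
  convert h2 using 1
  ext i j
  refine (KE_L13 (i : L13) j).trans ?_
  simp [Finset.prod_range_succ, x]

/-- thin slab over a parallelogram -/
def Slab (R h : ℝ) : Set L13 :=
  {a | (0 ≤ a 0 ∧ a 0 ≤ R) ∧ (0 ≤ a 1 ∧ a 1 ≤ R) ∧ 0 ≤ a 0 + a 1 + a 2 ∧ a 0 + a 1 + a 2 ≤ h}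

lemma slab_upper (R : ℝ) (hR : 0 ≤ R) :
    magnitude (Slab R 0) ≤ ENNReal.ofReal (0.7304 * (R + 100) ^ 2) := by
  refine mag_upper posDef_L13 _ _ fun ι _ a v ha => ?_
  simp only [KE_L13]
  exact flat_upper R hR _ _ _ v (fun i => (ha i).1) (fun i => (ha i).2.1)
    (fun i => le_antisymm (ha i).2.2.2 (ha i).2.2.1)

lemma slab_lower (k : ℕ) (ε : ℝ) (hε : 0 ≤ ε) :
    ENNReal.ofReal (3 / 4 * (k * (1 - exp (-ε))) ^ 2) ≤ magnitude (Slab (k * ε) (2 * ε)) := by
  classical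
  let P : (Fin 3 × Fin k × Fin k) × Bool × Bool × Bool → ℤ × ℤ × ℤ := fun o =>
    ((base o.1.1 o.1.2.1 o.1.2.2).1 + sh (dir o.1.1).1 o.2.1,
      (base o.1.1 o.1.2.1 o.1.2.2).2.1 + sh (dir o.1.1).2.1 o.2.2.1,
      (base o.1.1 o.1.2.1 o.1.2.2).2.2 + sh (dir o.1.1).2.2 o.2.2.2)
  let a : (Fin 3 × Fin k × Fin k) × Bool × Bool × Bool → L13 := fun o =>
    WithLp.toLp 1 ![(P o).1 * ε, (P o).2.1 * ε, (P o).2.2 * ε]
  let v : (Fin 3 × Fin k × Fin k) × Bool × Bool × Bool → ℝ := fun o =>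
    1 / 4 * (cf ε (dir o.1.1).1 o.2.1 * cf ε (dir o.1.1).2.1 o.2.2.1 * cf ε (dir o.1.1).2.2 o.2.2.2)
  have hP : ∀ o, (0 ≤ (P o).1 ∧ (P o).1 ≤ k) ∧ (0 ≤ (P o).2.1 ∧ (P o).2.1 ≤ k) ∧
      0 ≤ (P o).1 + (P o).2.1 + (P o).2.2 ∧ (P o).1 + (P o).2.1 + (P o).2.2 ≤ 2 := by
    rintro ⟨⟨t, i, j⟩, b1, b2, b3⟩
    have := i.2; have := j.2
    fin_cases t <;> cases b1 <;> cases b2 <;> cases b3 <;> simp [P, base, dir, sh] <;> omega
  have hmem : ∀ o ∈ (univ : Finset _), a o ∈ Slab (k * ε) (2 * ε) := by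
    intro o _
    obtain ⟨⟨h1, h2⟩, ⟨h3, h4⟩, h5, h6⟩ := hP o
    have h1' : (0 : ℝ) ≤ (P o).1 := by exact_mod_cast h1
    have h2' : ((P o).1 : ℝ) ≤ k := by exact_mod_cast h2
    have h3' : (0 : ℝ) ≤ (P o).2.1 := by exact_mod_cast h3
    have h4' : ((P o).2.1 : ℝ) ≤ k := by exact_mod_cast h4
    have h5' : (0 : ℝ) ≤ (P o).1 + (P o).2.1 + (P o).2.2 := by exact_mod_cast h5
    have h6' : ((P o).1 : ℝ) + (P o).2.1 + (P o).2.2 ≤ 2 := by exact_mod_cast h6
    simp only [Slab, a, Set.mem_ofPred_eq, Matrix.cons_val_zero, Matrix.cons_val_one,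
      Matrix.cons_val]
    refine ⟨⟨by positivity, by nlinarith⟩, ⟨by positivity, by nlinarith⟩, by nlinarith, by nlinarith⟩
  refine le_trans (ENNReal.ofReal_le_ofReal ?_) (mag_lower posDef_L13 _ univ a v hmem)
  set q := exp (-ε) with hq
  have hk : ∀ m m' : ℤ, k1 (m * ε) (m' * ε) = kap ε (m - m') := fun m m' => by
    rw [k1, kap]; congr 3; push_cast; ring
  have hQ : Q univ (fun o o' => KE (a o) (a o')) v = 3 * k ^ 2 * (1 / 16 * (1 - q ^ 2) ^ 2) := by
    have h1 : ∀ f f' : Fin 3 × Fin k × Fin k, ∑ b : Bool × Bool × Bool, ∑ b' : Bool × Bool × Bool,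
        v (f, b) * v (f', b') * KE (a (f, b)) (a (f', b'))
        = if f = f' then 1 / 16 * (1 - q ^ 2) ^ 2 else 0 := by
      intro f f'
      have h2 := FB_eq ε hε f.1 f.2.1 f.2.2 f'.1 f'.2.1 f'.2.2
      have h3 : (f.1 = f'.1 ∧ ((f.2.1 : ℕ) : ℤ) = (f'.2.1 : ℕ) ∧ ((f.2.2 : ℕ) : ℤ) = (f'.2.2 : ℕ))
          ↔ f = f' := by
        simp only [Nat.cast_inj, Prod.ext_iff, Fin.ext_iff]
      simp only [h3] at h2
      rw [show (if f = f' then 1 / 16 * (1 - q ^ 2) ^ 2 else 0)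
        = 1 / 16 * (if f = f' then (1 - q ^ 2) ^ 2 else 0) by split_ifs <;> simp, ← h2]
      simp only [KE_L13, a, Matrix.cons_val_zero, Matrix.cons_val_one, Matrix.cons_val, hk, v, P,
        FB, BB, Fintype.sum_prod_type, Fintype.sum_bool]
      ring
    unfold Q
    rw [Fintype.sum_prod_type]
    simp only [Fintype.sum_prod_type (α₁ := Fin 3 × Fin k × Fin k)]
    rw [Finset.sum_congr rfl fun f _ => Finset.sum_comm]
    simp only [h1, Finset.sum_ite_eq, Finset.mem_univ, if_true, Finset.sum_const, Finset.card_univ,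
      Fintype.card_prod, Fintype.card_fin, nsmul_eq_mul]
    push_cast; ring
  have hS : ∑ o, v o = 3 * k ^ 2 * (1 / 4 * (1 - q) ^ 2) := by
    have h1 : ∀ f : Fin 3 × Fin k × Fin k, ∑ b : Bool × Bool × Bool, v (f, b)
        = 1 / 4 * (1 - q) ^ 2 := by
      rintro ⟨t, i, j⟩
      fin_cases t <;> simp [v, Fintype.sum_prod_type, cf, dir, ← hq] <;> ring
    rw [Fintype.sum_prod_type]
    simp only [h1, Finset.sum_const, Finset.card_univ, Fintype.card_prod, Fintype.card_fin,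
      nsmul_eq_mul]
    push_cast; ring
  rw [hQ, hS]
  have hq0 : 0 < q := exp_pos _
  have hq1 : q ≤ 1 := by rw [hq]; exact exp_le_one_iff.2 (by linarith)
  have h4 : (1 + q) ^ 2 ≤ 4 := by nlinarith
  have h5 := mul_le_mul_of_nonneg_left h4 (sq_nonneg (k * (1 - q)))
  nlinarith

lemma slab_convex (R h : ℝ) : Convex ℝ (Slab R h) := by
  rintro x ⟨⟨h1, h2⟩, ⟨h3, h4⟩, h5, h6⟩ y ⟨⟨g1, g2⟩, ⟨g3, g4⟩, g5, g6⟩ s t hs ht hst
  simp only [Slab, Set.mem_ofPred_eq, PiLp.add_apply, PiLp.smul_apply, smul_eq_mul]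
  have e : t = 1 - s := by linarith
  subst e
  refine ⟨⟨by positivity, by nlinarith⟩, ⟨by positivity, by nlinarith⟩, by nlinarith, by nlinarith⟩

lemma slab_compact (R h : ℝ) : IsCompact (Slab R h) := by
  have hc : Continuous fun p : ℝ × ℝ × ℝ =>
      (WithLp.toLp 1 ![p.1, p.2.1, p.2.2 - p.1 - p.2.1] : L13) := by
    refine (PiLp.continuous_toLp 1 _).comp (continuous_pi fun i => ?_)
    fin_cases i <;> simp <;> fun_prop
  have := ((isCompact_Icc (a := 0) (b := R)).prod ((isCompact_Icc (a := 0) (b := R)).prod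
    (isCompact_Icc (a := 0) (b := h)))).image hc
  convert this using 1
  ext a
  constructor
  · rintro ⟨h1, h2, h3⟩
    refine ⟨(a 0, a 1, a 0 + a 1 + a 2), ⟨h1, h2, h3⟩, PiLp.ext fun i => ?_⟩
    fin_cases i
    · simp
    · simp
    · show a 0 + a 1 + a 2 - a 0 - a 1 = a 2
      ring
  · rintro ⟨p, ⟨h1, h2, h3⟩, rfl⟩
    refine ⟨h1, h2, ?_⟩
    simpa using h3

lemma slab_nonempty (R h : ℝ) (hR : 0 ≤ R) (hh : 0 ≤ h) : (Slab R h).Nonempty :=
  ⟨0, by simp [Slab, hR, hh]⟩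

lemma slab_hausdorff (R h : ℝ) (hh : 0 ≤ h) : Metric.hausdorffDist (Slab R h) (Slab R 0) ≤ h := by
  refine Metric.hausdorffDist_le_of_mem_dist hh ?_ ?_
  · rintro x ⟨h1, h2, h3, h4⟩
    refine ⟨WithLp.toLp 1 ![x 0, x 1, -x 0 - x 1], ⟨h1, h2, by simp⟩, ?_⟩
    rw [PiLp.dist_eq_of_L1, Fin.sum_univ_three]
    simp only [Matrix.cons_val_zero, Matrix.cons_val_one, Matrix.cons_val, dist_self, zero_add,
      Real.dist_eq]
    rw [abs_of_nonneg (by linarith)]; linarith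
  · rintro x ⟨h1, h2, h3, h4⟩
    exact ⟨x, ⟨h1, h2, h3, h4.trans hh⟩, by simpa using hh⟩

theorem L13_discontinuous (C : Set L13 → Prop) (hC : ∀ A, Convex ℝ A → C A) :
    ¬ MagContinuousOn C := by
  intro h
  refine not_tendsto_of_gap (fun k => Slab 10000 (2 * (10000 / ((k + 1 : ℕ) : ℝ)))) (Slab 10000 0)
    (0.7304 * (10000 + 100) ^ 2) 74600000 (by norm_num) (by norm_num)
    (slab_upper _ (by norm_num)) (eventually_atTop.2 ⟨5000000, fun k hk => ?_⟩) ?_
  · have hk' : (5000000 : ℝ) ≤ ((k + 1 : ℕ) : ℝ) := by exact_mod_cast hk.trans (Nat.le_succ k)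
    set N : ℝ := ((k + 1 : ℕ) : ℝ) with hN
    set ε : ℝ := 10000 / N with hε
    have hε0 : 0 < ε := by positivity
    have hNε : N * ε = 10000 := by rw [hε]; field_simp
    have h1 := slab_lower (k + 1) ε hε0.le
    rw [← hN, hNε] at h1
    refine le_trans (ENNReal.ofReal_le_ofReal ?_) h1
    have hε1 : ε ≤ 0.002 := by nlinarith
    have h2 : exp (-ε) * (ε + 1) ≤ 1 := by
      have := mul_le_mul_of_nonneg_left (add_one_le_exp ε) (exp_pos (-ε)).le
      rwa [← exp_add, neg_add_cancel, exp_zero] at this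
    have h3 : 1 - ε ≤ exp (-ε) := by have := add_one_le_exp (-ε); linarith
    have h4 : ε * 0.998 ≤ 1 - exp (-ε) := by nlinarith
    have h5 : 9980 ≤ N * (1 - exp (-ε)) := by nlinarith
    nlinarith
  · refine h _ _ (fun k => ⟨slab_compact _ _, slab_nonempty _ _ (by norm_num) (by positivity),
      hC _ (slab_convex _ _)⟩) (slab_compact _ _) (slab_nonempty _ _ (by norm_num) le_rfl)
      (hC _ (slab_convex _ _)) ?_
    refine squeeze_zero (fun _ => Metric.hausdorffDist_nonneg)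
      (fun k => slab_hausdorff _ _ (by positivity)) ?_
    have := (tendsto_one_div_add_atTop_nhds_zero_nat (𝕜 := ℝ)).const_mul 20000
    rw [mul_zero] at this
    refine this.congr fun k => ?_
    push_cast; ring

end Pool.Agent.H323Z.Mag
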